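import Mathlib

/-!
# The loop contracting random walk: definitions

The graph is given by its oriented edges.  The definitions follow the problem text.
-/

namespace Pool.Agent.Lib.MP_3b7186_pr

open MeasureTheory
open scoped ENNReal

/-- A locally finite multigraph without self-loops, given by its set `E` of oriented edges:
each oriented edge has a tail, a head and a reversal. -/
structure MGraph (V E : Type*) where
  /-- the tail of an oriented edge -/
  tail : E → V
  /-- the head of an oriented edge -/
  head : E → V
  /-- the same edge with the other orientation -/
  rev : E → E
  rev_rev : ∀ e, rev (rev e) = e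
  tail_rev : ∀ e, tail (rev e) = head e
  tail_ne_head : ∀ e, tail e ≠ head e
  finite_out : ∀ v, {e | tail e = v}.Finite

variable {V E : Type*}

/-- Connectedness: any two vertices are joined by a path of edges. -/
def MGraph.Connected (G : MGraph V E) : Prop :=
  ∀ u v, Relation.ReflTransGen (fun a b => ∃ e, G.tail e = a ∧ G.head e = b) u v

open Classical in
/-- The `n`-step transition probabilities of simple random walk (at each step a uniformly
chosen oriented edge leaving the current vertex is crossed). -/
noncomputable def MGraph.srw (G : MGraph V E) : ℕ → V → V → ℝ
  | 0, u, v => if u = v then 1 else 0
  | n + 1, u, v =>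
    (∑ e ∈ (G.finite_out u).toFinset, G.srw n (G.head e) v) / (G.finite_out u).toFinset.card

/-- Simple random walk is transient: the expected number of visits to some vertex `o` of the
walk started at `o` is finite. -/
def MGraph.SRWTransient (G : MGraph V E) : Prop :=
  ∃ o, Summable fun n => G.srw n o o

/-- A state `(G_i, P_i, X_i)` of the loop contracting random walk.  The vertices of the
contracted graph `G_i` are the classes of the relation `same` on the vertices of `G`; its
oriented edges are the oriented edges of `G` whose two ends lie in different classes (the
others have become self-loops and are deleted).  `path` is the list of the edges of `P_i`, in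
order, and `pos` is a vertex of `G` lying in the class `X_i`. -/
structure State (V E : Type*) where
  /-- two vertices of `G` have been identified -/
  same : V → V → Prop
  /-- the edges of the current path, in order -/
  path : List E
  /-- a representative of the current vertex -/
  pos : V

/-- The initial state: nothing contracted, the empty path at `x`. -/
def State.start (x : V) : State V E := ⟨Eq, [], x⟩

/-- The oriented edges of the contracted graph whose tail is the current vertex. -/
def MGraph.out (G : MGraph V E) (s : State V E) : Set E :=
  {e | s.same (G.tail e) s.pos ∧ ¬ s.same (G.head e) s.pos}

open Classical in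
/-- One step of the loop contracting random walk along `e`.  If the head of `e` is the tail of
an edge `e_{j+1}` of the current path `(e_1, ..., e_k)`, the cycle `(e_{j+1}, ..., e_k, e)` is
contracted (all its vertices, i.e. the classes of the tails of its edges, are identified) and
the path becomes `(e_1, ..., e_j)`.  Otherwise `e` is appended to the path. -/
noncomputable def MGraph.step (G : MGraph V E) (s : State V E) (e : E) : State V E :=
  if ∃ f ∈ s.path, s.same (G.tail f) (G.head e) then
    { same := fun u v => s.same u v ∨
        ((∃ f ∈ s.path.dropWhile (fun f => ¬ s.same (G.tail f) (G.head e)) ++ [e],
            s.same (G.tail f) u) ∧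
          ∃ f ∈ s.path.dropWhile (fun f => ¬ s.same (G.tail f) (G.head e)) ++ [e],
            s.same (G.tail f) v)
      path := s.path.takeWhile (fun f => ¬ s.same (G.tail f) (G.head e))
      pos := G.head e }
  else
    { same := s.same
      path := s.path ++ [e]
      pos := G.head e }

/-- The state of the walk started at `x` after the edges in the list `h` (most recent first)
have been chosen. -/
noncomputable def MGraph.stateOf (G : MGraph V E) (x : V) : List E → State V E
  | [] => State.start x
  | e :: h => G.step (G.stateOf x h) e

/-- The list of the first `n` chosen edges, most recent first. -/
def hist {Ω : Type*} (ξ : ℕ → Ω → E) : ℕ → Ω → List E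
  | 0, _ => []
  | n + 1, ω => ξ n ω :: hist ξ n ω

open Classical in
/-- The random edges `ξ 0, ξ 1, ...` drive a loop contracting random walk started at `x`: given
the edges chosen so far, the next edge is uniform among the oriented edges of the current
contracted graph whose tail is the current vertex. -/
structure IsLCRW (G : MGraph V E) (x : V) {Ω : Type*} [MeasurableSpace Ω] (P : Measure Ω)
    (ξ : ℕ → Ω → E) : Prop where
  measurable : ∀ n e, MeasurableSet {ω | ξ n ω = e}
  law : ∀ (n : ℕ) (h : List E) (e : E),
    P {ω | hist ξ n ω = h ∧ ξ n ω = e} =
      P {ω | hist ξ n ω = h} *
        (if e ∈ G.out (G.stateOf x h) then ((G.out (G.stateOf x h)).ncard : ℝ≥0∞)⁻¹ else 0)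

/-- The finite paths `p 0, p 1, ...` converge to an infinite path: for every `m`, the first `m`
edges are eventually defined and constant. -/
def ConvergesToInfinitePath (p : ℕ → List E) : Prop :=
  ∀ m, ∃ N, ∀ n ≥ N, m ≤ (p n).length ∧ (p n).take m = (p N).take m

end Pool.Agent.Lib.MP_3b7186_pr
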