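import Pool.Agent.Lib.MP_3b7186_pr.Root

section

/-!
# Finite energy flows on transient graphs, and positivity of the escape weights
-/

namespace Pool.Agent.Lib.MP_3b7186_pr

open scoped Classical
open Filter Topology

noncomputable section

variable {V E : Type*} (G : MGraph V E)

/-- in an infinite connected graph every finite nonempty set has an outgoing edge -/
theorem bd_card_ne_zero [Infinite V] (hconn : G.Connected) (C : Finset V) (hC : C.Nonempty) :
    (bd G C).card ≠ 0 := by
  intro h
  rw [Finset.card_eq_zero] at h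
  obtain ⟨c, hc⟩ := hC
  obtain ⟨z, hz⟩ := Infinite.exists_notMem_finset C
  have : ∀ v, Relation.ReflTransGen (fun a b => ∃ e, G.tail e = a ∧ G.head e = b) c v →
      v ∈ C := by
    intro v hv
    induction hv with
    | refl => exact hc
    | tail _ hbc ih =>
      obtain ⟨e, he1, he2⟩ := hbc
      by_contra hcon
      have : e ∈ bd G C := by
        rw [mem_bd, he1, he2]
        exact ⟨ih, hcon⟩
      rw [h] at this
      simp at this
  exact hz (this z (hconn c z))

/-- the sets of vertices reachable in `k` steps from `o` -/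
def reach (o : V) : ℕ → Finset V
  | 0 => {o}
  | k + 1 => (starS G (reach o k)).image G.head

theorem mem_reach_of_srw_ne {o : V} {k : ℕ} : ∀ {v : V}, G.srw k v o ≠ 0 → v ∈ reach G o k := by
  induction k with
  | zero =>
    intro v h
    rw [MGraph.srw] at h
    have : v = o := by
      by_contra hne
      rw [if_neg hne] at h
      exact h rfl
    rw [reach, this]
    simp
  | succ k ih =>
    intro v h
    rw [MGraph.srw] at h
    have h1 : ∑ e ∈ (G.finite_out v).toFinset, G.srw k (G.head e) o ≠ 0 := by
      intro h0
      rw [h0, zero_div] at h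
      exact h rfl
    obtain ⟨e, he, he'⟩ := Finset.exists_ne_zero_of_sum_ne_zero h1
    have h2 := ih he'
    rw [reach, Finset.mem_image]
    have h3 : G.tail e = v := by simpa using he
    refine ⟨G.rev e, ?_, ?_⟩
    · rw [mem_starS, G.tail_rev]
      exact h2
    · rw [G.head_rev, h3]

/-- countability of the vertex set -/
theorem countable_vertices [Nonempty V] (hconn : G.Connected) : Countable V := by
  obtain ⟨o⟩ := ‹Nonempty V›
  have h : (⋃ k, (reach G o k : Set V)) = Set.univ := by
    rw [Set.eq_univ_iff_forall]
    intro v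
    have hv := hconn o v
    induction hv with
    | refl => exact Set.mem_iUnion.2 ⟨0, by simp [reach]⟩
    | tail _ hbc ih =>
      obtain ⟨k, hk⟩ := Set.mem_iUnion.1 ih
      obtain ⟨e, he1, he2⟩ := hbc
      refine Set.mem_iUnion.2 ⟨k + 1, ?_⟩
      rw [reach, Finset.mem_coe, Finset.mem_image]
      refine ⟨e, ?_, he2⟩
      rw [mem_starS, he1]
      exact hk
  rw [← Set.countable_univ_iff, ← h]
  exact Set.countable_iUnion fun k => (reach G o k).countable_toSet

/-- countability of the edge set -/
theorem countable_edges [Nonempty V] (hconn : G.Connected) : Countable E := by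
  have := countable_vertices G hconn
  have h : (⋃ v : V, (star G v : Set E)) = Set.univ := by
    rw [Set.eq_univ_iff_forall]
    intro e
    exact Set.mem_iUnion.2 ⟨G.tail e, by simp⟩
  rw [← Set.countable_univ_iff, ← h]
  exact Set.countable_iUnion fun v => (star G v).countable_toSet

theorem srw_nonneg (n : ℕ) (u v : V) : 0 ≤ G.srw n u v := by
  induction n generalizing u with
  | zero => rw [MGraph.srw]; split_ifs <;> norm_num
  | succ n ih =>
    rw [MGraph.srw]
    exact div_nonneg (Finset.sum_nonneg fun e _ => ih _) (by positivity)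

/-- a unit flow of finite energy from `x` to infinity -/
def HasFlow (x : V) : Prop :=
  ∃ (θ : E → ℝ) (K : ℝ), (∀ e, θ (G.rev e) = - θ e) ∧
    (∀ u, ∑ e ∈ star G u, θ e = if u = x then 1 else 0) ∧
    ∀ F : Finset E, ∑ e ∈ F, θ e ^ 2 ≤ K

/-- truncated Green function -/
def gr (o : V) (n : ℕ) (v : V) : ℝ := ∑ k ∈ Finset.range n, G.srw k v o

theorem gr_nonneg (o : V) (n : ℕ) (v : V) : 0 ≤ gr G o n v :=
  Finset.sum_nonneg fun _ _ => srw_nonneg G _ _ _

theorem srw_succ_mul (hdeg : ∀ v, (star G v).card ≠ 0) (o : V) (n : ℕ) (v : V) :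
    (star G v).card * G.srw (n + 1) v o = ∑ e ∈ star G v, G.srw n (G.head e) o := by
  have h0 : ((star G v).card : ℝ) ≠ 0 := by exact_mod_cast hdeg v
  rw [MGraph.srw]
  change ((star G v).card : ℝ) *
    ((∑ e ∈ star G v, G.srw n (G.head e) o) / (star G v).card) = _
  field_simp

/-- divergence of the gradient of the truncated Green function -/
theorem div_gr (hdeg : ∀ v, (star G v).card ≠ 0) (o : V) (n : ℕ) (v : V) :
    ∑ e ∈ star G v, (gr G o n v - gr G o n (G.head e)) =
      (star G v).card * ((if v = o then 1 else 0) - G.srw n v o) := by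
  rw [Finset.sum_sub_distrib, Finset.sum_const, nsmul_eq_mul]
  simp only [gr]
  rw [Finset.sum_comm]
  have h1 : ∑ k ∈ Finset.range n, ∑ e ∈ star G v, G.srw k (G.head e) o =
      (star G v).card * ∑ k ∈ Finset.range n, G.srw (k + 1) v o := by
    rw [Finset.mul_sum]
    refine Finset.sum_congr rfl fun k _ => ?_
    rw [srw_succ_mul G hdeg]
  rw [h1, ← mul_sub, ← Finset.sum_sub_distrib]
  congr 1
  have h2 := Finset.sum_range_sub' (fun k => G.srw k v o) n
  rw [h2]
  rfl

/-- energy bound -/
theorem energy_gr_le (hdeg : ∀ v, (star G v).card ≠ 0) (o : V) (n : ℕ) (F : Finset E) :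
    ∑ e ∈ F, (gr G o n (G.tail e) - gr G o n (G.head e)) ^ 2 ≤
      2 * (star G o).card * gr G o n o := by
  set S : Finset V := insert o ((Finset.range n).biUnion (reach G o)) with hS
  set f : V → ℝ := gr G o n with hf
  have hoff : ∀ v, v ∉ S → f v = 0 := by
    intro v hv
    rw [hS, Finset.mem_insert, not_or, Finset.mem_biUnion] at hv
    rw [hf, gr]
    refine Finset.sum_eq_zero fun k hk => ?_
    by_contra hne
    exact hv.2 ⟨k, hk, mem_reach_of_srw_ne G hne⟩
  set ES : Finset E := starS G S ∪ (starS G S).image G.rev with hES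
  have hmemES : ∀ e, e ∈ ES ↔ G.tail e ∈ S ∨ G.head e ∈ S := by
    intro e
    rw [hES, Finset.mem_union, mem_starS, Finset.mem_image]
    constructor
    · rintro (h | ⟨e', he', rfl⟩)
      · exact Or.inl h
      · rw [G.head_rev]
        rw [mem_starS] at he'
        exact Or.inr he'
    · rintro (h | h)
      · exact Or.inl h
      · refine Or.inr ⟨G.rev e, ?_, G.rev_rev e⟩
        rw [mem_starS, G.tail_rev]
        exact h
  have h1 : ∑ e ∈ F, (f (G.tail e) - f (G.head e)) ^ 2 ≤
      ∑ e ∈ ES, (f (G.tail e) - f (G.head e)) ^ 2 := by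
    have : ∑ e ∈ F, (f (G.tail e) - f (G.head e)) ^ 2 =
        ∑ e ∈ F.filter (fun e => e ∈ ES), (f (G.tail e) - f (G.head e)) ^ 2 := by
      rw [Finset.sum_filter]
      refine Finset.sum_congr rfl fun e _ => ?_
      split_ifs with h
      · rfl
      · rw [hmemES, not_or] at h
        rw [hoff _ h.1, hoff _ h.2]
        norm_num
    rw [this]
    refine Finset.sum_le_sum_of_subset_of_nonneg ?_ fun _ _ _ => sq_nonneg _
    intro e he
    exact (Finset.mem_filter.1 he).2
  refine h1.trans ?_
  have h2 : ∑ e ∈ ES, f (G.head e) * (f (G.tail e) - f (G.head e)) =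
      ∑ e ∈ ES, -(f (G.tail e) * (f (G.tail e) - f (G.head e))) := by
    refine Finset.sum_nbij' G.rev G.rev ?_ ?_ ?_ ?_ ?_
    · intro e he
      rw [hmemES] at he ⊢
      rw [G.tail_rev, G.head_rev]
      exact he.symm
    · intro e he
      rw [hmemES] at he ⊢
      rw [G.tail_rev, G.head_rev]
      exact he.symm
    · exact fun e _ => G.rev_rev e
    · exact fun e _ => G.rev_rev e
    · intro e _
      rw [G.tail_rev, G.head_rev]
      ring
  have h3 : ∑ e ∈ ES, (f (G.tail e) - f (G.head e)) ^ 2 =
      2 * ∑ e ∈ ES, f (G.tail e) * (f (G.tail e) - f (G.head e)) := by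
    have : ∀ e ∈ ES, (f (G.tail e) - f (G.head e)) ^ 2 =
        f (G.tail e) * (f (G.tail e) - f (G.head e)) -
        f (G.head e) * (f (G.tail e) - f (G.head e)) := by
      intro e _
      ring
    rw [Finset.sum_congr rfl this, Finset.sum_sub_distrib, h2, Finset.sum_neg_distrib]
    ring
  have h4 : ∑ e ∈ ES, f (G.tail e) * (f (G.tail e) - f (G.head e)) =
      ∑ e ∈ starS G S, f (G.tail e) * (f (G.tail e) - f (G.head e)) := by
    symm
    refine Finset.sum_subset (by rw [hES]; exact Finset.subset_union_left) ?_
    intro e _ he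
    rw [mem_starS] at he
    rw [hoff _ he, zero_mul]
  have h5 : ∑ e ∈ starS G S, f (G.tail e) * (f (G.tail e) - f (G.head e)) =
      ∑ v ∈ S, f v * ∑ e ∈ star G v, (f v - f (G.head e)) := by
    rw [starS, Finset.sum_biUnion]
    · refine Finset.sum_congr rfl fun v _ => ?_
      rw [Finset.mul_sum]
      refine Finset.sum_congr rfl fun e he => ?_
      rw [mem_star] at he
      rw [he]
    · intro u _ u' _ huu'
      rw [Function.onFun, Finset.disjoint_left]
      intro e he he'
      rw [mem_star] at he he'
      exact huu' (he.symm.trans he')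
  have h6 : ∑ v ∈ S, f v * ∑ e ∈ star G v, (f v - f (G.head e)) ≤
      ∑ v ∈ S, (if v = o then (star G o).card * f o else 0) := by
    refine Finset.sum_le_sum fun v _ => ?_
    rw [hf, div_gr G hdeg]
    have h7 : 0 ≤ gr G o n v * ((star G v).card * G.srw n v o) :=
      mul_nonneg (gr_nonneg G _ _ _) (mul_nonneg (by positivity) (srw_nonneg G _ _ _))
    split_ifs with hvo
    · subst hvo
      nlinarith
    · nlinarith
  rw [Finset.sum_ite_eq' S o, if_pos (by rw [hS]; exact Finset.mem_insert_self _ _)] at h6
  rw [h3, h4, h5]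
  linarith

theorem hasFlow_of_summable (hconn : G.Connected) (hdeg : ∀ v, (star G v).card ≠ 0) (o : V)
    (ho : Summable fun n => G.srw n o o) : HasFlow G o := by
  have hd0 : (0 : ℝ) < (star G o).card := by exact_mod_cast Nat.pos_of_ne_zero (hdeg o)
  set K : ℝ := 2 * (star G o).card * ∑' n, G.srw n o o with hK
  have hKn : ∀ n, 2 * (star G o).card * gr G o n o ≤ K := by
    intro n
    rw [hK]
    refine mul_le_mul_of_nonneg_left ?_ (by positivity)
    exact ho.sum_le_tsum _ fun _ _ => srw_nonneg G _ _ _
  have hen : ∀ n (F : Finset E), ∑ e ∈ F, (gr G o n (G.tail e) - gr G o n (G.head e)) ^ 2 ≤ K :=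
    fun n F => (energy_gr_le G hdeg o n F).trans (hKn n)
  -- boundedness of the truncated Green functions at every vertex
  have hbdd : ∀ v, ∃ M, ∀ n, gr G o n v ≤ M := by
    intro v
    have hv := hconn o v
    induction hv with
    | refl => exact ⟨_, fun n => ho.sum_le_tsum _ fun _ _ => srw_nonneg G _ _ _⟩
    | @tail b c _ hbc ih =>
      obtain ⟨M, hM⟩ := ih
      obtain ⟨e, he1, he2⟩ := hbc
      refine ⟨M + 1 + K, fun n => ?_⟩
      have h1 := hen n {e}
      rw [Finset.sum_singleton, he1, he2] at h1
      have h2 := hM n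
      nlinarith [sq_nonneg (gr G o n b - gr G o n c + 1)]
  have hsum : ∀ v, Summable fun k => G.srw k v o := by
    intro v
    obtain ⟨M, hM⟩ := hbdd v
    exact summable_of_sum_range_le (fun _ => srw_nonneg G _ _ _) hM
  set f : V → ℝ := fun v => ∑' k, G.srw k v o with hf
  have htend : ∀ v, Tendsto (fun n => gr G o n v) atTop (𝓝 (f v)) := fun v =>
    (hsum v).hasSum.tendsto_sum_nat
  have hdiv : ∀ v, ∑ e ∈ star G v, (f v - f (G.head e)) =
      (star G v).card * (if v = o then 1 else 0) := by
    intro v
    have h1 : Tendsto (fun n => ∑ e ∈ star G v, (gr G o n v - gr G o n (G.head e))) atTop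
        (𝓝 (∑ e ∈ star G v, (f v - f (G.head e)))) :=
      tendsto_finsetSum _ fun e _ => (htend v).sub (htend _)
    have h2 : Tendsto (fun n => ((star G v).card : ℝ) *
        ((if v = o then 1 else 0) - G.srw n v o)) atTop
        (𝓝 ((star G v).card * ((if v = o then 1 else 0) - 0))) :=
      (tendsto_const_nhds.sub (hsum v).tendsto_atTop_zero).const_mul _
    simp only [div_gr G hdeg] at h1
    rw [sub_zero] at h2
    exact tendsto_nhds_unique h1 h2
  refine ⟨fun e => (f (G.tail e) - f (G.head e)) / (star G o).card,
    K / (star G o).card ^ 2, ?_, ?_, ?_⟩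
  · intro e
    simp only
    rw [G.tail_rev, G.head_rev]
    ring
  · intro u
    have h1 : ∀ e ∈ star G u, (f (G.tail e) - f (G.head e)) / (star G o).card =
        (f u - f (G.head e)) / (star G o).card := by
      intro e he
      rw [mem_star] at he
      rw [he]
    rw [Finset.sum_congr rfl h1, ← Finset.sum_div, hdiv]
    split_ifs with h
    · subst h
      field_simp
    · simp
  · intro F
    have h1 : Tendsto (fun n => ∑ e ∈ F, (gr G o n (G.tail e) - gr G o n (G.head e)) ^ 2) atTop
        (𝓝 (∑ e ∈ F, (f (G.tail e) - f (G.head e)) ^ 2)) :=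
      tendsto_finsetSum _ fun e _ => ((htend _).sub (htend _)).pow 2
    have h2 := le_of_tendsto' h1 fun n => hen n F
    simp only [div_pow]
    rw [← Finset.sum_div]
    exact div_le_div_of_nonneg_right h2 (by positivity)

/-- transport of a flow along an edge -/
theorem HasFlow.step {u v : V} (h : HasFlow G u) {e : E} (he1 : G.tail e = u)
    (he2 : G.head e = v) : HasFlow G v := by
  obtain ⟨θ, K, hθ, hdiv, hK⟩ := h
  have hne : G.rev e ≠ e := by
    intro h
    have := G.tail_ne_head e
    rw [← G.tail_rev, h] at this
    exact this rfl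
  refine ⟨fun a => θ a + ((if a = G.rev e then 1 else 0) - (if a = e then 1 else 0)),
    2 * K + 4, ?_, ?_, ?_⟩
  · intro a
    simp only
    rw [hθ]
    have h1 : (G.rev a = G.rev e) ↔ (a = e) := G.rev_injective.eq_iff
    have h2 : (G.rev a = e) ↔ (a = G.rev e) := by
      constructor
      · rintro rfl; rw [G.rev_rev]
      · rintro rfl; rw [G.rev_rev]
    simp only [h1, h2]
    ring
  · intro w
    rw [Finset.sum_add_distrib, Finset.sum_sub_distrib, hdiv, Finset.sum_ite_eq',
      Finset.sum_ite_eq']
    simp only [mem_star, G.tail_rev, he1, he2]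
    have hvu : v ≠ u := by
      rw [← he1, ← he2]
      exact (G.tail_ne_head e).symm
    by_cases h1 : w = v
    · subst h1
      simp [hvu, hvu.symm]
    · by_cases h2 : w = u
      · subst h2
        simp [h1, Ne.symm h1]
      · simp [h1, h2, Ne.symm h1, Ne.symm h2]
  · intro F
    have h1 : ∀ a ∈ F, (θ a + ((if a = G.rev e then 1 else 0) - (if a = e then 1 else 0))) ^ 2 ≤
        2 * θ a ^ 2 + (2 * (if a = G.rev e then 1 else 0) + 2 * (if a = e then 1 else 0)) := by
      intro a _
      by_cases h2 : a = G.rev e
      · have h3 : a ≠ e := by rw [h2]; exact hne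
        simp only [h2, if_true]
        rw [if_neg hne]
        nlinarith [sq_nonneg (θ (G.rev e) - 1)]
      · by_cases h3 : a = e
        · simp only [h3, if_true]
          rw [if_neg (Ne.symm hne)]
          nlinarith [sq_nonneg (θ e + 1)]
        · simp only [h2, h3, if_false]
          nlinarith [sq_nonneg (θ a)]
    refine (Finset.sum_le_sum h1).trans ?_
    rw [Finset.sum_add_distrib, Finset.sum_add_distrib, ← Finset.mul_sum, ← Finset.mul_sum,
      ← Finset.mul_sum, Finset.sum_ite_eq', Finset.sum_ite_eq']
    have h4 := hK F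
    have h5 : (if G.rev e ∈ F then (1 : ℝ) else 0) ≤ 1 := by split_ifs <;> norm_num
    have h6 : (if e ∈ F then (1 : ℝ) else 0) ≤ 1 := by split_ifs <;> norm_num
    linarith

theorem hasFlow_all (hconn : G.Connected) {o : V} (ho : HasFlow G o) (x : V) : HasFlow G x := by
  have hv := hconn o x
  induction hv with
  | refl => exact ho
  | tail _ hbc ih =>
    obtain ⟨e, he1, he2⟩ := hbc
    exact ih.step G he1 he2

theorem cc_pos_of_hasFlow (hb : ∀ C : Finset V, C.Nonempty → (bd G C).card ≠ 0)
    (hflow : ∀ x, HasFlow G x) {B : Finset V} (hB : B.Nonempty) : 0 < cc G B := by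
  obtain ⟨x, hx⟩ := hB
  obtain ⟨θ, K, hθ, hdiv, hK⟩ := hflow x
  have h1 : ∀ A : Finset V, 1 ≤ capA G (A ∪ B) B * K := fun A =>
    one_le_capA_mul G hb θ hθ x hdiv K hK Finset.subset_union_right hx
  have hK0 : 0 ≤ K := by simpa using hK ∅
  have hKpos : 0 < K := by
    rcases hK0.lt_or_eq with h | h
    · exact h
    · have := h1 ∅
      rw [← h, mul_zero] at this
      linarith
  have h2 : 1 / K ≤ cc G B := by
    refine le_ciInf fun A => ?_
    rw [div_le_iff₀ hKpos]
    exact h1 A
  exact lt_of_lt_of_le (by positivity) h2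

/-- On a transient graph all escape weights are positive. -/
theorem cc_pos [Infinite V] (hconn : G.Connected) (htr : G.SRWTransient) {B : Finset V}
    (hB : B.Nonempty) : 0 < cc G B := by
  have hb := bd_card_ne_zero G hconn
  have hdeg : ∀ v, (star G v).card ≠ 0 := by
    intro v h
    have h1 := hb {v} (Finset.singleton_nonempty v)
    rw [Finset.card_eq_zero] at h
    apply h1
    rw [Finset.card_eq_zero, Finset.eq_empty_iff_forall_notMem]
    intro e he
    rw [mem_bd, Finset.mem_singleton] at he
    have : e ∈ star G v := by rw [mem_star]; exact he.1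
    rw [h] at this
    simp at this
  obtain ⟨o, ho⟩ := htr
  exact cc_pos_of_hasFlow G hb
    (hasFlow_all G hconn (hasFlow_of_summable G hconn hdeg o ho)) hB

end

end Pool.Agent.Lib.MP_3b7186_pr
end

section

section

/-!
# The chain of clusters along a history, and the rooted process
-/

namespace Pool.Agent.Lib.MP_3b7186_pr

open scoped Classical ENNReal

noncomputable section

variable {V E : Type*} (G : MGraph V E)

/-- the chain of clusters after the history `h` (most recent edge first) -/
def cst (x : V) : List E → List (Finset V × E) × Finset V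
  | [] => ([], {x})
  | e :: h => nxt G x (((cst x h).2, e) :: (cst x h).1)

/-- each edge of the history leaves the cluster current at its time -/
def Valid (x : V) : List E → Prop
  | [] => True
  | e :: h => Valid x h ∧ e ∈ bd G (cst G x h).2

theorem goodSt_cst (x : V) {h : List E} (hv : Valid G x h) : GoodSt G x (cst G x h) := by
  induction h with
  | nil => exact ⟨trivial, by simp [cst], by simp [cst]⟩
  | cons e h ih =>
    obtain ⟨h1, h2⟩ := hv
    obtain ⟨g1, g2, g3⟩ := ih h1
    rw [mem_bd] at h2
    exact (nxt_spec G (v := x) (L := ((cst G x h).2, e) :: (cst G x h).1)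
      ⟨g1, g2, h2.1, h2.2, g3⟩).1

theorem good_cons_cst (x : V) {h : List E} {e : E} (hv : Valid G x (e :: h)) :
    Good G x (((cst G x h).2, e) :: (cst G x h).1) := by
  obtain ⟨h1, h2⟩ := hv
  obtain ⟨g1, g2, g3⟩ := goodSt_cst G x h1
  rw [mem_bd] at h2
  exact ⟨g1, g2, h2.1, h2.2, g3⟩

/-- the links after one more step: one more link, or a suffix of the old links -/
theorem cst_cons_fst (x : V) {h : List E} {e : E} (hv : Valid G x (e :: h)) :
    (cst G x (e :: h)).1 = ((cst G x h).2, e) :: (cst G x h).1 ∨
      (cst G x (e :: h)).1 <:+ (cst G x h).1 := by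
  have hg := good_cons_cst G x hv
  have hh : G.head e ∉ (cst G x h).2 := hg.2.2.2.1
  rw [cst]
  set C := (cst G x h).2
  set Y := (cst G x h).1
  by_cases hm : G.head e ∈ vs ((C, e) :: Y)
  · right
    rw [vs_cons, Finset.mem_union] at hm
    obtain ⟨X, r, Y', hY, hr, hX⟩ := exists_split (hm.resolve_left hh)
    have hsp : (C, e) :: Y = ((C, e) :: X) ++ r :: Y' := by rw [hY]; rfl
    rw [hsp] at hg ⊢
    rw [nxt_of_split G hg hr]
    simp only
    rw [hY]
    exact (List.suffix_cons r Y').trans (List.suffix_append X _)
  · left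
    rw [nxt_of_not_mem]
    exact hm

/-! ### The rooted process -/

/-- state of the rooted process: number of returns, root, and (outside the root) first edge,
links and current cluster -/
abbrev RS (V E : Type*) := ℕ × Finset V × Option (E × List (Finset V × E) × Finset V)

/-- trail-level state: number of returns, root, first edge and links -/
abbrev TS (V E : Type*) := ℕ × Finset V × E × List (Finset V × E)

/-- the current cluster -/
def cur : RS V E → Finset V
  | (_, D, none) => D
  | (_, _, some (_, _, C)) => C

/-- a state and an edge give a trail-level state -/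
def toT : RS V E → E → TS V E
  | (j, D, none), e => (j, D, e, [])
  | (j, D, some (g, L, C)), e => (j, D, g, (C, e) :: L)

/-- the state reached by a trail-level state -/
def nextT : TS V E → RS V E
  | (j, D, g, L) =>
    if endR G (G.head g) L ∈ D then (j + 1, vs L ∪ D, none)
    else (j, D, some (g, nxt G (G.head g) L))

/-- the chain of clusters corresponding to a state of the rooted process -/
def toS (P0 : List (Finset V × E)) : RS V E → List (Finset V × E) × Finset V
  | (_, D, none) => (P0, D)
  | (_, D, some (g, L, C)) => (L ++ (D, g) :: P0, C)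

theorem toT_injective : Function.Injective (fun p : RS V E × E => toT p.1 p.2) := by
  rintro ⟨⟨j, D, _ | ⟨g, L, C⟩⟩, e⟩ ⟨⟨j', D', _ | ⟨g', L', C'⟩⟩, e'⟩ h
  · simp only [toT, Prod.mk.injEq] at h
    obtain ⟨rfl, rfl, rfl, _⟩ := h
    rfl
  · simp [toT] at h
  · simp [toT] at h
  · simp only [toT, Prod.mk.injEq, List.cons.injEq] at h
    obtain ⟨rfl, rfl, rfl, ⟨rfl, rfl⟩, rfl⟩ := h
    rfl

theorem cur_toS (P0 : List (Finset V × E)) (t : RS V E) : (toS P0 t).2 = cur t := by
  rcases t with ⟨j, D, _ | ⟨g, L, C⟩⟩ <;> rfl

/-- the trail of the full chain is the trail of the rooted process on top of the prefix -/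
theorem toS_trail (P0 : List (Finset V × E)) (t : RS V E) (e : E) :
    ((toS P0 t).2, e) :: (toS P0 t).1 =
      (toT t e).2.2.2 ++ ((toT t e).2.1, (toT t e).2.2.1) :: P0 := by
  rcases t with ⟨j, D, _ | ⟨g, L, C⟩⟩ <;> rfl

/-- one step of the full chain corresponds to one step of the rooted process, unless the chain
drops below the prefix -/
theorem nxt_toS (x : V) (P0 : List (Finset V × E)) (τ : TS V E)
    (hg : Good G x (τ.2.2.2 ++ (τ.2.1, τ.2.2.1) :: P0))
    (hlen : P0.length ≤ (nxt G x (τ.2.2.2 ++ (τ.2.1, τ.2.2.1) :: P0)).1.length) :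
    nxt G x (τ.2.2.2 ++ (τ.2.1, τ.2.2.1) :: P0) = toS P0 (nextT G τ) := by
  obtain ⟨j, D, g, L⟩ := τ
  simp only at hg hlen ⊢
  have hend : endR G x (L ++ (D, g) :: P0) = endR G (G.head g) L := by
    rw [endR_append, endR_cons]
  rw [nextT]
  by_cases h1 : endR G (G.head g) L ∈ D
  · rw [if_pos h1, toS, nxt_of_split G hg (by rw [hend]; exact h1)]
  · rw [if_neg h1]
    have hgL : Good G (G.head g) L := by
      rw [good_append] at hg
      exact hg.2.1
    by_cases h2 : endR G (G.head g) L ∈ vs L
    · obtain ⟨X, r, Y, hL, hr, hX⟩ := exists_split h2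
      have hsp : L ++ (D, g) :: P0 = X ++ r :: (Y ++ (D, g) :: P0) := by rw [hL]; simp
      rw [hsp] at hg hend ⊢
      rw [nxt_of_split G hg (by rw [hend]; exact hr)]
      have hr' := hr
      rw [hL] at hgL hr'
      have := nxt_of_split G hgL hr'
      rw [← hL] at this
      rw [this, toS]
    · by_cases h3 : endR G (G.head g) L ∈ vs P0
      · exfalso
        obtain ⟨X, r, Y, hP, hr, hX⟩ := exists_split h3
        have hsp : L ++ (D, g) :: P0 = (L ++ (D, g) :: X) ++ r :: Y := by rw [hP]; simp
        rw [hsp] at hg hend hlen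
        rw [nxt_of_split G hg (by rw [hend]; exact hr), hP] at hlen
        simp at hlen
        omega
      · rw [nxt_of_not_mem, nxt_of_not_mem G h2, toS, hend]
        rw [hend, vs_append, vs_cons, Finset.mem_union, Finset.mem_union]
        simp only
        tauto

/-- the rooted process along a history -/
def tst (x : V) (P0 : List (Finset V × E)) (C : Finset V) : ℕ → List E → Option (RS V E)
  | 0, h => if cst G x h = (P0, C) then some (0, C, none) else none
  | _ + 1, [] => none
  | k + 1, e :: h =>
    if P0.length ≤ (cst G x (e :: h)).1.length then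
      (tst x P0 C k h).map (fun t => nextT G (toT t e))
    else none

theorem tst_track (x : V) (P0 : List (Finset V × E)) (C : Finset V) :
    ∀ (k : ℕ) (h : List E), Valid G x h → ∀ t, tst G x P0 C k h = some t →
      cst G x h = toS P0 t := by
  intro k
  induction k with
  | zero =>
    intro h _ t ht
    rw [tst] at ht
    split_ifs at ht with h1
    · simp only [Option.some.injEq] at ht
      subst ht
      exact h1
  | succ k ih =>
    intro h hv t ht
    cases h with
    | nil => simp [tst] at ht
    | cons e h =>
      rw [tst] at ht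
      split_ifs at ht with h1
      · rw [Option.map_eq_some_iff] at ht
        obtain ⟨t', ht', rfl⟩ := ht
        have h2 := ih h hv.1 t' ht'
        have hg := good_cons_cst G x hv
        rw [cst] at h1 ⊢
        rw [h2] at h1 hg ⊢
        rw [toS_trail] at h1 hg ⊢
        exact nxt_toS G x P0 (toT t' e) hg h1

end

end Pool.Agent.Lib.MP_3b7186_pr
end

section

/-!
# The supersolution for the rooted process
-/

namespace Pool.Agent.Lib.MP_3b7186_pr

open scoped Classical ENNReal

noncomputable section

variable {V E : Type*} (G : MGraph V E)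

/-- law of the `j`-th root, started from `C` -/
def RR (C : Finset V) : ℕ → Finset V → ℝ≥0∞
  | 0, D => if D = C then 1 else 0
  | j + 1, D => ∑' B, RR C j B * pE G B D

theorem tsum_RR_mul_rho (C : Finset V) (i : ℕ) :
    ∀ j, ∑' D, RR G C i D * rho G j D = rho G (i + j) C := by
  induction i with
  | zero =>
    intro j
    rw [tsum_eq_single C]
    · simp [RR]
    · intro D hD
      simp [RR, hD]
  | succ i ih =>
    intro j
    have h1 : ∀ D, RR G C (i + 1) D * rho G j D =
        ∑' B, RR G C i B * pE G B D * rho G j D := by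
      intro D
      rw [RR, ENNReal.tsum_mul_right]
    rw [tsum_congr h1, ENNReal.tsum_comm]
    have h2 : ∀ B, ∑' D, RR G C i B * pE G B D * rho G j D =
        RR G C i B * rho G (j + 1) B := by
      intro B
      rw [rho, ← ENNReal.tsum_mul_left]
      refine tsum_congr fun D => ?_
      ring
    rw [tsum_congr h2, ih (j + 1)]
    congr 1
    omega

theorem tsum_RR (C : Finset V) (J : ℕ) : ∑' D, RR G C J D = rho G J C := by
  have := tsum_RR_mul_rho G C J 0
  simpa [rho] using this

/-- the bound for the expected number of visits to a state of the rooted process -/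
def XX (C : Finset V) : RS V E → ℝ≥0∞
  | (j, D, none) => RR G C j D
  | (j, D, some (g, L, C')) =>
    if g ∈ bd G D ∧ GoodSt G (G.head g) (L, C') ∧ Disjoint (vs L ∪ C') D then
      RR G C j D * aE G D * ENNReal.ofReal (wt (mm G) L * (mm G C' * (bd G C').card))
    else 0

/-- the corresponding bound for trail-level states -/
def XT (C : Finset V) : TS V E → ℝ≥0∞
  | (j, D, g, L) =>
    if g ∈ bd G D ∧ Good G (G.head g) L ∧ Disjoint (vs L) D then
      RR G C j D * aE G D * ENNReal.ofReal (wt (mm G) L)
    else 0

/-- transition probabilities -/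
def kk (t : RS V E) (e : E) : ℝ≥0∞ :=
  if e ∈ bd G (cur t) then ((bd G (cur t)).card : ℝ≥0∞)⁻¹ else 0

theorem aE_eq {D : Finset V} (h : (bd G D).card ≠ 0) :
    aE G D = ((bd G D).card : ℝ≥0∞)⁻¹ := by
  have h0 : (0 : ℝ) < (bd G D).card := by exact_mod_cast Nat.pos_of_ne_zero h
  rw [aE, one_div, ENNReal.ofReal_inv_of_pos h0, ENNReal.ofReal_natCast]

theorem XX_mul_kk_le (C : Finset V) (t : RS V E) (e : E) :
    XX G C t * kk G t e ≤ XT G C (toT t e) := by
  rcases t with ⟨j, D, _ | ⟨g, L, C'⟩⟩
  · rw [XX, kk, cur, toT, XT]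
    split_ifs with h1 h2 h2
    · rw [aE_eq G (Finset.card_ne_zero.2 ⟨e, h1⟩)]
      simp
    · exact absurd ⟨h1, by simp, by simp⟩ h2
    · simp
    · simp
  · by_cases h1 : g ∈ bd G D ∧ GoodSt G (G.head g) (L, C') ∧ Disjoint (vs L ∪ C') D
    · by_cases h2 : e ∈ bd G C'
      · rw [XX, kk, cur, toT, XT, if_pos h1, if_pos h2, if_pos]
        · have hc : (bd G C').card ≠ 0 := Finset.card_ne_zero.2 ⟨e, h2⟩
          rw [mul_assoc]
          refine mul_le_mul_right (le_of_eq ?_) _
          have h4 : wt (mm G) L * (mm G C' * (bd G C').card) =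
              wt (mm G) ((C', e) :: L) * (bd G C').card := by
            rw [wt_cons]; ring
          rw [h4, ENNReal.ofReal_mul (wt_nonneg (mm_nonneg G) _), ENNReal.ofReal_natCast,
            mul_assoc, ENNReal.mul_inv_cancel (by exact_mod_cast hc)
            (ENNReal.natCast_ne_top _), mul_one]
        · rw [mem_bd] at h2
          refine ⟨h1.1, ⟨h1.2.1.1, h1.2.1.2.1, h2.1, h2.2, h1.2.1.2.2⟩, ?_⟩
          rw [vs_cons, Finset.union_comm]
          exact h1.2.2
      · rw [kk, cur, if_neg h2, mul_zero]
        exact zero_le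
    · rw [XX, if_neg h1, zero_mul]
      exact zero_le

/-- The supersolution property. -/
theorem XX_super (hb : ∀ C : Finset V, C.Nonempty → (bd G C).card ≠ 0) (C : Finset V)
    (t : RS V E) :
    (if t = (0, C, none) then 1 else 0) +
      ∑' τ : TS V E, (if nextT G τ = t then XT G C τ else 0) ≤ XX G C t := by
  rcases t with ⟨j, D, _ | ⟨g, L, C'⟩⟩
  · cases j with
    | zero =>
      have h1 : ∀ τ : TS V E, (if nextT G τ = (0, D, none) then XT G C τ else 0) = 0 := by
        rintro ⟨j', B, g, L⟩
        rw [if_neg]
        rw [nextT]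
        split_ifs <;> simp
      rw [tsum_congr h1, tsum_zero, add_zero, XX, RR]
      by_cases h : D = C
      · subst h; simp
      · rw [if_neg]
        · simp
        · simp [h]
    | succ j =>
      rw [if_neg (by simp), zero_add, XX, RR]
      have hn : ∀ (j' : ℕ) (B : Finset V) (p : E × List (Finset V × E)),
          nextT G (j', B, p) = (j + 1, D, none) ↔ endA G p ∈ B ∧ j' = j ∧ vs p.2 ∪ B = D := by
        rintro j' B ⟨g, L⟩
        rw [nextT, endA]
        split_ifs with h <;> simp [h]
      -- nonzero terms come from loops at `B` that enlarge `B` to `D`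
      have hne : ∀ (B : Finset V) (p : E × List (Finset V × E)),
          nextT G (j, B, p) = (j + 1, D, none) → XT G C (j, B, p) ≠ 0 →
          B ⊂ D ∧ p ∈ (arcs G B (D \ B)).filter (fun p => vs p.2 = D \ B ∧ endA G p ∈ B) := by
        rintro B ⟨g, L⟩ h1 h2
        rw [hn] at h1
        obtain ⟨h3, _, h4⟩ := h1
        simp only [XT] at h2
        have h5 : g ∈ bd G B ∧ Good G (G.head g) L ∧ Disjoint (vs L) B := by
          by_contra h
          rw [if_neg h] at h2
          exact h2 rfl
        obtain ⟨h6, h7, h8⟩ := h5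
        simp only [endA] at h3 h4
        have h9 : vs L = D \ B := by
          rw [← h4, Finset.union_sdiff_right]
          symm
          rwa [Finset.sdiff_eq_self_iff_disjoint]
        have hL : L ≠ [] := by
          rintro rfl
          rw [mem_bd] at h6
          exact h6.2 h3
        have h10 := old_subset_vs _ (good_mem_old G h7 hL)
        refine ⟨⟨?_, ?_⟩, ?_⟩
        · rw [← h4]; exact Finset.subset_union_right
        · intro hDB
          rw [h9] at h10
          exact (Finset.mem_sdiff.1 h10).2 (hDB (Finset.mem_sdiff.1 h10).1)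
        · rw [Finset.mem_filter, mem_arcs, mem_Tr]
          exact ⟨⟨h6, h7, h9.le⟩, h9, h3⟩
      -- the contribution of one `B`
      have hB : ∀ B : Finset V, ∑' p : E × List (Finset V × E),
          (if nextT G (j, B, p) = (j + 1, D, none) then XT G C (j, B, p) else 0) ≤
          RR G C j B * pE G B D := by
        intro B
        by_cases hBD : B ⊂ D
        · rw [tsum_eq_sum (s := (arcs G B (D \ B)).filter
            (fun p => vs p.2 = D \ B ∧ endA G p ∈ B))]
          · calc ∑ p ∈ (arcs G B (D \ B)).filter (fun p => vs p.2 = D \ B ∧ endA G p ∈ B),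
                  (if nextT G (j, B, p) = (j + 1, D, none) then XT G C (j, B, p) else 0)
                ≤ ∑ p ∈ (arcs G B (D \ B)).filter (fun p => vs p.2 = D \ B ∧ endA G p ∈ B),
                  RR G C j B * aE G B * ENNReal.ofReal (wt (mm G) p.2) := by
                  refine Finset.sum_le_sum fun p _ => ?_
                  split_ifs
                  · simp only [XT]
                    split_ifs
                    · exact le_rfl
                    · exact zero_le
                  · exact zero_le
              _ = RR G C j B * pE G B D := by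
                  rw [← Finset.mul_sum, ← ENNReal.ofReal_sum_of_nonneg
                    (fun p _ => wt_nonneg (mm_nonneg G) _), pE, if_pos hBD, aE, mul_assoc,
                    ← ENNReal.ofReal_mul (by positivity), qq]
                  congr 2
                  ring
          · intro p hp
            by_contra hcon
            rw [ite_eq_right_iff, Classical.not_imp] at hcon
            exact hp (hne B p hcon.1 hcon.2).2
        · have h0 : ∀ p : E × List (Finset V × E),
              (if nextT G (j, B, p) = (j + 1, D, none) then XT G C (j, B, p) else 0) = 0 := by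
            intro p
            by_contra hcon
            rw [ite_eq_right_iff, Classical.not_imp] at hcon
            exact hBD (hne B p hcon.1 hcon.2).1
          rw [tsum_congr h0, tsum_zero]
          exact zero_le
      calc ∑' τ : TS V E, (if nextT G τ = (j + 1, D, none) then XT G C τ else 0)
          = ∑' (j' : ℕ) (q : Finset V × E × List (Finset V × E)),
            (if nextT G (j', q) = (j + 1, D, none) then XT G C (j', q) else 0) :=
            ENNReal.tsum_prod (f := fun (j' : ℕ) (q : Finset V × E × List (Finset V × E)) =>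
              if nextT G (j', q) = (j + 1, D, none) then XT G C (j', q) else 0)
        _ = ∑' q : Finset V × E × List (Finset V × E),
            (if nextT G (j, q) = (j + 1, D, none) then XT G C (j, q) else 0) := by
            refine tsum_eq_single j fun j' hj' => ?_
            refine ENNReal.tsum_eq_zero.2 fun q => ?_
            rw [if_neg]
            obtain ⟨B, p⟩ := q
            rw [hn]
            exact fun h => hj' h.2.1
        _ = ∑' (B : Finset V) (p : E × List (Finset V × E)),
            (if nextT G (j, B, p) = (j + 1, D, none) then XT G C (j, B, p) else 0) :=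
            ENNReal.tsum_prod (f := fun (B : Finset V) (p : E × List (Finset V × E)) =>
              if nextT G (j, B, p) = (j + 1, D, none) then XT G C (j, B, p) else 0)
        _ ≤ ∑' B, RR G C j B * pE G B D := ENNReal.tsum_le_tsum hB
  · rw [if_neg (by simp), zero_add]
    have hn : ∀ (j' : ℕ) (B : Finset V) (g' : E) (Lt : List (Finset V × E)),
        nextT G (j', B, g', Lt) = (j, D, some (g, L, C')) ↔
          endR G (G.head g') Lt ∉ B ∧ j' = j ∧ B = D ∧ g' = g ∧
            nxt G (G.head g') Lt = (L, C') := by
      intro j' B g' Lt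
      rw [nextT]
      split_ifs with h <;> simp [h]
    have hne : ∀ (j' : ℕ) (B : Finset V) (g' : E) (Lt : List (Finset V × E)),
        nextT G (j', B, g', Lt) = (j, D, some (g, L, C')) → XT G C (j', B, g', Lt) ≠ 0 →
        (g ∈ bd G D ∧ GoodSt G (G.head g) (L, C') ∧ Disjoint (vs L ∪ C') D) ∧
          (j', B, g', Lt) ∈ ((Tr G (vs L ∪ C') (G.head g)).filter
            (fun Lt => nxt G (G.head g) Lt = (L, C'))).image
            (fun Lt => ((j, D, g, Lt) : TS V E)) := by
      intro j' B g' Lt h1 h2
      rw [hn] at h1
      obtain ⟨h3, rfl, rfl, rfl, h4⟩ := h1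
      simp only [XT] at h2
      have h5 : g' ∈ bd G B ∧ Good G (G.head g') Lt ∧ Disjoint (vs Lt) B := by
        by_contra h
        rw [if_neg h] at h2
        exact h2 rfl
      obtain ⟨h6, h7, h8⟩ := h5
      obtain ⟨h9, h10, h11⟩ := nxt_spec G h7
      rw [h4] at h9 h10 h11
      simp only at h10 h11
      refine ⟨⟨h6, h9, ?_⟩, ?_⟩
      · rw [Finset.union_comm, h11, Finset.disjoint_insert_left]
        exact ⟨h3, h8⟩
      · rw [Finset.mem_image]
        refine ⟨Lt, ?_, rfl⟩
        rw [Finset.mem_filter, mem_Tr]
        refine ⟨⟨h7, ?_⟩, h4⟩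
        rw [Finset.union_comm, h11]
        exact Finset.subset_insert _ _
    by_cases hcond : g ∈ bd G D ∧ GoodSt G (G.head g) (L, C') ∧ Disjoint (vs L ∪ C') D
    · rw [XX, if_pos hcond, tsum_eq_sum (s := ((Tr G (vs L ∪ C') (G.head g)).filter
            (fun Lt => nxt G (G.head g) Lt = (L, C'))).image
            (fun Lt => ((j, D, g, Lt) : TS V E)))]
      · rw [Finset.sum_image]
        · calc ∑ Lt ∈ (Tr G (vs L ∪ C') (G.head g)).filter
                (fun Lt => nxt G (G.head g) Lt = (L, C')),
                (if nextT G (j, D, g, Lt) = (j, D, some (g, L, C')) then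
                  XT G C (j, D, g, Lt) else 0)
              ≤ ∑ Lt ∈ (Tr G (vs L ∪ C') (G.head g)).filter
                (fun Lt => nxt G (G.head g) Lt = (L, C')),
                RR G C j D * aE G D * ENNReal.ofReal (wt (mm G) Lt) := by
                refine Finset.sum_le_sum fun Lt _ => ?_
                split_ifs
                · simp only [XT]
                  split_ifs
                  · exact le_rfl
                  · exact zero_le
                · exact zero_le
            _ = RR G C j D * aE G D *
                ENNReal.ofReal (wt (mm G) L * (mm G C' * (bd G C').card)) := by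
                rw [← Finset.mul_sum, ← ENNReal.ofReal_sum_of_nonneg
                    (fun p _ => wt_nonneg (mm_nonneg G) _),
                    balance G hcond.2.1 Finset.subset_union_left Finset.subset_union_right
                    (hb _ ⟨_, hcond.2.1.2.1⟩)]
        · intro a _ b _ hab
          simpa using hab
      · rintro ⟨j', B, g', Lt⟩ hτ
        by_contra hcon
        rw [ite_eq_right_iff, Classical.not_imp] at hcon
        exact hτ (hne j' B g' Lt hcon.1 hcon.2).2
    · have h0 : ∀ τ : TS V E,
          (if nextT G τ = (j, D, some (g, L, C')) then XT G C τ else 0) = 0 := by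
        rintro ⟨j', B, g', Lt⟩
        by_contra hcon
        rw [ite_eq_right_iff, Classical.not_imp] at hcon
        exact hcond (hne j' B g' Lt hcon.1 hcon.2).1
      rw [tsum_congr h0, tsum_zero]
      exact zero_le

end

end Pool.Agent.Lib.MP_3b7186_pr
end

section

/-!
# The probabilistic part
-/

namespace Pool.Agent.Lib.MP_3b7186_pr

open scoped Classical ENNReal
open MeasureTheory

noncomputable section

variable {V E : Type*} (G : MGraph V E)

/-- the law of the process in terms of the chain of clusters -/
structure ChainLaw (x : V) {Ω : Type*} [MeasurableSpace Ω] (P : Measure Ω)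
    (ξ : ℕ → Ω → E) : Prop where
  measurable : ∀ n e, MeasurableSet {ω | ξ n ω = e}
  law : ∀ (n : ℕ) (h : List E) (e : E), Valid G x h →
    P {ω | hist ξ n ω = h ∧ ξ n ω = e} ≤
      P {ω | hist ξ n ω = h} *
        (if e ∈ bd G (cst G x h).2 then ((bd G (cst G x h).2).card : ℝ≥0∞)⁻¹ else 0)
  valid : ∀ (n : ℕ) (h : List E), ¬ Valid G x h → P {ω | hist ξ n ω = h} = 0

variable {G}
variable {x : V} {Ω : Type*} [MeasurableSpace Ω] {P : Measure Ω} {ξ : ℕ → Ω → E}

theorem ChainLaw.measurableSet_hist (hL : ChainLaw G x P ξ) (n : ℕ) (h : List E) :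
    MeasurableSet {ω | hist ξ n ω = h} := by
  induction n generalizing h with
  | zero =>
    simp only [hist]
    exact MeasurableSet.const _
  | succ n ih =>
    cases h with
    | nil => simp [hist]
    | cons e h =>
      simp only [hist, List.cons.injEq]
      exact (hL.measurable n e).inter (ih h)

theorem ChainLaw.tsum_hist [Countable E] (hL : ChainLaw G x P ξ) (n : ℕ) (φ : List E → Prop) :
    ∑' h, (if φ h then P {ω | hist ξ n ω = h} else 0) = P {ω | φ (hist ξ n ω)} := by
  have h1 : {ω | φ (hist ξ n ω)} = ⋃ h : List E, {ω | φ h ∧ hist ξ n ω = h} := by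
    ext ω
    simp
  rw [h1, measure_iUnion]
  · refine tsum_congr fun h => ?_
    by_cases hφ : φ h <;> simp [hφ]
  · intro h h' hne
    rw [Function.onFun, Set.disjoint_left]
    rintro ω ⟨_, h2⟩ ⟨_, h3⟩
    exact hne (h2.symm.trans h3)
  · intro h
    by_cases hφ : φ h
    · simpa [hφ] using hL.measurableSet_hist n h
    · simp [hφ]

theorem ChainLaw.measure_step_le [Countable E] (hL : ChainLaw G x P ξ) (n : ℕ)
    (φ : List E → Prop) (e : E) (c : ℝ≥0∞)
    (hc : ∀ h, φ h → Valid G x h →
      (if e ∈ bd G (cst G x h).2 then ((bd G (cst G x h).2).card : ℝ≥0∞)⁻¹ else 0) ≤ c) :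
    P {ω | φ (hist ξ n ω) ∧ ξ n ω = e} ≤ P {ω | φ (hist ξ n ω)} * c := by
  have h1 : {ω | φ (hist ξ n ω) ∧ ξ n ω = e} ⊆
      ⋃ h : List E, {ω | φ h ∧ hist ξ n ω = h ∧ ξ n ω = e} := by
    intro ω hω
    simp only [Set.mem_iUnion]
    exact ⟨hist ξ n ω, hω.1, rfl, hω.2⟩
  refine (measure_mono h1).trans ((measure_iUnion_le _).trans ?_)
  rw [← hL.tsum_hist n φ, ← ENNReal.tsum_mul_right]
  refine ENNReal.tsum_le_tsum fun h => ?_
  by_cases hφ : φ h
  · rw [if_pos hφ]
    have h2 : {ω | φ h ∧ hist ξ n ω = h ∧ ξ n ω = e} = {ω | hist ξ n ω = h ∧ ξ n ω = e} := by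
      ext ω
      simp [hφ]
    rw [h2]
    by_cases hv : Valid G x h
    · exact (hL.law n h e hv).trans (mul_le_mul_right (hc h hφ hv) _)
    · have h3 : P {ω | hist ξ n ω = h ∧ ξ n ω = e} ≤ P {ω | hist ξ n ω = h} :=
        measure_mono fun ω hω => hω.1
      rw [hL.valid n h hv] at h3
      exact h3.trans zero_le
  · simp [hφ]

/-- almost surely every history is valid -/
theorem ChainLaw.ae_valid [Countable E] (hL : ChainLaw G x P ξ) :
    ∀ᵐ ω ∂P, ∀ n, Valid G x (hist ξ n ω) := by
  rw [ae_all_iff]
  intro n
  rw [ae_iff, ← hL.tsum_hist n (fun h => ¬ Valid G x h)]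
  refine ENNReal.tsum_eq_zero.2 fun h => ?_
  by_cases hv : Valid G x h
  · simp [hv]
  · rw [if_pos hv]
    exact hL.valid n h hv

/-- the rooted process, started at time `N` -/
def TT (G : MGraph V E) (x : V) (ξ : ℕ → Ω → E) (P0 : List (Finset V × E)) (C : Finset V)
    (N k : ℕ) (ω : Ω) : Option (RS V E) := tst G x P0 C k (hist ξ (N + k) ω)

theorem measure_TT_zero_le [IsProbabilityMeasure P] (P0 : List (Finset V × E)) (C : Finset V)
    (N : ℕ) (t : RS V E) :
    P {ω | TT G x ξ P0 C N 0 ω = some t} ≤ if t = (0, C, none) then 1 else 0 := by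
  split_ifs with h
  · exact prob_le_one
  · have : {ω | TT G x ξ P0 C N 0 ω = some t} = ∅ := by
      ext ω
      simp only [Set.mem_empty_iff_false, iff_false]
      intro h1
      rw [Set.mem_ofPred_eq, TT, tst] at h1
      split_ifs at h1 with h2
      simp only [Option.some.injEq] at h1
      exact h h1.symm
    rw [this, measure_empty]

theorem ChainLaw.measure_TT_succ_le [Countable V] [Countable E] (hL : ChainLaw G x P ξ)
    (P0 : List (Finset V × E)) (C : Finset V) (N k : ℕ) (t : RS V E) :
    P {ω | TT G x ξ P0 C N (k + 1) ω = some t} ≤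
      ∑' p : RS V E × E, (if nextT G (toT p.1 p.2) = t then
        P {ω | TT G x ξ P0 C N k ω = some p.1} * kk G p.1 p.2 else 0) := by
  have h1 : {ω | TT G x ξ P0 C N (k + 1) ω = some t} ⊆
      ⋃ p : RS V E × E, {ω | nextT G (toT p.1 p.2) = t ∧
        tst G x P0 C k (hist ξ (N + k) ω) = some p.1 ∧ ξ (N + k) ω = p.2} := by
    intro ω hω
    rw [Set.mem_ofPred_eq, TT, ← add_assoc, hist, tst] at hω
    split_ifs at hω with h2
    rw [Option.map_eq_some_iff] at hω
    obtain ⟨t', ht', h3⟩ := hω
    simp only [Set.mem_iUnion]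
    exact ⟨(t', ξ (N + k) ω), h3, ht', rfl⟩
  refine (measure_mono h1).trans ((measure_iUnion_le _).trans ?_)
  refine ENNReal.tsum_le_tsum fun p => ?_
  by_cases hp : nextT G (toT p.1 p.2) = t
  · rw [if_pos hp]
    have h2 : {ω | nextT G (toT p.1 p.2) = t ∧
        tst G x P0 C k (hist ξ (N + k) ω) = some p.1 ∧ ξ (N + k) ω = p.2} =
        {ω | tst G x P0 C k (hist ξ (N + k) ω) = some p.1 ∧ ξ (N + k) ω = p.2} := by
      ext ω
      simp [hp]
    rw [h2]
    refine hL.measure_step_le (N + k) (fun h => tst G x P0 C k h = some p.1) p.2 _ ?_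
    intro h h3 hv
    have h4 := tst_track G x P0 C k h hv p.1 h3
    rw [h4, cur_toS]
    exact le_rfl
  · rw [if_neg hp]
    have : {ω | nextT G (toT p.1 p.2) = t ∧
        tst G x P0 C k (hist ξ (N + k) ω) = some p.1 ∧ ξ (N + k) ω = p.2} = ∅ := by
      ext ω
      simp [hp]
    rw [this, measure_empty]

theorem ChainLaw.sum_TT_le [Countable V] [Countable E] [IsProbabilityMeasure P]
    (hb : ∀ C : Finset V, C.Nonempty → (bd G C).card ≠ 0) (hL : ChainLaw G x P ξ)
    (P0 : List (Finset V × E)) (C : Finset V) (N n : ℕ) :
    ∀ t : RS V E, ∑ k ∈ Finset.range (n + 1), P {ω | TT G x ξ P0 C N k ω = some t} ≤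
      XX G C t := by
  induction n with
  | zero =>
    intro t
    rw [zero_add, Finset.sum_range_one]
    exact (measure_TT_zero_le P0 C N t).trans (le_self_add.trans (XX_super G hb C t))
  | succ n ih =>
    intro t
    rw [Finset.sum_range_succ']
    refine le_trans ?_ (XX_super G hb C t)
    rw [add_comm]
    refine add_le_add (measure_TT_zero_le P0 C N t) ?_
    calc ∑ k ∈ Finset.range (n + 1), P {ω | TT G x ξ P0 C N (k + 1) ω = some t}
        ≤ ∑ k ∈ Finset.range (n + 1), ∑' p : RS V E × E,
            (if nextT G (toT p.1 p.2) = t then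
              P {ω | TT G x ξ P0 C N k ω = some p.1} * kk G p.1 p.2 else 0) :=
          Finset.sum_le_sum fun k _ => hL.measure_TT_succ_le P0 C N k t
      _ = ∑' p : RS V E × E, ∑ k ∈ Finset.range (n + 1),
            (if nextT G (toT p.1 p.2) = t then
              P {ω | TT G x ξ P0 C N k ω = some p.1} * kk G p.1 p.2 else 0) := by
          rw [Summable.tsum_finsetSum]
          exact fun _ _ => ENNReal.summable
      _ ≤ ∑' p : RS V E × E, (if nextT G (toT p.1 p.2) = t then
              XT G C (toT p.1 p.2) else 0) := by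
          refine ENNReal.tsum_le_tsum fun p => ?_
          by_cases hp : nextT G (toT p.1 p.2) = t
          · simp only [if_pos hp]
            rw [← Finset.sum_mul]
            exact (mul_le_mul_left (ih p.1) _).trans (XX_mul_kk_le G C p.1 p.2)
          · simp [if_neg hp]
      _ ≤ ∑' τ : TS V E, (if nextT G τ = t then XT G C τ else 0) :=
          ENNReal.tsum_comp_le_tsum_of_injective toT_injective
            (fun τ => if nextT G τ = t then XT G C τ else 0)

theorem ChainLaw.tsum_TT_le [Countable V] [Countable E] [IsProbabilityMeasure P]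
    (hb : ∀ C : Finset V, C.Nonempty → (bd G C).card ≠ 0) (hL : ChainLaw G x P ξ)
    (P0 : List (Finset V × E)) (C : Finset V) (N : ℕ) (t : RS V E) :
    ∑' k, P {ω | TT G x ξ P0 C N k ω = some t} ≤ XX G C t := by
  refine ENNReal.tsum_le_of_sum_range_le fun n => ?_
  refine le_trans ?_ (hL.sum_TT_le hb P0 C N n t)
  exact Finset.sum_le_sum_of_subset (Finset.range_mono (Nat.le_succ n))

/-- the probability of infinitely many returns is zero -/
theorem ChainLaw.measure_returns [Countable V] [Countable E] [IsProbabilityMeasure P]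
    (hb : ∀ C : Finset V, C.Nonempty → (bd G C).card ≠ 0)
    (hc : ∀ B : Finset V, B.Nonempty → 0 < cc G B) (hL : ChainLaw G x P ξ)
    (P0 : List (Finset V × E)) {C : Finset V} (hC : C.Nonempty) (N : ℕ) :
    P {ω | ∀ J : ℕ, ∃ k D, TT G x ξ P0 C N k ω = some (J, D, none)} = 0 := by
  refine le_antisymm ?_ zero_le
  rw [← rhoI_eq_zero G hb hc hC]
  refine le_iInf fun J => ?_
  rw [← tsum_RR]
  have h1 : {ω | ∀ J : ℕ, ∃ k D, TT G x ξ P0 C N k ω = some (J, D, none)} ⊆
      ⋃ D : Finset V, ⋃ k : ℕ, {ω | TT G x ξ P0 C N k ω = some (J, D, none)} := by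
    intro ω hω
    obtain ⟨k, D, h⟩ := hω J
    simp only [Set.mem_iUnion]
    exact ⟨D, k, h⟩
  refine (measure_mono h1).trans ((measure_iUnion_le _).trans ?_)
  refine ENNReal.tsum_le_tsum fun D => ?_
  refine (measure_iUnion_le _).trans ?_
  exact hL.tsum_TT_le hb P0 C N (J, D, none)

omit [MeasurableSpace Ω] in
/-- infinitely many visits to the prefix give infinitely many returns of the rooted process -/
theorem returns_of_visits {P0 : List (Finset V × E)} {C : Finset V} {N : ℕ} {ω : Ω}
    (hv : ∀ n, Valid G x (hist ξ n ω)) (h0 : cst G x (hist ξ N ω) = (P0, C))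
    (hlen : ∀ n ≥ N, P0.length ≤ (cst G x (hist ξ n ω)).1.length)
    (hio : ∀ n, ∃ m ≥ n, (cst G x (hist ξ m ω)).1 = P0) (J : ℕ) :
    ∃ k D, TT G x ξ P0 C N k ω = some (J, D, none) := by
  have hsucc : ∀ k t, TT G x ξ P0 C N k ω = some t →
      TT G x ξ P0 C N (k + 1) ω = some (nextT G (toT t (ξ (N + k) ω))) := by
    intro k t ht
    rw [TT, ← add_assoc, hist, tst, if_pos]
    · rw [TT] at ht
      rw [ht]
      rfl
    · have := hlen (N + k + 1) (by omega)
      rwa [hist] at this
  have hsome : ∀ k, ∃ t, TT G x ξ P0 C N k ω = some t := by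
    intro k
    induction k with
    | zero =>
      refine ⟨(0, C, none), ?_⟩
      rw [TT, tst, add_zero, if_pos h0]
    | succ k ih =>
      obtain ⟨t, ht⟩ := ih
      exact ⟨_, hsucc k t ht⟩
  have hroot : ∀ k, (cst G x (hist ξ (N + k) ω)).1 = P0 →
      ∃ j D, TT G x ξ P0 C N k ω = some (j, D, none) := by
    intro k hk
    obtain ⟨t, ht⟩ := hsome k
    have h1 := tst_track G x P0 C k _ (hv (N + k)) t ht
    rcases t with ⟨j, D, _ | ⟨g, L, C'⟩⟩
    · exact ⟨j, D, ht⟩
    · exfalso
      rw [h1, toS] at hk
      have := congrArg List.length hk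
      simp at this
      omega
  induction J with
  | zero =>
    refine ⟨0, C, ?_⟩
    rw [TT, tst, add_zero, if_pos h0]
  | succ J ih =>
    obtain ⟨k, D, hk⟩ := ih
    -- there is a later root visit
    have hex : ∃ m, ∃ j D', TT G x ξ P0 C N (k + 1 + m) ω = some (j, D', none) := by
      obtain ⟨n, hn, hn'⟩ := hio (N + k + 1)
      obtain ⟨m, rfl⟩ := Nat.exists_eq_add_of_le hn
      have : N + k + 1 + m = N + (k + 1 + m) := by omega
      rw [this] at hn'
      exact ⟨m, hroot _ hn'⟩
    -- take the first one
    have hmin := fun m (h : m < Nat.find hex) => Nat.find_min hex h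
    obtain ⟨j, D', hj⟩ := Nat.find_spec hex
    have hcount : ∀ m, m ≤ Nat.find hex → ∃ t : RS V E,
        TT G x ξ P0 C N (k + m) ω = some t ∧ t.1 = J := by
      intro m
      induction m with
      | zero => exact fun _ => ⟨_, hk, rfl⟩
      | succ m ihm =>
        intro hm
        obtain ⟨t, ht, htJ⟩ := ihm (by omega)
        have h1 := hsucc _ _ ht
        refine ⟨_, h1, ?_⟩
        have h2 := hmin m (by omega)
        have h3 : k + 1 + m = k + m + 1 := by omega
        rw [h3] at h2
        rw [h1] at h2
        rcases hτ : toT t (ξ (N + (k + m)) ω) with ⟨j', B, g, L⟩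
        have hj' : j' = J := by
          rcases t with ⟨j'', D'', _ | ⟨g', L', C''⟩⟩ <;>
          · simp only [toT, Prod.mk.injEq] at hτ
            simp only at htJ
            omega
        rw [hτ, nextT] at h2
        rw [nextT]
        split_ifs with h4
        · exfalso
          rw [if_pos h4] at h2
          exact h2 ⟨_, _, rfl⟩
        · exact hj'
    obtain ⟨t, ht, htJ⟩ := hcount _ le_rfl
    have h1 := hsucc _ _ ht
    have h3 : k + 1 + Nat.find hex = k + Nat.find hex + 1 := by omega
    rw [h3] at hj
    refine ⟨k + Nat.find hex + 1, D', ?_⟩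
    rw [hj]
    rw [h1] at hj
    simp only [Option.some.injEq] at hj
    rcases hτ : toT t (ξ (N + (k + Nat.find hex)) ω) with ⟨j', B, g, L⟩
    have hj' : j' = J := by
      rcases t with ⟨j'', D'', _ | ⟨g', L', C''⟩⟩ <;>
      · simp only [toT, Prod.mk.injEq] at hτ
        simp only at htJ
        omega
    rw [hτ, nextT] at hj
    split_ifs at hj with h4
    · simp only [Prod.mk.injEq] at hj
      rw [← hj.1, hj']
    · simp at hj

/-- The chain of clusters stabilises: for every `m` its first `m` links are eventually defined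
and constant. -/
theorem ChainLaw.ae_stabilise [Countable V] [Countable E] [IsProbabilityMeasure P]
    (hb : ∀ C : Finset V, C.Nonempty → (bd G C).card ≠ 0)
    (hc : ∀ B : Finset V, B.Nonempty → 0 < cc G B) (hL : ChainLaw G x P ξ) :
    ∀ᵐ ω ∂P, (∀ n, Valid G x (hist ξ n ω)) ∧
      ∀ m : ℕ, ∃ N, ∃ P0 : List (Finset V × E), P0.length = m ∧
        ∀ n ≥ N, P0 <:+ (cst G x (hist ξ n ω)).1 := by
  have h1 : ∀ᵐ ω ∂P, ∀ (N : ℕ) (P0 : List (Finset V × E)) (C : Finset V), C.Nonempty →
      ¬ ∀ J : ℕ, ∃ k D, TT G x ξ P0 C N k ω = some (J, D, none) := by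
    rw [ae_all_iff]
    intro N
    rw [ae_all_iff]
    intro P0
    rw [ae_all_iff]
    intro C
    by_cases hC : C.Nonempty
    · rw [ae_iff]
      simp only [hC, true_imp_iff, not_not]
      exact hL.measure_returns hb hc P0 hC N
    · simp [hC]
  filter_upwards [h1, hL.ae_valid] with ω hω hv
  refine ⟨hv, ?_⟩
  -- persistence of a suffix
  have hpers : ∀ (P0 : List (Finset V × E)) (N : ℕ), P0 <:+ (cst G x (hist ξ N ω)).1 →
      (∀ n ≥ N, P0.length ≤ (cst G x (hist ξ n ω)).1.length) →
      ∀ n ≥ N, P0 <:+ (cst G x (hist ξ n ω)).1 := by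
    intro P0 N hN hlen n hn
    induction n, hn using Nat.le_induction with
    | base => exact hN
    | succ n hn ih =>
      have hvn := hv (n + 1)
      rw [hist] at hvn
      have hl := hlen (n + 1) (by omega)
      rw [hist] at hl ⊢
      rcases cst_cons_fst G x hvn with h | h
      · rw [h]
        exact ih.trans (List.suffix_cons _ _)
      · exact List.suffix_of_suffix_length_le ih h hl
  have hlen : ∀ m : ℕ, ∃ N, ∀ n ≥ N, m ≤ (cst G x (hist ξ n ω)).1.length := by
    intro m
    induction m with
    | zero => exact ⟨0, fun n _ => Nat.zero_le _⟩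
    | succ m ih =>
      by_contra hcon
      push Not at hcon
      obtain ⟨N, hN⟩ := ih
      obtain ⟨N1, hN1, hN1'⟩ := hcon N
      set P0 := (cst G x (hist ξ N1 ω)).1 with hP0
      set C := (cst G x (hist ξ N1 ω)).2 with hC
      have hP0len : P0.length = m := le_antisymm (by omega) (hN N1 hN1)
      have hlen' : ∀ n ≥ N1, P0.length ≤ (cst G x (hist ξ n ω)).1.length := by
        intro n hn
        rw [hP0len]
        exact hN n (le_trans hN1 hn)
      have hsuf := hpers P0 N1 List.suffix_rfl hlen'
      have hCne : C.Nonempty := ⟨_, (goodSt_cst G x (hv N1)).2.1⟩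
      refine hω N1 P0 C hCne ?_
      refine returns_of_visits hv rfl hlen' ?_
      intro n
      obtain ⟨n', hn', hn''⟩ := hcon (max n N1)
      refine ⟨n', le_trans (le_max_left _ _) hn', ?_⟩
      have hs := hsuf n' (le_trans (le_max_right _ _) hn')
      exact (hs.eq_of_length (le_antisymm hs.length_le (by omega))).symm
  intro m
  obtain ⟨N, hN⟩ := hlen m
  refine ⟨N, (cst G x (hist ξ N ω)).1.drop ((cst G x (hist ξ N ω)).1.length - m), ?_, ?_⟩
  · rw [List.length_drop]
    have := hN N le_rfl
    omega
  · have hlen2 : ((cst G x (hist ξ N ω)).1.drop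
        ((cst G x (hist ξ N ω)).1.length - m)).length = m := by
      rw [List.length_drop]
      have := hN N le_rfl
      omega
    refine hpers _ N (List.drop_suffix _ _) ?_
    rw [hlen2]
    exact hN

end

end Pool.Agent.Lib.MP_3b7186_pr
end

section

/-!
# The states of the walk as defined in the problem and the chains of clusters
-/

namespace Pool.Agent.Lib.MP_3b7186_pr

open scoped Classical ENNReal
open MeasureTheory

noncomputable section

variable {V E : Type*} (G : MGraph V E)

/-- correspondence between a state of the walk and a chain of clusters -/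
structure Corr (s : State V E) (c : List (Finset V × E) × Finset V) : Prop where
  path : s.path = (c.1.map Prod.snd).reverse
  pos : s.pos ∈ c.2
  same : ∀ u v, s.same u v ↔ (u = v ∨ (u ∈ c.2 ∧ v ∈ c.2) ∨ ∃ r ∈ c.1, u ∈ r.1 ∧ v ∈ r.1)

theorem link_unique {v : V} {Y : List (Finset V × E)} (hg : Good G v Y) {r r' : Finset V × E}
    (hr : r ∈ Y) (hr' : r' ∈ Y) {z : V} (hz : z ∈ r.1) (hz' : z ∈ r'.1) : r = r' := by
  induction Y with
  | nil => simp at hr
  | cons s Y ih =>
    rw [List.mem_cons] at hr hr'
    have hd := hg.2.2.2.2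
    rcases hr with rfl | hr <;> rcases hr' with rfl | hr'
    · rfl
    · exfalso
      exact Finset.disjoint_left.1 hd hz (mem_vs.2 ⟨r', hr', hz'⟩)
    · exfalso
      exact Finset.disjoint_left.1 hd hz' (mem_vs.2 ⟨r, hr, hz⟩)
    · exact ih hg.1 hr hr'

theorem Corr.same_link {x : V} {s : State V E} {c : List (Finset V × E) × Finset V}
    (h : Corr s c) (hg : GoodSt G x c) {r : Finset V × E} (hr : r ∈ c.1) {u : V}
    (hu : u ∈ r.1) (z : V) : s.same u z ↔ z ∈ r.1 := by
  rw [h.same]
  constructor
  · rintro (rfl | ⟨h1, _⟩ | ⟨r', hr', h1, h2⟩)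
    · exact hu
    · exfalso
      exact Finset.disjoint_left.1 hg.2.2 h1 (mem_vs.2 ⟨r, hr, hu⟩)
    · rw [link_unique G hg.1 hr hr' hu h1]
      exact h2
  · intro hz
    exact Or.inr (Or.inr ⟨r, hr, hu, hz⟩)

theorem Corr.same_cur {x : V} {s : State V E} {c : List (Finset V × E) × Finset V}
    (h : Corr s c) (hg : GoodSt G x c) {u : V} (hu : u ∈ c.2) (z : V) :
    s.same z u ↔ z ∈ c.2 := by
  rw [h.same]
  constructor
  · rintro (rfl | ⟨h1, _⟩ | ⟨r', hr', _, h2⟩)
    · exact hu
    · exact h1
    · exfalso
      exact Finset.disjoint_left.1 hg.2.2 hu (mem_vs.2 ⟨r', hr', h2⟩)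
  · intro hz
    exact Or.inr (Or.inl ⟨hz, hu⟩)

theorem Corr.same_cur' {x : V} {s : State V E} {c : List (Finset V × E) × Finset V}
    (h : Corr s c) (hg : GoodSt G x c) {u : V} (hu : u ∈ c.2) (z : V) :
    s.same u z ↔ z ∈ c.2 := by
  rw [h.same]
  constructor
  · rintro (rfl | ⟨_, h1⟩ | ⟨r', hr', h2, _⟩)
    · exact hu
    · exact h1
    · exfalso
      exact Finset.disjoint_left.1 hg.2.2 hu (mem_vs.2 ⟨r', hr', h2⟩)
  · intro hz
    exact Or.inr (Or.inl ⟨hu, hz⟩)

theorem Corr.out_eq {x : V} {s : State V E} {c : List (Finset V × E) × Finset V}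
    (h : Corr s c) (hg : GoodSt G x c) : G.out s = (bd G c.2 : Set E) := by
  ext e
  rw [MGraph.out, Set.mem_ofPred_eq, Finset.mem_coe, mem_bd, h.same_cur G hg h.pos,
    h.same_cur G hg h.pos]

theorem takeWhile_dropWhile_of_split {α : Type*} (p : α → Bool) (a : List α) (b : α)
    (c : List α) (ha : ∀ y ∈ a, p y = true) (hb : p b = false) :
    (a ++ b :: c).takeWhile p = a ∧ (a ++ b :: c).dropWhile p = b :: c := by
  induction a with
  | nil => simp [hb]
  | cons y a ih =>
    have := ih (fun z hz => ha z (by simp [hz]))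
    have hy := ha y (by simp)
    simp [hy, this]

theorem Corr.step {x : V} {s : State V E} {Y : List (Finset V × E)} {C : Finset V}
    (h : Corr s (Y, C)) (hg : GoodSt G x (Y, C)) {e : E} (he : e ∈ bd G C) :
    Corr (G.step s e) (nxt G x ((C, e) :: Y)) := by
  have hgood : Good G x ((C, e) :: Y) := by
    obtain ⟨g1, g2, g3⟩ := hg
    rw [mem_bd] at he
    exact ⟨g1, g2, he.1, he.2, g3⟩
  rw [mem_bd] at he
  have hpath := h.path
  simp only at hpath
  -- when the head lies on the path
  have hcond : (∃ f ∈ s.path, s.same (G.tail f) (G.head e)) ↔ G.head e ∈ vs Y := by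
    rw [hpath, mem_vs]
    constructor
    · rintro ⟨f, hf, hs⟩
      rw [List.mem_reverse, List.mem_map] at hf
      obtain ⟨r, hr, rfl⟩ := hf
      rw [h.same_link G hg hr (tail_mem_vs G hg.1 hr).1] at hs
      exact ⟨r, hr, hs⟩
    · rintro ⟨r, hr, hr'⟩
      refine ⟨r.2, ?_, ?_⟩
      · rw [List.mem_reverse, List.mem_map]
        exact ⟨r, hr, rfl⟩
      · rw [h.same_link G hg hr (tail_mem_vs G hg.1 hr).1]
        exact hr'
  by_cases hm : G.head e ∈ vs Y
  · rw [MGraph.step, if_pos (hcond.2 hm)]
    obtain ⟨X, r, Y', hY, hr, hX⟩ := exists_split hm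
    subst hY
    have hgY := hg.1
    simp only at hgY
    -- the cut of the path
    have hcut := takeWhile_dropWhile_of_split
      (fun f => decide (¬ s.same (G.tail f) (G.head e))) ((Y'.map Prod.snd).reverse) r.2
      ((X.map Prod.snd).reverse) (by
        intro f hf
        rw [List.mem_reverse, List.mem_map] at hf
        obtain ⟨r', hr', rfl⟩ := hf
        have hr'' : r' ∈ X ++ r :: Y' := by simp [hr']
        simp only [decide_eq_true_eq]
        rw [h.same_link G hg hr'' (tail_mem_vs G hgY hr'').1]
        intro hz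
        rw [good_append, good_cons] at hgY
        exact Finset.disjoint_left.1 hgY.1.2.2.2.2 hr (mem_vs.2 ⟨r', hr', hz⟩)) (by
        have hr'' : r ∈ X ++ r :: Y' := by simp
        simp only [decide_eq_false_iff_not, not_not]
        rw [h.same_link G hg hr'' (tail_mem_vs G hgY hr'').1]
        exact hr)
    have hpath' : s.path = (Y'.map Prod.snd).reverse ++ r.2 :: (X.map Prod.snd).reverse := by
      rw [hpath]; simp
    rw [← hpath'] at hcut
    rw [hcut.1, hcut.2]
    have hsp : (C, e) :: (X ++ r :: Y') = ((C, e) :: X) ++ r :: Y' := rfl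
    rw [hsp] at hgood ⊢
    rw [nxt_of_split G hgood hr]
    -- membership in the contracted cycle
    have hcyc : ∀ u, (∃ f ∈ r.2 :: (X.map Prod.snd).reverse ++ [e], s.same (G.tail f) u) ↔
        u ∈ vs ((C, e) :: X) ∪ r.1 := by
      intro u
      rw [vs_cons, Finset.mem_union, Finset.mem_union]
      constructor
      · rintro ⟨f, hf, hs⟩
        rw [List.mem_append, List.mem_cons, List.mem_reverse, List.mem_map,
          List.mem_singleton] at hf
        rcases hf with (rfl | ⟨r', hr', rfl⟩) | rfl
        · have hr'' : r ∈ X ++ r :: Y' := by simp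
          rw [h.same_link G hg hr'' (tail_mem_vs G hgY hr'').1] at hs
          exact Or.inr hs
        · have hr'' : r' ∈ X ++ r :: Y' := by simp [hr']
          rw [h.same_link G hg hr'' (tail_mem_vs G hgY hr'').1] at hs
          exact Or.inl (Or.inr (mem_vs.2 ⟨r', hr', hs⟩))
        · rw [h.same_cur' G hg he.1] at hs
          exact Or.inl (Or.inl hs)
      · rintro ((h1 | h1) | h1)
        · refine ⟨e, by simp, ?_⟩
          rw [h.same_cur' G hg he.1]
          exact h1
        · obtain ⟨r', hr', hz⟩ := mem_vs.1 h1
          have hr'' : r' ∈ X ++ r :: Y' := by simp [hr']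
          refine ⟨r'.2, ?_, ?_⟩
          · rw [List.mem_append, List.mem_cons, List.mem_reverse, List.mem_map]
            exact Or.inl (Or.inr ⟨r', hr', rfl⟩)
          · rw [h.same_link G hg hr'' (tail_mem_vs G hgY hr'').1]
            exact hz
        · have hr'' : r ∈ X ++ r :: Y' := by simp
          refine ⟨r.2, by simp, ?_⟩
          rw [h.same_link G hg hr'' (tail_mem_vs G hgY hr'').1]
          exact h1
    refine ⟨rfl, ?_, ?_⟩
    · simp only
      exact Finset.mem_union_right _ hr
    · intro u v
      simp only
      rw [hcyc, hcyc, h.same]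
      simp only
      constructor
      · rintro ((rfl | ⟨h1, h2⟩ | ⟨r', hr', h1, h2⟩) | h1)
        · exact Or.inl rfl
        · refine Or.inr (Or.inl ⟨?_, ?_⟩)
          · rw [vs_cons]; exact Finset.mem_union_left _ (Finset.mem_union_left _ h1)
          · rw [vs_cons]; exact Finset.mem_union_left _ (Finset.mem_union_left _ h2)
        · rw [List.mem_append, List.mem_cons] at hr'
          rcases hr' with hr' | rfl | hr'
          · refine Or.inr (Or.inl ⟨?_, ?_⟩)
            · rw [vs_cons]
              exact Finset.mem_union_left _ (Finset.mem_union_right _ (mem_vs.2 ⟨r', hr', h1⟩))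
            · rw [vs_cons]
              exact Finset.mem_union_left _ (Finset.mem_union_right _ (mem_vs.2 ⟨r', hr', h2⟩))
          · exact Or.inr (Or.inl ⟨Finset.mem_union_right _ h1, Finset.mem_union_right _ h2⟩)
          · exact Or.inr (Or.inr ⟨r', hr', h1, h2⟩)
        · exact Or.inr (Or.inl h1)
      · rintro (rfl | h1 | ⟨r', hr', h1, h2⟩)
        · exact Or.inl (Or.inl rfl)
        · exact Or.inr h1
        · exact Or.inl (Or.inr (Or.inr ⟨r', by simp [hr'], h1, h2⟩))
  · rw [MGraph.step, if_neg (fun h => hm (hcond.1 h))]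
    rw [nxt_of_not_mem]
    · refine ⟨?_, ?_, ?_⟩
      · simp [hpath]
      · simp
      · intro u v
        simp only [endR_cons, Finset.mem_singleton]
        rw [h.same]
        simp only [List.mem_cons]
        constructor
        · rintro (rfl | h1 | ⟨r', hr', h1⟩)
          · exact Or.inl rfl
          · exact Or.inr (Or.inr ⟨(C, e), Or.inl rfl, h1⟩)
          · exact Or.inr (Or.inr ⟨r', Or.inr hr', h1⟩)
        · rintro (rfl | ⟨rfl, rfl⟩ | ⟨r', (rfl | hr'), h1⟩)
          · exact Or.inl rfl
          · exact Or.inl rfl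
          · exact Or.inr (Or.inl h1)
          · exact Or.inr (Or.inr ⟨r', hr', h1⟩)
    · rw [endR_cons, vs_cons, Finset.mem_union, not_or]
      exact ⟨he.2, hm⟩

theorem corr_stateOf (x : V) {h : List E} (hv : Valid G x h) :
    Corr (G.stateOf x h) (cst G x h) := by
  induction h with
  | nil =>
    refine ⟨rfl, by simp [cst, MGraph.stateOf, State.start], ?_⟩
    intro u v
    simp only [cst, MGraph.stateOf, State.start, Finset.mem_singleton, List.not_mem_nil,
      false_and, exists_false, or_false]
    constructor
    · exact fun h => Or.inl h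
    · rintro (h | ⟨rfl, rfl⟩)
      · exact h
      · rfl
  | cons e h ih =>
    rw [MGraph.stateOf, cst]
    exact Corr.step G (x := x) (Y := (cst G x h).1) (C := (cst G x h).2) (ih hv.1)
      (goodSt_cst G x hv.1) hv.2

theorem out_stateOf (x : V) {h : List E} (hv : Valid G x h) :
    G.out (G.stateOf x h) = (bd G (cst G x h).2 : Set E) :=
  (corr_stateOf G x hv).out_eq G (goodSt_cst G x hv)

theorem path_stateOf (x : V) {h : List E} (hv : Valid G x h) :
    (G.stateOf x h).path = ((cst G x h).1.map Prod.snd).reverse :=
  (corr_stateOf G x hv).path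

variable {G}

/-- the law of the walk, in terms of the chain of clusters -/
theorem IsLCRW.chainLaw {x : V} {Ω : Type*} [MeasurableSpace Ω] {P : Measure Ω}
    {ξ : ℕ → Ω → E} (hL : IsLCRW G x P ξ) : ChainLaw G x P ξ := by
  refine ⟨hL.measurable, ?_, ?_⟩
  · intro n h e hv
    rw [hL.law n h e, out_stateOf G x hv, Set.ncard_coe_finset]
    simp
  · intro n h
    induction n generalizing h with
    | zero =>
      intro hv
      have : {ω | hist ξ 0 ω = h} = ∅ := by
        ext ω
        simp only [hist, Set.mem_ofPred_eq, Set.mem_empty_iff_false, iff_false]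
        rintro rfl
        exact hv trivial
      rw [this, measure_empty]
    | succ n ih =>
      intro hv
      cases h with
      | nil => exact absurd trivial hv
      | cons e h =>
        have h1 : {ω | hist ξ (n + 1) ω = e :: h} = {ω | hist ξ n ω = h ∧ ξ n ω = e} := by
          ext ω
          simp only [hist, List.cons.injEq, Set.mem_ofPred_eq]
          exact and_comm
        rw [h1]
        by_cases hvh : Valid G x h
        · have he : e ∉ bd G (cst G x h).2 := fun he => hv ⟨hvh, he⟩
          rw [hL.law n h e, out_stateOf G x hvh]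
          simp [he]
        · have h2 : P {ω | hist ξ n ω = h ∧ ξ n ω = e} ≤ P {ω | hist ξ n ω = h} :=
            measure_mono fun ω hω => hω.1
          rw [ih h hvh] at h2
          exact le_antisymm h2 zero_le

/-- The main theorem. -/
theorem ae_converges {x : V} [Infinite V] (hconn : G.Connected) (htr : G.SRWTransient)
    {Ω : Type*} [MeasurableSpace Ω] {P : Measure Ω} [IsProbabilityMeasure P]
    {ξ : ℕ → Ω → E} (hL : IsLCRW G x P ξ) :
    ∀ᵐ ω ∂P, ConvergesToInfinitePath fun n => (G.stateOf x (hist ξ n ω)).path := by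
  have := countable_vertices G hconn
  have := countable_edges G hconn
  filter_upwards [hL.chainLaw.ae_stabilise (bd_card_ne_zero G hconn)
    (fun B hB => cc_pos G hconn htr hB)] with ω hω
  obtain ⟨hv, hω⟩ := hω
  intro m
  obtain ⟨N, P0, hlen, hsuf⟩ := hω m
  have key : ∀ n ≥ N, m ≤ (G.stateOf x (hist ξ n ω)).path.length ∧
      (G.stateOf x (hist ξ n ω)).path.take m = (P0.map Prod.snd).reverse := by
    intro n hn
    obtain ⟨X, hX⟩ := hsuf n hn
    rw [path_stateOf G x (hv n), ← hX]
    have hlen' : ((P0.map Prod.snd).reverse).length = m := by simp [hlen]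
    rw [List.map_append, List.reverse_append]
    constructor
    · simp [hlen]
    · rw [← hlen', List.take_left]
  refine ⟨N, fun n hn => ⟨(key n hn).1, ?_⟩⟩
  rw [(key n hn).2, (key N le_rfl).2]

end

end Pool.Agent.Lib.MP_3b7186_pr
end

section

/-!
# Existence of the loop contracting random walk
-/

namespace Pool.Agent.Lib.MP_3b7186_pr

open scoped Classical ENNReal
open MeasureTheory

noncomputable section

universe v

variable {V : Type*} {E : Type v} (G : MGraph V E)

/-- the law of the next edge after the history `h` -/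
def nextLaw [Nonempty E] [MeasurableSpace E] (x : V) (h : List E) : Measure E :=
  if hS : (bd G (cst G x h).2).Nonempty then (PMF.uniformOfFinset _ hS).toMeasure
  else Measure.dirac (Classical.arbitrary E)

instance [Nonempty E] [MeasurableSpace E] (x : V) (h : List E) :
    IsProbabilityMeasure (nextLaw G x h) := by
  rw [nextLaw]
  split_ifs
  · infer_instance
  · infer_instance

/-- the edges chosen when `ω h` is the edge chosen after the history `h` -/
def choice (n : ℕ) (ω : List E → E) : E := ω (hist2 n ω)
where
  /-- the history of the first `n` choices -/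
  hist2 : ℕ → (List E → E) → List E
    | 0, _ => []
    | n + 1, ω => ω (hist2 n ω) :: hist2 n ω

theorem hist_choice (n : ℕ) (ω : List E → E) : hist choice n ω = choice.hist2 n ω := by
  induction n with
  | zero => rfl
  | succ n ih => rw [hist, ih]; rfl

/-- indices and values fixed by a history -/
def idx : List E → Finset (List E)
  | [] => ∅
  | _ :: h => insert h (idx h)

def vals : List E → List E → Set E
  | [] => fun _ => Set.univ
  | e :: h => Function.update (vals h) h {e}

theorem length_lt_of_mem_idx {h h' : List E} (hh : h' ∈ idx h) : h'.length < h.length := by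
  induction h with
  | nil => simp [idx] at hh
  | cons e h ih =>
    rw [idx, Finset.mem_insert] at hh
    rcases hh with rfl | hh
    · simp
    · have := ih hh
      rw [List.length_cons]
      omega

theorem not_mem_idx (h : List E) : h ∉ idx h := fun hh => lt_irrefl _ (length_lt_of_mem_idx hh)

theorem hist_eq_iff (h : List E) (ω : List E → E) :
    hist choice h.length ω = h ↔ ω ∈ Set.pi (idx h) (vals h) := by
  induction h with
  | nil => simp [hist, idx]
  | cons e h ih =>
    rw [List.length_cons, hist, List.cons.injEq, ih, idx, Finset.coe_insert, Set.insert_pi]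
    constructor
    · rintro ⟨h1, h2⟩
      have h3 := ih.2 h2
      refine ⟨?_, ?_⟩
      · rw [vals, Function.update_self, Set.mem_preimage, Set.mem_singleton_iff, ← h1, choice,
          ← hist_choice, h3]
      · intro i hi
        have hne : i ≠ h := by
          rintro rfl
          exact not_mem_idx i hi
        rw [vals, Function.update_of_ne hne]
        exact h2 i hi
    · rintro ⟨h1, h2⟩
      have h4 : ω ∈ Set.pi (idx h) (vals h) := by
        intro i hi
        have hne : i ≠ h := by
          rintro rfl
          exact not_mem_idx i hi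
        have := h2 i hi
        rwa [vals, Function.update_of_ne hne] at this
      have h3 := ih.2 h4
      refine ⟨?_, h4⟩
      rw [vals, Function.update_self, Set.mem_preimage, Set.mem_singleton_iff] at h1
      rw [choice, ← hist_choice, h3]
      exact h1

theorem length_hist {Ω : Type*} (ξ : ℕ → Ω → E) (n : ℕ) (ω : Ω) :
    (hist ξ n ω).length = n := by
  induction n with
  | zero => rfl
  | succ n ih => rw [hist, List.length_cons, ih]

/-- A loop contracting random walk exists. -/
theorem exists_isLCRW {V : Type*} {E : Type v} (G : MGraph V E) [Infinite V]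
    (hconn : G.Connected) (x : V) :
    ∃ (Ω : Type v) (_ : MeasurableSpace Ω) (P : Measure Ω) (ξ : ℕ → Ω → E),
      IsProbabilityMeasure P ∧ IsLCRW G x P ξ := by
  have hb := bd_card_ne_zero G hconn
  have hE : Nonempty E := by
    obtain ⟨e, _⟩ := Finset.card_ne_zero.1 (hb {x} (Finset.singleton_nonempty x))
    exact ⟨e⟩
  have := countable_edges G hconn
  let mE : MeasurableSpace E := ⊤
  have hsing : MeasurableSingletonClass E := ⟨fun _ => trivial⟩
  refine ⟨List E → E, MeasurableSpace.pi,
    Measure.infinitePi (fun h : List E => nextLaw G x h), choice, inferInstance, ?_⟩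
  set P : Measure (List E → E) := Measure.infinitePi (fun h : List E => nextLaw G x h) with hP
  have hset : ∀ h : List E, {ω : List E → E | hist choice h.length ω = h} =
      Set.pi (idx h) (vals h) := by
    intro h
    ext ω
    rw [Set.mem_ofPred_eq, hist_eq_iff]
  have hmeas : ∀ n e, MeasurableSet {ω : List E → E | choice n ω = e} := by
    intro n e
    have h1 : {ω : List E → E | choice n ω = e} =
        ⋃ h : List E, {ω : List E → E | hist choice h.length ω = h ∧ h.length = n ∧
          ω h = e} := by
      ext ω
      simp only [Set.mem_ofPred_eq, Set.mem_iUnion]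
      constructor
      · intro h
        refine ⟨hist choice n ω, ?_, length_hist _ _ _, ?_⟩
        · rw [length_hist]
        · rw [hist_choice]
          exact h
      · rintro ⟨h, h1, rfl, h2⟩
        rw [choice, ← hist_choice, h1]
        exact h2
    rw [h1]
    refine MeasurableSet.iUnion fun h => ?_
    have h2 : {ω : List E → E | hist choice h.length ω = h ∧ h.length = n ∧ ω h = e} =
        {ω : List E → E | hist choice h.length ω = h} ∩
          ({ω | h.length = n} ∩ (fun ω : List E → E => ω h) ⁻¹' {e}) := by
      ext ω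
      simp
    rw [h2, hset]
    refine MeasurableSet.inter ?_ (MeasurableSet.inter (MeasurableSet.const _) ?_)
    · exact MeasurableSet.pi (Finset.countable_toSet _) fun _ _ => trivial
    · exact measurable_pi_apply h trivial
  -- probability of a history
  have hprob : ∀ h : List E, P {ω | hist choice h.length ω = h} =
      ∏ i ∈ idx h, nextLaw G x i (vals h i) := by
    intro h
    rw [hset, hP, Measure.infinitePi_pi]
    intro i _
    trivial
  have hcons : ∀ (h : List E) (e : E), P {ω | hist choice (e :: h).length ω = e :: h} =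
      P {ω | hist choice h.length ω = h} * nextLaw G x h {e} := by
    intro h e
    rw [hprob, hprob, idx, Finset.prod_insert (not_mem_idx h), mul_comm]
    congr 1
    · refine Finset.prod_congr rfl fun i hi => ?_
      have hne : i ≠ h := by
        rintro rfl
        exact not_mem_idx i hi
      rw [vals, Function.update_of_ne hne]
    · rw [vals, Function.update_self]
  have hnext : ∀ h, Valid G x h → ∀ e, nextLaw G x h {e} =
      if e ∈ bd G (cst G x h).2 then ((bd G (cst G x h).2).card : ℝ≥0∞)⁻¹ else 0 := by
    intro h hv e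
    have hne : (bd G (cst G x h).2).Nonempty :=
      Finset.card_ne_zero.1 (hb _ ⟨_, (goodSt_cst G x hv).2.1⟩)
    rw [nextLaw, dif_pos hne, PMF.toMeasure_apply_singleton _ _ (measurableSet_singleton e),
      PMF.uniformOfFinset_apply]
  have hinvalid : ∀ h, ¬ Valid G x h → P {ω | hist choice h.length ω = h} = 0 := by
    intro h
    induction h with
    | nil => exact fun hv => absurd trivial hv
    | cons e h ih =>
      intro hv
      rw [hcons]
      by_cases hvh : Valid G x h
      · have he : e ∉ bd G (cst G x h).2 := fun he => hv ⟨hvh, he⟩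
        rw [hnext h hvh, if_neg he, mul_zero]
      · rw [ih hvh, zero_mul]
  refine ⟨hmeas, ?_⟩
  intro n h e
  by_cases hn : n = h.length
  · subst hn
    have h1 : {ω : List E → E | hist choice h.length ω = h ∧ choice h.length ω = e} =
        {ω | hist choice (e :: h).length ω = e :: h} := by
      ext ω
      simp only [List.length_cons, hist, List.cons.injEq, Set.mem_ofPred_eq]
      exact and_comm
    rw [h1, hcons]
    by_cases hv : Valid G x h
    · rw [hnext h hv, out_stateOf G x hv, Set.ncard_coe_finset]
      simp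
    · rw [hinvalid h hv, zero_mul, zero_mul]
  · have h0 : {ω : List E → E | hist choice n ω = h} = ∅ := by
      ext ω
      simp only [Set.mem_ofPred_eq, Set.mem_empty_iff_false, iff_false]
      rintro rfl
      exact hn (length_hist _ _ _).symm
    have h1 : {ω : List E → E | hist choice n ω = h ∧ choice n ω = e} = ∅ := by
      ext ω
      simp only [Set.mem_ofPred_eq, Set.mem_empty_iff_false, iff_false, not_and]
      rintro rfl
      exact absurd (length_hist _ _ _).symm hn
    rw [h0, h1, measure_empty, zero_mul]

end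

end Pool.Agent.Lib.MP_3b7186_pr
end
end
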