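import Pool.Agent.Lib.MP_3b7186_pr.Weight

section

/-!
# Escape weights and return weights of a finite root
-/

namespace Pool.Agent.Lib.MP_3b7186_pr

open scoped Classical

noncomputable section

variable {V E : Type*} (G : MGraph V E)

/-- the end of an arc -/
def endA (p : E × List (Finset V × E)) : V := endR G (G.head p.1) p.2

/-- arcs starting with an edge of `F`, with clusters in `U` -/
def arcsF (F : Finset E) (U : Finset V) : Finset (E × List (Finset V × E)) :=
  F.biUnion fun f => (Tr G U (G.head f)).image fun L => (f, L)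

theorem mem_arcsF {F : Finset E} {U : Finset V} {p : E × List (Finset V × E)} :
    p ∈ arcsF G F U ↔ p.1 ∈ F ∧ p.2 ∈ Tr G U (G.head p.1) := by
  obtain ⟨f, L⟩ := p
  simp only [arcsF, Finset.mem_biUnion, Finset.mem_image, Prod.mk.injEq]
  constructor
  · rintro ⟨g, hg, L', hL', rfl, rfl⟩
    exact ⟨hg, hL'⟩
  · rintro ⟨h1, h2⟩
    exact ⟨f, h1, L, h2, rfl, rfl⟩

theorem sum_arcsF (F : Finset E) (U : Finset V) (H : E × List (Finset V × E) → ℝ) :
    ∑ p ∈ arcsF G F U, H p = ∑ f ∈ F, ∑ L ∈ Tr G U (G.head f), H (f, L) :=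
  Finset.sum_finset_product _ _ _ (fun _ => mem_arcsF G)

theorem sum_arcsF_filter (F : Finset E) (U : Finset V) (H : E × List (Finset V × E) → ℝ)
    (P : V → Prop) [DecidablePred P] :
    ∑ p ∈ (arcsF G F U).filter (fun p => P (endA G p)), H p =
      ∑ f ∈ F, ∑ L ∈ (Tr G U (G.head f)).filter (fun L => P (endR G (G.head f) L)),
        H (f, L) := by
  rw [Finset.sum_filter, sum_arcsF]
  refine Finset.sum_congr rfl fun f _ => ?_
  rw [Finset.sum_filter]
  rfl

/-- arcs leaving `B` with clusters in `U` -/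
def arcs (B U : Finset V) : Finset (E × List (Finset V × E)) := arcsF G (bd G B) U

theorem mem_arcs {B U : Finset V} {p : E × List (Finset V × E)} :
    p ∈ arcs G B U ↔ p.1 ∈ bd G B ∧ p.2 ∈ Tr G U (G.head p.1) := mem_arcsF G

theorem sum_arcs (B U : Finset V) (F : E × List (Finset V × E) → ℝ) :
    ∑ p ∈ arcs G B U, F p = ∑ f ∈ bd G B, ∑ L ∈ Tr G U (G.head f), F (f, L) :=
  sum_arcsF G _ _ _

theorem sum_arcs_filter (B U : Finset V) (F : E × List (Finset V × E) → ℝ) (P : V → Prop)
    [DecidablePred P] :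
    ∑ p ∈ (arcs G B U).filter (fun p => P (endA G p)), F p =
      ∑ f ∈ bd G B, ∑ L ∈ (Tr G U (G.head f)).filter (fun L => P (endR G (G.head f) L)),
        F (f, L) := sum_arcsF_filter G _ _ _ _

/-- P1 for arcs -/
theorem sum_arcs_out (hb : ∀ C : Finset V, C.Nonempty → (bd G C).card ≠ 0) (B U : Finset V) :
    ∑ p ∈ (arcs G B U).filter (fun p => endA G p ∉ U), wt (mm G) p.2 = (bd G B).card := by
  rw [sum_arcs_filter G B U _ (fun z => z ∉ U)]
  simp only
  rw [Finset.sum_congr rfl (fun f _ => sum_out G hb U (G.head f))]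
  simp

/-- arcs from `B` to the complement of `A` -/
def arms (A B : Finset V) : Finset (E × List (Finset V × E)) :=
  (arcs G B (A \ B)).filter fun p => endA G p ∉ A

/-- arcs from `B` to itself inside `A` -/
def loops (A B : Finset V) : Finset (E × List (Finset V × E)) :=
  (arcs G B (A \ B)).filter fun p => endA G p ∈ B

/-- the escape weight of `B` out of `A` -/
def capA (A B : Finset V) : ℝ := ∑ p ∈ arms G A B, wt (mm G) p.2

/-- the weight of the loops at `B` that enlarge `B` to `D` -/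
def qq (B D : Finset V) : ℝ :=
  ∑ p ∈ (arcs G B (D \ B)).filter (fun p => vs p.2 = D \ B ∧ endA G p ∈ B), wt (mm G) p.2

theorem capA_nonneg (A B : Finset V) : 0 ≤ capA G A B :=
  Finset.sum_nonneg fun _ _ => wt_nonneg (mm_nonneg G) _

theorem qq_nonneg (B D : Finset V) : 0 ≤ qq G B D :=
  Finset.sum_nonneg fun _ _ => wt_nonneg (mm_nonneg G) _

theorem ssubset_of_mem_loops {A B : Finset V} {p : E × List (Finset V × E)}
    (hp : p ∈ loops G A B) : B ⊂ B ∪ vs p.2 ∧ Disjoint (vs p.2) B := by
  rw [loops, Finset.mem_filter, mem_arcs, mem_Tr, mem_bd] at hp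
  obtain ⟨⟨⟨h1, h2⟩, h3, h4⟩, h5⟩ := hp
  have hd : Disjoint (vs p.2) B := by
    rw [Finset.disjoint_left]
    exact fun z hz => (Finset.mem_sdiff.1 (h4 hz)).2
  refine ⟨⟨Finset.subset_union_left, ?_⟩, hd⟩
  intro h
  have hne : p.2 ≠ [] := by
    intro h0
    rw [endA, h0, endR_nil] at h5
    exact h2 h5
  have h6 := old_subset_vs _ (good_mem_old G h3 hne)
  exact h2 (h (Finset.mem_union_right _ h6))

theorem sum_loops {A B : Finset V} (hBA : B ⊆ A) (H : Finset V → ℝ) :
    ∑ p ∈ loops G A B, wt (mm G) p.2 * H (B ∪ vs p.2) =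
      ∑ D ∈ A.powerset.filter (fun D => B ⊂ D), qq G B D * H D := by
  rw [← Finset.sum_fiberwise_of_maps_to (g := fun p => B ∪ vs p.2)
    (t := A.powerset.filter (fun D => B ⊂ D))]
  · refine Finset.sum_congr rfl fun D hD => ?_
    rw [Finset.mem_filter, Finset.mem_powerset] at hD
    rw [qq, Finset.sum_mul]
    refine Finset.sum_congr ?_ ?_
    · ext p
      rw [Finset.mem_filter, loops, Finset.mem_filter, Finset.mem_filter, mem_arcs, mem_arcs,
        mem_Tr, mem_Tr]
      constructor
      · rintro ⟨⟨⟨h1, h2, h3⟩, h4⟩, h5⟩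
        have h6 : vs p.2 = D \ B := by
          rw [← h5, Finset.union_sdiff_left]
          symm
          rw [Finset.sdiff_eq_self_iff_disjoint, Finset.disjoint_left]
          exact fun z hz => (Finset.mem_sdiff.1 (h3 hz)).2
        exact ⟨⟨h1, h2, h6.le⟩, h6, h4⟩
      · rintro ⟨⟨h1, h2, h3⟩, h4, h5⟩
        refine ⟨⟨⟨h1, h2, ?_⟩, h5⟩, ?_⟩
        · rw [h4]; exact Finset.sdiff_subset_sdiff hD.1 le_rfl
        · rw [h4]; exact Finset.union_sdiff_of_subset hD.2.1
    · intro p hp
      rw [Finset.mem_filter] at hp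
      rw [hp.2.1, Finset.union_sdiff_of_subset hD.2.1]
  · intro p hp
    rw [Finset.mem_filter, Finset.mem_powerset]
    refine ⟨?_, (ssubset_of_mem_loops G hp).1⟩
    rw [loops, Finset.mem_filter, mem_arcs, mem_Tr] at hp
    exact Finset.union_subset hBA (hp.1.2.2.trans Finset.sdiff_subset)

/-- (F1) -/
theorem cap_add_sum (hb : ∀ C : Finset V, C.Nonempty → (bd G C).card ≠ 0) {A B : Finset V}
    (hBA : B ⊆ A) :
    capA G A B + ∑ D ∈ A.powerset.filter (fun D => B ⊂ D), qq G B D = (bd G B).card := by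
  have h1 := sum_loops G hBA (fun _ => 1)
  simp only [mul_one] at h1
  rw [← h1, ← sum_arcs_out G hb B (A \ B), capA, ← Finset.sum_union]
  · refine Finset.sum_congr ?_ fun _ _ => rfl
    ext p
    rw [Finset.mem_union, arms, loops, Finset.mem_filter, Finset.mem_filter, Finset.mem_filter,
      Finset.mem_sdiff, not_and_or, not_not]
    tauto
  · rw [Finset.disjoint_left]
    intro p hp hp'
    rw [arms, Finset.mem_filter] at hp
    rw [loops, Finset.mem_filter] at hp'
    exact hp.2 (hBA hp'.2)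

/-- the cutting map used for the superharmonicity of the escape weight -/
def cutMap (B : Finset V) (x : (_ : E × List (Finset V × E)) × (E × List (Finset V × E))) :
    (_ : E × List (Finset V × E)) × (E × List (Finset V × E)) :=
  if G.tail x.2.1 ∈ B then ⟨x.2, x.1⟩
  else match dw (G.tail x.2.1) x.1.2 with
    | [] => ⟨x.2, x.1⟩
    | r :: Y => ⟨(x.1.1, x.2.2 ++ (r.1, x.2.1) :: Y), rv G r.2 (tk (G.tail x.2.1) x.1.2)⟩

/-- the inverse of the cutting map -/
def glueMap (B : Finset V) (x : (_ : E × List (Finset V × E)) × (E × List (Finset V × E))) :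
    (_ : E × List (Finset V × E)) × (E × List (Finset V × E)) :=
  if endA G x.2 ∈ B then ⟨x.2, x.1⟩
  else match dw (endA G x.2) x.1.2 with
    | [] => ⟨x.2, x.1⟩
    | r :: Y => ⟨(x.1.1, (rv G x.2.1 x.2.2).2 ++ (r.1, (rv G x.2.1 x.2.2).1) :: Y),
        (r.2, tk (endA G x.2) x.1.2)⟩

theorem cutMap_spec {A B : Finset V}
    (x : (_ : E × List (Finset V × E)) × (E × List (Finset V × E)))
    (h1 : x.1 ∈ loops G A B) (h2 : x.2 ∈ arms G A (B ∪ vs x.1.2)) :
    (cutMap G B x).1 ∈ arms G A B ∧
    (cutMap G B x).2 ∈ (arcs G B (A \ (B ∪ vs (cutMap G B x).1.2))).filter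
      (fun p => endA G p ∉ A \ (B ∪ vs (cutMap G B x).1.2)) ∧
    wt (mm G) (cutMap G B x).1.2 * wt (mm G) (cutMap G B x).2.2 =
      wt (mm G) x.1.2 * wt (mm G) x.2.2 ∧
    glueMap G B (cutMap G B x) = x := by
  obtain ⟨⟨f0, L⟩, ⟨g0, L'⟩⟩ := x
  simp only at h1 h2
  rw [loops, Finset.mem_filter, mem_arcs, mem_Tr, mem_bd] at h1
  rw [arms, Finset.mem_filter, mem_arcs, mem_Tr, mem_bd] at h2
  simp only [endA] at h1 h2
  obtain ⟨⟨⟨hf0, hf0'⟩, hgL, hvL⟩, heL⟩ := h1
  obtain ⟨⟨⟨hg0, hg0'⟩, hgL', hvL'⟩, heL'⟩ := h2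
  have hvL'A : vs L' ⊆ A := hvL'.trans Finset.sdiff_subset
  have hdL' : ∀ z ∈ vs L', z ∉ B ∧ z ∉ vs L := by
    intro z hz
    have := (Finset.mem_sdiff.1 (hvL' hz)).2
    rw [Finset.mem_union, not_or] at this
    exact this
  have hdL : ∀ z ∈ vs L, z ∈ A ∧ z ∉ B := fun z hz => Finset.mem_sdiff.1 (hvL hz)
  rw [Finset.mem_union, not_or] at hg0'
  by_cases hB : G.tail g0 ∈ B
  · have hcut : cutMap G B ⟨(f0, L), (g0, L')⟩ = ⟨(g0, L'), (f0, L)⟩ := by
      simp only [cutMap]
      rw [if_pos hB]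
    rw [hcut]
    refine ⟨?_, ?_, ?_, ?_⟩
    · rw [arms, Finset.mem_filter, mem_arcs, mem_Tr, mem_bd]
      refine ⟨⟨⟨hB, hg0'.1⟩, hgL', ?_⟩, heL'⟩
      intro z hz
      exact Finset.mem_sdiff.2 ⟨hvL'A hz, (hdL' z hz).1⟩
    · rw [Finset.mem_filter, mem_arcs, mem_Tr, mem_bd]
      refine ⟨⟨⟨hf0, hf0'⟩, hgL, ?_⟩, ?_⟩
      · intro z hz
        rw [Finset.mem_sdiff, Finset.mem_union, not_or]
        exact ⟨(hdL z hz).1, (hdL z hz).2, fun h => (hdL' z h).2 hz⟩
      · rw [Finset.mem_sdiff, Finset.mem_union]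
        simp only [endA]
        exact fun h => h.2 (Or.inl heL)
    · simp only
      ring
    · simp only [glueMap]
      rw [if_pos (show endA G (f0, L) ∈ B from heL)]
  · have hgL0 : G.tail g0 ∈ vs L := by
      rcases Finset.mem_union.1 hg0 with h | h
      · exact absurd h hB
      · exact h
    obtain ⟨X, r, Y, rfl, hr, hX⟩ := exists_split hgL0
    obtain ⟨htk, hdw⟩ := tk_dw_of_split (Y := Y) hX hr
    have hcut : cutMap G B ⟨(f0, X ++ r :: Y), (g0, L')⟩ =
        ⟨(f0, L' ++ (r.1, g0) :: Y), rv G r.2 X⟩ := by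
      simp only [cutMap]
      rw [if_neg hB, hdw]
      simp only
      rw [htk]
    rw [hcut]
    -- unpack goodness
    have hgL2 := hgL
    rw [good_append, good_cons] at hgL2
    obtain ⟨⟨hgY, hrY, htr, hhr, hdrY⟩, hgX, hdX⟩ := hgL2
    rw [endR_cons] at hgX
    rw [vs_cons, Finset.disjoint_union_right] at hdX
    rw [vs_append, vs_cons] at hdL hdL' hg0'
    simp only [Finset.mem_union, not_or] at hdL hdL' hg0'
    have htX : G.tail r.2 ∉ vs X := fun h => Finset.disjoint_left.1 hdX.1 h htr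
    obtain ⟨hrv1, hrv2⟩ := good_rv G hgX htX
    have hrA : ∀ z ∈ r.1, z ∈ A ∧ z ∉ B := fun z hz => hdL z (Or.inr (Or.inl hz))
    have hYA : ∀ z ∈ vs Y, z ∈ A ∧ z ∉ B := fun z hz => hdL z (Or.inr (Or.inr hz))
    have hXA : ∀ z ∈ vs X, z ∈ A ∧ z ∉ B := fun z hz => hdL z (Or.inl hz)
    have htrB : G.tail r.2 ∉ B := (hrA _ htr).2
    have hendX : endR G (G.head r.2) X ∈ B := by
      rw [endR_append, endR_cons] at heL
      exact heL
    refine ⟨?_, ?_, ?_, ?_⟩
    · rw [arms, Finset.mem_filter, mem_arcs, mem_Tr, mem_bd]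
      simp only [endA]
      refine ⟨⟨⟨hf0, hf0'⟩, ?_, ?_⟩, ?_⟩
      · rw [good_append, good_cons]
        refine ⟨⟨hgY, hrY, hr, hg0'.2.2.1, hdrY⟩, hgL', ?_⟩
        rw [Finset.disjoint_left]
        intro z hz hz'
        rw [vs_cons, Finset.mem_union] at hz'
        rcases hz' with h | h
        · exact (hdL' z hz).2.2.1 h
        · exact (hdL' z hz).2.2.2 h
      · intro z hz
        rw [vs_append, vs_cons, Finset.mem_union, Finset.mem_union] at hz
        rw [Finset.mem_sdiff]
        rcases hz with h | h | h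
        · exact ⟨hvL'A h, (hdL' z h).1⟩
        · exact hrA z h
        · exact hYA z h
      · rw [endR_append, endR_cons]
        exact heL'
    · rw [Finset.mem_filter, mem_arcs, mem_Tr, mem_bd]
      simp only [endA]
      refine ⟨⟨⟨?_, ?_⟩, hrv1, ?_⟩, ?_⟩
      · rw [tail_rv]; exact hendX
      · by_cases hXn : X = []
        · subst hXn
          simp only [rv_nil, G.head_rev]
          exact htrB
        · exact (hXA _ (head_rv_mem G hgX hXn)).2
      · intro z hz
        rw [vs_rv] at hz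
        rw [Finset.mem_sdiff, Finset.mem_union, vs_append, vs_cons, Finset.mem_union,
          Finset.mem_union]
        refine ⟨(hXA z hz).1, ?_⟩
        rintro (h | h | h | h)
        · exact (hXA z hz).2 h
        · exact (hdL' z h).2.1 hz
        · exact Finset.disjoint_left.1 hdX.1 hz h
        · exact Finset.disjoint_left.1 hdX.2 hz h
      · rw [hrv2, Finset.mem_sdiff, Finset.mem_union, vs_append, vs_cons, Finset.mem_union,
          Finset.mem_union]
        exact fun h => h.2 (Or.inr (Or.inr (Or.inl htr)))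
    · simp only [wt_append, wt_cons, wt_rv]
      ring
    · have hend : endA G (rv G r.2 X) = G.tail r.2 := hrv2
      have hend' : ¬ endA G (rv G r.2 X) ∈ B := by rw [hend]; exact htrB
      simp only [glueMap]
      rw [if_neg hend', hend]
      have htL' : G.tail r.2 ∉ vs L' := fun h => (hdL' _ h).2.2.1 htr
      obtain ⟨htk2, hdw2⟩ := tk_dw_of_split (X := L') (Y := Y) (r := (r.1, g0)) htL' htr
      rw [hdw2, htk2]
      simp only
      rw [rv_rv]

/-- (F2) the escape weight is superharmonic for the chain of roots -/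
theorem sum_qq_cap_le (hb : ∀ C : Finset V, C.Nonempty → (bd G C).card ≠ 0) {A B : Finset V}
    (hBA : B ⊆ A) :
    ∑ D ∈ A.powerset.filter (fun D => B ⊂ D), qq G B D * capA G A D ≤
      (bd G B).card * capA G A B := by
  rw [← sum_loops G hBA (capA G A)]
  have h1 : ∑ p ∈ loops G A B, wt (mm G) p.2 * capA G A (B ∪ vs p.2) =
      ∑ x ∈ (loops G A B).sigma (fun p => arms G A (B ∪ vs p.2)),
        wt (mm G) x.1.2 * wt (mm G) x.2.2 := by
    rw [Finset.sum_sigma]
    refine Finset.sum_congr rfl fun p _ => ?_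
    rw [capA, Finset.mul_sum]
  have h2 : (bd G B).card * capA G A B =
      ∑ x ∈ (arms G A B).sigma (fun p => (arcs G B (A \ (B ∪ vs p.2))).filter
        (fun p' => endA G p' ∉ A \ (B ∪ vs p.2))), wt (mm G) x.1.2 * wt (mm G) x.2.2 := by
    rw [Finset.sum_sigma, capA, Finset.mul_sum]
    refine Finset.sum_congr rfl fun p _ => ?_
    simp only
    rw [← Finset.mul_sum, sum_arcs_out G hb, mul_comm]
  rw [h1, h2]
  have hspec : ∀ x ∈ (loops G A B).sigma (fun p => arms G A (B ∪ vs p.2)), _ := fun x hx =>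
    cutMap_spec G x (Finset.mem_sigma.1 hx).1 (Finset.mem_sigma.1 hx).2
  have hinj : Set.InjOn (cutMap G B)
      ((loops G A B).sigma (fun p => arms G A (B ∪ vs p.2)) : Set _) := by
    intro x hx y hy hxy
    rw [← (hspec x hx).2.2.2, ← (hspec y hy).2.2.2, hxy]
  calc ∑ x ∈ (loops G A B).sigma (fun p => arms G A (B ∪ vs p.2)),
        wt (mm G) x.1.2 * wt (mm G) x.2.2
      = ∑ x ∈ (loops G A B).sigma (fun p => arms G A (B ∪ vs p.2)),
        wt (mm G) (cutMap G B x).1.2 * wt (mm G) (cutMap G B x).2.2 :=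
        Finset.sum_congr rfl fun x hx => ((hspec x hx).2.2.1).symm
    _ = ∑ x ∈ ((loops G A B).sigma (fun p => arms G A (B ∪ vs p.2))).image (cutMap G B),
        wt (mm G) x.1.2 * wt (mm G) x.2.2 := (Finset.sum_image (f := fun x => wt (mm G) x.1.2 * wt (mm G) x.2.2)
        hinj).symm
    _ ≤ _ := by
        refine Finset.sum_le_sum_of_subset_of_nonneg ?_ ?_
        · intro y hy
          rw [Finset.mem_image] at hy
          obtain ⟨x, hx, rfl⟩ := hy
          rw [Finset.mem_sigma]
          exact ⟨(hspec x hx).1, (hspec x hx).2.1⟩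
        · exact fun x _ _ => mul_nonneg (wt_nonneg (mm_nonneg G) _) (wt_nonneg (mm_nonneg G) _)

/-- arcs from the complement of `A` to `B` -/
def rarms (A B : Finset V) : Finset (E × List (Finset V × E)) :=
  (arcsF G ((bd G A).image G.rev) (A \ B)).filter fun p => endA G p ∈ B

theorem mem_image_rev {A : Finset V} {f : E} :
    f ∈ (bd G A).image G.rev ↔ G.tail f ∉ A ∧ G.head f ∈ A := by
  rw [Finset.mem_image]
  constructor
  · rintro ⟨e, he, rfl⟩
    rw [mem_bd] at he
    rw [G.tail_rev, G.head_rev]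
    exact ⟨he.2, he.1⟩
  · rintro ⟨h1, h2⟩
    refine ⟨G.rev f, ?_, G.rev_rev f⟩
    rw [mem_bd, G.tail_rev, G.head_rev]
    exact ⟨h2, h1⟩

theorem capA_eq_rarms {A B : Finset V} (hBA : B ⊆ A) :
    capA G A B = ∑ p ∈ rarms G A B, wt (mm G) p.2 := by
  rw [capA]
  refine Finset.sum_nbij' (fun p => rv G p.1 p.2) (fun p => rv G p.1 p.2) ?_ ?_ ?_ ?_ ?_
  · rintro ⟨f, L⟩ hp
    rw [arms, Finset.mem_filter, mem_arcs, mem_Tr, mem_bd] at hp
    simp only [endA] at hp
    obtain ⟨⟨⟨h1, h2⟩, h3, h4⟩, h5⟩ := hp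
    have ht : G.tail f ∉ vs L := fun h => (Finset.mem_sdiff.1 (h4 h)).2 h1
    obtain ⟨h6, h7⟩ := good_rv G h3 ht
    rw [rarms, Finset.mem_filter, mem_arcsF, mem_Tr, mem_image_rev]
    simp only [endA]
    rw [h7, vs_rv, tail_rv]
    refine ⟨⟨⟨h5, ?_⟩, h6, h4⟩, h1⟩
    by_cases hL : L = []
    · subst hL
      rw [rv_nil]
      simp only
      rw [G.head_rev]
      exact hBA h1
    · exact (Finset.mem_sdiff.1 (h4 (head_rv_mem G h3 hL))).1
  · rintro ⟨f, L⟩ hp
    rw [rarms, Finset.mem_filter, mem_arcsF, mem_Tr, mem_image_rev] at hp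
    simp only [endA] at hp
    obtain ⟨⟨⟨h1, h2⟩, h3, h4⟩, h5⟩ := hp
    have ht : G.tail f ∉ vs L := fun h => h1 (Finset.mem_sdiff.1 (h4 h)).1
    obtain ⟨h6, h7⟩ := good_rv G h3 ht
    rw [arms, Finset.mem_filter, mem_arcs, mem_Tr, mem_bd]
    simp only [endA]
    rw [h7, vs_rv, tail_rv]
    refine ⟨⟨⟨h5, ?_⟩, h6, h4⟩, h1⟩
    by_cases hL : L = []
    · subst hL
      rw [rv_nil]
      simp only
      rw [G.head_rev]
      exact fun h => h1 (hBA h)
    · exact (Finset.mem_sdiff.1 (h4 (head_rv_mem G h3 hL))).2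
  · rintro ⟨f, L⟩ _
    exact rv_rv G f L
  · rintro ⟨f, L⟩ _
    exact rv_rv G f L
  · rintro ⟨f, L⟩ _
    simp

theorem capA_eq (hb : ∀ C : Finset V, C.Nonempty → (bd G C).card ≠ 0) {A B : Finset V}
    (hBA : B ⊆ A) :
    capA G A B = ∑ f ∈ (bd G A).image G.rev,
      (1 - ∑ L ∈ (Tr G (A \ B) (G.head f)).filter (fun L => endR G (G.head f) L ∉ A),
        wt (mm G) L) := by
  rw [capA_eq_rarms G hBA, rarms, sum_arcsF_filter G _ _ _ (fun z => z ∈ B)]
  refine Finset.sum_congr rfl fun f _ => ?_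
  rw [← sum_out G hb (A \ B) (G.head f), eq_sub_iff_add_eq, ← Finset.sum_union]
  · refine Finset.sum_congr ?_ fun _ _ => rfl
    ext L
    rw [Finset.mem_union, Finset.mem_filter, Finset.mem_filter, Finset.mem_filter,
      Finset.mem_sdiff, not_and_or, not_not]
    tauto
  · rw [Finset.disjoint_left]
    intro L hL hL'
    rw [Finset.mem_filter] at hL hL'
    exact hL'.2 (hBA hL.2)

/-- (Mono) the escape weight increases with the root -/
theorem capA_mono (hb : ∀ C : Finset V, C.Nonempty → (bd G C).card ≠ 0) {A B D : Finset V}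
    (hBD : B ⊆ D) (hDA : D ⊆ A) : capA G A B ≤ capA G A D := by
  rw [capA_eq G hb (hBD.trans hDA), capA_eq G hb hDA]
  refine Finset.sum_le_sum fun f _ => sub_le_sub_left ?_ _
  refine Finset.sum_le_sum_of_subset_of_nonneg ?_ fun _ _ _ => wt_nonneg (mm_nonneg G) _
  intro L hL
  rw [Finset.mem_filter] at hL ⊢
  exact ⟨Tr_mono G (Finset.sdiff_subset_sdiff le_rfl hBD) _ hL.1, hL.2⟩

/-- the escape weight decreases with the domain -/
theorem capA_anti (hb : ∀ C : Finset V, C.Nonempty → (bd G C).card ≠ 0) {A A' B : Finset V}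
    (hBA : B ⊆ A) (hAA' : A ⊆ A') : capA G A' B ≤ capA G A B := by
  have h1 := cap_add_sum G hb hBA
  have h2 := cap_add_sum G hb (hBA.trans hAA')
  have h3 : ∑ D ∈ A.powerset.filter (fun D => B ⊂ D), qq G B D ≤
      ∑ D ∈ A'.powerset.filter (fun D => B ⊂ D), qq G B D := by
    refine Finset.sum_le_sum_of_subset_of_nonneg ?_ fun _ _ _ => qq_nonneg G _ _
    intro D hD
    rw [Finset.mem_filter, Finset.mem_powerset] at hD ⊢
    exact ⟨hD.1.trans hAA', hD.2⟩
  linarith

/-- the last edge of an arc -/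
def lastA (p : E × List (Finset V × E)) : E := G.rev (rv G p.1 p.2).1

theorem lastA_nil (f : E) : lastA G (f, []) = f := by simp [lastA, G.rev_rev]

theorem lastA_cons (f : E) (r : Finset V × E) (L : List (Finset V × E)) :
    lastA G (f, r :: L) = r.2 := by simp [lastA, rv_cons, G.rev_rev]

/-- each edge is used with total weight at most one -/
theorem sum_lastA_le (hb : ∀ C : Finset V, C.Nonempty → (bd G C).card ≠ 0) (A B : Finset V)
    (e : E) :
    ∑ p ∈ (arcs G B (A \ B)).filter (fun p => lastA G p = e), wt (mm G) p.2 ≤ 1 := by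
  have key : ∀ p ∈ (arcs G B (A \ B)).filter (fun p => lastA G p = e),
      rv G p.1 p.2 = (G.rev e, (rv G p.1 p.2).2) := by
    intro p hp
    rw [Finset.mem_filter] at hp
    rw [← hp.2, lastA, G.rev_rev]
  have hinj : Set.InjOn (fun p : E × List (Finset V × E) => (rv G p.1 p.2).2)
      ((arcs G B (A \ B)).filter (fun p => lastA G p = e) : Set _) := by
    intro p hp p' hp' h
    have h1 := key p hp
    have h2 := key p' hp'
    simp only at h
    rw [h] at h1
    have h3 : rv G p.1 p.2 = rv G p'.1 p'.2 := h1.trans h2.symm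
    have h4 := rv_rv G p.1 p.2
    have h5 := rv_rv G p'.1 p'.2
    rw [h3] at h4
    exact (h4.symm.trans h5)
  calc ∑ p ∈ (arcs G B (A \ B)).filter (fun p => lastA G p = e), wt (mm G) p.2
      = ∑ p ∈ (arcs G B (A \ B)).filter (fun p => lastA G p = e),
          wt (mm G) (rv G p.1 p.2).2 := by simp
    _ = ∑ M ∈ ((arcs G B (A \ B)).filter (fun p => lastA G p = e)).image
          (fun p => (rv G p.1 p.2).2), wt (mm G) M :=
        (Finset.sum_image (f := fun M => wt (mm G) M) hinj).symm
    _ ≤ ∑ M ∈ (Tr G (A \ B) (G.tail e)).filter (fun M => endR G (G.tail e) M ∉ A \ B),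
          wt (mm G) M := by
        refine Finset.sum_le_sum_of_subset_of_nonneg ?_ fun _ _ _ => wt_nonneg (mm_nonneg G) _
        intro M hM
        rw [Finset.mem_image] at hM
        obtain ⟨p, hp, rfl⟩ := hM
        have h1 := key p hp
        rw [Finset.mem_filter, mem_arcs, mem_Tr, mem_bd] at hp
        obtain ⟨⟨⟨h2, h3⟩, h4, h5⟩, h6⟩ := hp
        have ht : G.tail p.1 ∉ vs p.2 := fun h => (Finset.mem_sdiff.1 (h5 h)).2 h2
        obtain ⟨h7, h8⟩ := good_rv G h4 ht
        have h9 : G.head (rv G p.1 p.2).1 = G.tail e := by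
          rw [h1]; exact G.head_rev e
        rw [h9] at h7 h8
        rw [Finset.mem_filter, mem_Tr, vs_rv, h8, Finset.mem_sdiff]
        exact ⟨⟨h7, h5⟩, fun h => h.2 h2⟩
    _ = 1 := sum_out G hb _ _

/-- (F3) a unit flow of finite energy bounds the escape weight from below -/
theorem one_le_capA_mul (hb : ∀ C : Finset V, C.Nonempty → (bd G C).card ≠ 0) (θ : E → ℝ)
    (hθ : ∀ e, θ (G.rev e) = - θ e) (x : V)
    (hdiv : ∀ u, ∑ e ∈ star G u, θ e = if u = x then 1 else 0) (K : ℝ)
    (hK : ∀ F : Finset E, ∑ e ∈ F, θ e ^ 2 ≤ K) {A B : Finset V} (hBA : B ⊆ A) (hx : x ∈ B) :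
    1 ≤ capA G A B * K := by
  have hdivU : ∀ u ∈ A \ B, ∑ e ∈ star G u, θ e = 0 := by
    intro u hu
    rw [hdiv, if_neg]
    rintro rfl
    exact (Finset.mem_sdiff.1 hu).2 hx
  have hbd : ∑ e ∈ bd G B, θ e = 1 := by
    rw [sum_bd G θ hθ, Finset.sum_congr rfl fun u _ => hdiv u]
    simp [hx]
  -- first moment
  have hS1 : ∑ p ∈ (arcs G B (A \ B)).filter (fun p => endA G p ∉ A \ B),
      wt (mm G) p.2 * (θ p.1 + ysum θ p.2) = 1 := by
    rw [sum_arcs_filter G B (A \ B) _ (fun z => z ∉ A \ B)]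
    rw [← hbd]
    refine Finset.sum_congr rfl fun f _ => ?_
    have h1 := sum_out G hb (A \ B) (G.head f)
    have h2 := sum_out_ysum G hb θ hθ (A \ B) hdivU (G.head f)
    simp only [mul_add]
    rw [Finset.sum_add_distrib, h2, ← Finset.sum_mul, h1]
    ring
  have hS1' : ∑ p ∈ loops G A B, wt (mm G) p.2 * (θ p.1 + ysum θ p.2) = 0 := by
    have h : ∑ p ∈ loops G A B, wt (mm G) p.2 * (θ p.1 + ysum θ p.2) =
        ∑ p ∈ loops G A B, -(wt (mm G) p.2 * (θ p.1 + ysum θ p.2)) := by
      have hmem : ∀ p ∈ loops G A B, rv G p.1 p.2 ∈ loops G A B := by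
        rintro ⟨f, L⟩ hp
        rw [loops, Finset.mem_filter, mem_arcs, mem_Tr, mem_bd] at hp ⊢
        simp only [endA] at hp ⊢
        obtain ⟨⟨⟨h1, h2⟩, h3, h4⟩, h5⟩ := hp
        have ht : G.tail f ∉ vs L := fun h => (Finset.mem_sdiff.1 (h4 h)).2 h1
        obtain ⟨h6, h7⟩ := good_rv G h3 ht
        have hL : L ≠ [] := by
          rintro rfl
          exact h2 h5
        rw [h7, vs_rv, tail_rv]
        exact ⟨⟨⟨h5, (Finset.mem_sdiff.1 (h4 (head_rv_mem G h3 hL))).2⟩, h6, h4⟩, h1⟩
      refine Finset.sum_nbij' (fun p => rv G p.1 p.2) (fun p => rv G p.1 p.2) hmem hmem ?_ ?_ ?_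
      · rintro ⟨f, L⟩ _
        exact rv_rv G f L
      · rintro ⟨f, L⟩ _
        exact rv_rv G f L
      · rintro ⟨f, L⟩ _
        have := ysum_rv G θ hθ f L
        simp only
        rw [wt_rv, this]
        ring
    rw [Finset.sum_neg_distrib] at h
    linarith
  have hsplit : ∀ F : E × List (Finset V × E) → ℝ,
      ∑ p ∈ (arcs G B (A \ B)).filter (fun p => endA G p ∉ A \ B), F p =
        ∑ p ∈ arms G A B, F p + ∑ p ∈ loops G A B, F p := by
    intro F
    rw [← Finset.sum_union]
    · refine Finset.sum_congr ?_ fun _ _ => rfl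
      ext p
      rw [Finset.mem_union, arms, loops, Finset.mem_filter, Finset.mem_filter,
        Finset.mem_filter, Finset.mem_sdiff, not_and_or, not_not]
      tauto
    · rw [Finset.disjoint_left]
      intro p hp hp'
      rw [arms, Finset.mem_filter] at hp
      rw [loops, Finset.mem_filter] at hp'
      exact hp.2 (hBA hp'.2)
  have hS1'' : ∑ p ∈ arms G A B, wt (mm G) p.2 * (θ p.1 + ysum θ p.2) = 1 := by
    rw [hsplit, hS1', add_zero] at hS1
    exact hS1
  -- second moment
  have hS2 : ∑ p ∈ arms G A B, wt (mm G) p.2 * (θ p.1 + ysum θ p.2) ^ 2 ≤ K := by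
    have h1 : ∑ p ∈ arms G A B, wt (mm G) p.2 * (θ p.1 + ysum θ p.2) ^ 2 ≤
        ∑ p ∈ (arcs G B (A \ B)).filter (fun p => endA G p ∉ A \ B),
          wt (mm G) p.2 * (θ p.1 + ysum θ p.2) ^ 2 := by
      rw [hsplit, le_add_iff_nonneg_right]
      exact Finset.sum_nonneg fun p _ => mul_nonneg (wt_nonneg (mm_nonneg G) _) (sq_nonneg _)
    have h2 : ∑ p ∈ (arcs G B (A \ B)).filter (fun p => endA G p ∉ A \ B),
          wt (mm G) p.2 * (θ p.1 + ysum θ p.2) ^ 2 ≤
        ∑ p ∈ arcs G B (A \ B), wt (mm G) p.2 * θ (lastA G p) ^ 2 := by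
      rw [sum_arcs_filter G B (A \ B) _ (fun z => z ∉ A \ B), sum_arcs]
      refine Finset.sum_le_sum fun f _ => ?_
      have h3 := sum_out G hb (A \ B) (G.head f)
      have h4 := sum_out_ysum G hb θ hθ (A \ B) hdivU (G.head f)
      have h5 := sum_out_ysum_sq G hb θ hθ (A \ B) hdivU (G.head f)
      have h6 : ∑ L ∈ (Tr G (A \ B) (G.head f)).filter
            (fun L => endR G (G.head f) L ∉ A \ B),
            wt (mm G) L * (θ f + ysum θ L) ^ 2 =
          θ f ^ 2 + ∑ L ∈ (Tr G (A \ B) (G.head f)).filter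
            (fun L => endR G (G.head f) L ∉ A \ B), wt (mm G) L * ysum θ L ^ 2 := by
        have h7 : ∀ L ∈ (Tr G (A \ B) (G.head f)).filter
            (fun L => endR G (G.head f) L ∉ A \ B),
            wt (mm G) L * (θ f + ysum θ L) ^ 2 = θ f ^ 2 * wt (mm G) L +
              2 * θ f * (wt (mm G) L * ysum θ L) + wt (mm G) L * ysum θ L ^ 2 := by
          intro L _
          ring
        rw [Finset.sum_congr rfl h7, Finset.sum_add_distrib, Finset.sum_add_distrib,
          ← Finset.mul_sum, ← Finset.mul_sum, h3, h4]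
        ring
      have h8 : ∑ L ∈ Tr G (A \ B) (G.head f), wt (mm G) L * θ (lastA G (f, L)) ^ 2 =
          θ f ^ 2 + ∑ L ∈ Tr G (A \ B) (G.head f), wt (mm G) L * lth θ L ^ 2 := by
        rw [sum_all, sum_all G (A \ B) (G.head f) (fun L => wt (mm G) L * lth θ L ^ 2)]
        rw [lastA_nil, wt_nil, lth_nil]
        have h9 : ∑ L ∈ (Tr G (A \ B) (G.head f)).filter (fun L => L ≠ []),
              wt (mm G) L * θ (lastA G (f, L)) ^ 2 =
            ∑ L ∈ (Tr G (A \ B) (G.head f)).filter (fun L => L ≠ []),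
              wt (mm G) L * lth θ L ^ 2 := by
          refine Finset.sum_congr rfl fun L hL => ?_
          rw [Finset.mem_filter] at hL
          cases L with
          | nil => exact absurd rfl hL.2
          | cons r L => rw [lastA_cons, lth_cons]
        rw [h9]
        ring
      simp only
      rw [h6, h8]
      linarith
    have h3 : ∑ p ∈ arcs G B (A \ B), wt (mm G) p.2 * θ (lastA G p) ^ 2 =
        ∑ e ∈ starS G A, (∑ p ∈ (arcs G B (A \ B)).filter (fun p => lastA G p = e),
          wt (mm G) p.2) * θ e ^ 2 := by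
      rw [← Finset.sum_fiberwise_of_maps_to (g := lastA G) (t := starS G A)]
      · refine Finset.sum_congr rfl fun e _ => ?_
        rw [Finset.sum_mul]
        refine Finset.sum_congr rfl fun p hp => ?_
        rw [Finset.mem_filter] at hp
        rw [hp.2]
      · rintro ⟨f, L⟩ hp
        rw [mem_arcs, mem_bd, mem_Tr] at hp
        rw [mem_starS]
        cases L with
        | nil => rw [lastA_nil]; exact hBA hp.1.1
        | cons r L =>
          rw [lastA_cons]
          have := tail_mem_vs G hp.2.1 (r := r) (by simp)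
          exact (Finset.mem_sdiff.1 (hp.2.2 (this.2.2 this.1))).1
    have h4 : ∑ e ∈ starS G A, (∑ p ∈ (arcs G B (A \ B)).filter (fun p => lastA G p = e),
          wt (mm G) p.2) * θ e ^ 2 ≤ ∑ e ∈ starS G A, θ e ^ 2 := by
      refine Finset.sum_le_sum fun e _ => ?_
      have := sum_lastA_le G hb A B e
      nlinarith [sq_nonneg (θ e)]
    linarith [hK (starS G A)]
  have hCS : (∑ p ∈ arms G A B, wt (mm G) p.2 * (θ p.1 + ysum θ p.2)) ^ 2 ≤
      (∑ p ∈ arms G A B, wt (mm G) p.2) *
        ∑ p ∈ arms G A B, wt (mm G) p.2 * (θ p.1 + ysum θ p.2) ^ 2 := by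
    refine Finset.sum_sq_le_sum_mul_sum_of_sq_le_mul _ ?_ ?_ ?_
    · exact fun p _ => wt_nonneg (mm_nonneg G) _
    · exact fun p _ => mul_nonneg (wt_nonneg (mm_nonneg G) _) (sq_nonneg _)
    · intro p _
      exact le_of_eq (by ring)
  rw [hS1'', one_pow] at hCS
  exact hCS.trans (mul_le_mul_of_nonneg_left hS2 (capA_nonneg G A B))

end

end Pool.Agent.Lib.MP_3b7186_pr
end

section

/-!
# The chain of roots
-/

namespace Pool.Agent.Lib.MP_3b7186_pr

open scoped Classical ENNReal
open MeasureTheory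

noncomputable section

variable {V E : Type*} (G : MGraph V E)

/-- transition probabilities of the chain of roots -/
def pE (B D : Finset V) : ℝ≥0∞ :=
  if B ⊂ D then ENNReal.ofReal (qq G B D / (bd G B).card) else 0

/-- inverse boundary size -/
def aE (B : Finset V) : ℝ≥0∞ := ENNReal.ofReal (1 / (bd G B).card)

/-- probability of at least `J` returns -/
def rho : ℕ → Finset V → ℝ≥0∞
  | 0, _ => 1
  | J + 1, B => ∑' D, pE G B D * rho J D

/-- expected sum of the inverse boundary sizes over the first `J` roots -/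
def uE : ℕ → Finset V → ℝ≥0∞
  | 0, _ => 0
  | J + 1, B => aE G B + ∑' D, pE G B D * uE J D

/-- real-valued version inside a finite domain -/
def uA (A : Finset V) : ℕ → Finset V → ℝ
  | 0, _ => 0
  | J + 1, B => 1 / (bd G B).card +
      ∑ D ∈ A.powerset.filter (fun D => B ⊂ D), qq G B D / (bd G B).card * uA A J D

/-- the escape weight to infinity -/
def cc (B : Finset V) : ℝ := ⨅ A : Finset V, capA G (A ∪ B) B

theorem cc_bddBelow (B : Finset V) : BddBelow (Set.range fun A : Finset V => capA G (A ∪ B) B) :=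
  ⟨0, by rintro _ ⟨A, rfl⟩; exact capA_nonneg G _ _⟩

theorem cc_nonneg (B : Finset V) : 0 ≤ cc G B :=
  le_ciInf fun _ => capA_nonneg G _ _

theorem cc_le {A B : Finset V} (h : B ⊆ A) : cc G B ≤ capA G A B := by
  have := ciInf_le (cc_bddBelow G B) A
  rwa [Finset.union_eq_left.2 h] at this

theorem cc_mono (hb : ∀ C : Finset V, C.Nonempty → (bd G C).card ≠ 0) {B D : Finset V}
    (h : B ⊆ D) : cc G B ≤ cc G D := by
  refine le_ciInf fun A => ?_
  exact (cc_le G (h.trans Finset.subset_union_right)).trans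
    (capA_mono G hb h Finset.subset_union_right)

theorem uA_nonneg (A : Finset V) (J : ℕ) (B : Finset V) : 0 ≤ uA G A J B := by
  induction J generalizing B with
  | zero => simp [uA]
  | succ J ih =>
    rw [uA]
    refine add_nonneg (by positivity) (Finset.sum_nonneg fun D _ => ?_)
    exact mul_nonneg (div_nonneg (qq_nonneg G _ _) (by positivity)) (ih D)

theorem uA_ge (hb : ∀ C : Finset V, C.Nonempty → (bd G C).card ≠ 0) (A : Finset V) (J : ℕ) :
    ∀ B : Finset V, B.Nonempty → B ⊆ A → (A \ B).card < J → ∀ t : ℝ, 0 ≤ t →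
      t - capA G A B * t ^ 2 / 2 ≤ uA G A J B := by
  induction J with
  | zero => intro B _ _ h; omega
  | succ J ih =>
    intro B hBne hBA hcard
    have hb0 : (0 : ℝ) < (bd G B).card := by
      exact_mod_cast Nat.pos_of_ne_zero (hb B hBne)
    -- the main case
    have main : ∀ t : ℝ, 0 ≤ t → capA G A B * t ≤ 1 →
        t - capA G A B * t ^ 2 / 2 ≤ uA G A (J + 1) B := by
      intro t ht htc
      have h1 : ∀ D ∈ A.powerset.filter (fun D => B ⊂ D),
          qq G B D / (bd G B).card * (t - capA G A D * t ^ 2 / 2) ≤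
          qq G B D / (bd G B).card * uA G A J D := by
        intro D hD
        rw [Finset.mem_filter, Finset.mem_powerset] at hD
        refine mul_le_mul_of_nonneg_left ?_ (div_nonneg (qq_nonneg G _ _) hb0.le)
        refine ih D (hBne.mono hD.2.1) hD.1 ?_ t ht
        have : (A \ D).card < (A \ B).card := by
          refine Finset.card_lt_card ?_
          obtain ⟨z, hz, hz'⟩ := Finset.exists_of_ssubset hD.2
          refine ⟨Finset.sdiff_subset_sdiff le_rfl hD.2.1, fun h => ?_⟩
          have := h (Finset.mem_sdiff.2 ⟨hD.1 hz, hz'⟩)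
          exact (Finset.mem_sdiff.1 this).2 hz
        omega
      have h2 := Finset.sum_le_sum h1
      have h3 := cap_add_sum G hb hBA
      have h4 := sum_qq_cap_le G hb hBA
      have h5 : ∑ D ∈ A.powerset.filter (fun D => B ⊂ D),
          qq G B D / (bd G B).card * (t - capA G A D * t ^ 2 / 2) =
          t / (bd G B).card * ∑ D ∈ A.powerset.filter (fun D => B ⊂ D), qq G B D -
          t ^ 2 / (2 * (bd G B).card) *
            ∑ D ∈ A.powerset.filter (fun D => B ⊂ D), qq G B D * capA G A D := by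
        rw [Finset.mul_sum, Finset.mul_sum, ← Finset.sum_sub_distrib]
        refine Finset.sum_congr rfl fun D _ => ?_
        field_simp
      rw [uA]
      have h6 : ∑ D ∈ A.powerset.filter (fun D => B ⊂ D), qq G B D =
          (bd G B).card - capA G A B := by linarith
      rw [h5, h6] at h2
      have h7 : t ^ 2 / (2 * (bd G B).card) *
            ∑ D ∈ A.powerset.filter (fun D => B ⊂ D), qq G B D * capA G A D ≤
          t ^ 2 / (2 * (bd G B).card) * ((bd G B).card * capA G A B) :=
        mul_le_mul_of_nonneg_left h4 (by positivity)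
      have h8 : t ^ 2 / (2 * (bd G B).card) * ((bd G B).card * capA G A B) =
          capA G A B * t ^ 2 / 2 := by
        field_simp
      have h9 : t / (bd G B).card * ((bd G B).card - capA G A B) =
          t - capA G A B * t / (bd G B).card := by
        field_simp
      have h10 : capA G A B * t / (bd G B).card ≤ 1 / (bd G B).card := by
        gcongr
      linarith
    intro t ht
    by_cases htc : capA G A B * t ≤ 1
    · exact main t ht htc
    · rw [not_le] at htc
      have hc : 0 < capA G A B := by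
        by_contra hc
        have : capA G A B = 0 := le_antisymm (not_lt.1 hc) (capA_nonneg G A B)
        rw [this] at htc
        linarith
      have h1 := main (1 / capA G A B) (by positivity) (by
        rw [mul_one_div_cancel hc.ne'])
      refine le_trans ?_ h1
      have h2 : 1 / capA G A B - capA G A B * (1 / capA G A B) ^ 2 / 2 =
          1 / (2 * capA G A B) := by
        field_simp
        norm_num
      rw [h2, le_div_iff₀ (by positivity)]
      nlinarith [sq_nonneg (capA G A B * t - 1)]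

theorem ofReal_uA_le (A : Finset V) (J : ℕ) (B : Finset V) :
    ENNReal.ofReal (uA G A J B) ≤ uE G J B := by
  induction J generalizing B with
  | zero => simp [uA]
  | succ J ih =>
    rw [uA, uE]
    have hnn : ∀ D, 0 ≤ qq G B D / (bd G B).card * uA G A J D := fun D =>
      mul_nonneg (div_nonneg (qq_nonneg G _ _) (by positivity)) (uA_nonneg G A J D)
    rw [ENNReal.ofReal_add (by positivity) (Finset.sum_nonneg fun D _ => hnn D),
      ENNReal.ofReal_sum_of_nonneg fun D _ => hnn D]
    refine add_le_add le_rfl (le_trans ?_ (ENNReal.sum_le_tsum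
      (A.powerset.filter (fun D => B ⊂ D))))
    refine Finset.sum_le_sum fun D hD => ?_
    rw [Finset.mem_filter] at hD
    rw [pE, if_pos hD.2, ENNReal.ofReal_mul (div_nonneg (qq_nonneg G _ _) (by positivity))]
    exact mul_le_mul_right (ih D) _

theorem tsum_pE_add_le (hb : ∀ C : Finset V, C.Nonempty → (bd G C).card ≠ 0) {B : Finset V}
    (hB : B.Nonempty) : ∑' D, pE G B D + ENNReal.ofReal (cc G B) * aE G B ≤ 1 := by
  have hb0 : (0 : ℝ) < (bd G B).card := by
    exact_mod_cast Nat.pos_of_ne_zero (hb B hB)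
  rw [ENNReal.tsum_eq_iSup_sum, ENNReal.iSup_add]
  refine iSup_le fun S => ?_
  set A : Finset V := B ∪ S.biUnion id with hA
  have hBA : B ⊆ A := Finset.subset_union_left
  have h1 : ∑ D ∈ S, pE G B D ≤ ∑ D ∈ A.powerset.filter (fun D => B ⊂ D), pE G B D := by
    have : ∑ D ∈ S, pE G B D = ∑ D ∈ S.filter (fun D => B ⊂ D), pE G B D := by
      rw [Finset.sum_filter]
      refine Finset.sum_congr rfl fun D _ => ?_
      by_cases h : B ⊂ D
      · rw [if_pos h]
      · rw [if_neg h, pE, if_neg h]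
    rw [this]
    refine Finset.sum_le_sum_of_subset ?_
    intro D hD
    rw [Finset.mem_filter] at hD
    rw [Finset.mem_filter, Finset.mem_powerset]
    exact ⟨(Finset.subset_biUnion_of_mem id hD.1).trans Finset.subset_union_right, hD.2⟩
  have h2 : ∑ D ∈ A.powerset.filter (fun D => B ⊂ D), pE G B D =
      ENNReal.ofReal (∑ D ∈ A.powerset.filter (fun D => B ⊂ D), qq G B D / (bd G B).card) := by
    rw [ENNReal.ofReal_sum_of_nonneg fun D _ => div_nonneg (qq_nonneg G _ _) hb0.le]
    refine Finset.sum_congr rfl fun D hD => ?_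
    rw [Finset.mem_filter] at hD
    rw [pE, if_pos hD.2]
  have h3 : ENNReal.ofReal (cc G B) * aE G B ≤ ENNReal.ofReal (capA G A B / (bd G B).card) := by
    rw [aE, ← ENNReal.ofReal_mul (cc_nonneg G B)]
    refine ENNReal.ofReal_le_ofReal ?_
    rw [mul_one_div]
    exact div_le_div_of_nonneg_right (cc_le G hBA) hb0.le
  refine (add_le_add (h1.trans h2.le) h3).trans ?_
  rw [← ENNReal.ofReal_add (Finset.sum_nonneg fun D _ => div_nonneg (qq_nonneg G _ _) hb0.le)
    (div_nonneg (capA_nonneg G _ _) hb0.le), ← Finset.sum_div, ← add_div]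
  rw [add_comm, cap_add_sum G hb hBA, div_self hb0.ne']
  simp

theorem rho_add_le (hb : ∀ C : Finset V, C.Nonempty → (bd G C).card ≠ 0) (J : ℕ) :
    ∀ B : Finset V, B.Nonempty →
      rho G J B + ENNReal.ofReal (cc G B) * uE G J B ≤ 1 := by
  induction J with
  | zero => intro B _; simp [rho, uE]
  | succ J ih =>
    intro B hB
    rw [rho, uE, mul_add, ← ENNReal.tsum_mul_left, add_left_comm, ← ENNReal.tsum_add]
    refine le_trans ?_ (tsum_pE_add_le G hb hB)
    rw [add_comm]
    refine add_le_add (ENNReal.tsum_le_tsum fun D => ?_) le_rfl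
    by_cases h : B ⊂ D
    · have h1 := ih D (hB.mono h.1)
      calc pE G B D * rho G J D + ENNReal.ofReal (cc G B) * (pE G B D * uE G J D)
          = pE G B D * (rho G J D + ENNReal.ofReal (cc G B) * uE G J D) := by ring
        _ ≤ pE G B D * (rho G J D + ENNReal.ofReal (cc G D) * uE G J D) := by
            gcongr
            exact cc_mono G hb h.1
        _ ≤ pE G B D * 1 := by gcongr
        _ = pE G B D := mul_one _
    · rw [pE, if_neg h]
      simp

theorem rho_succ_le (hb : ∀ C : Finset V, C.Nonempty → (bd G C).card ≠ 0) (J : ℕ) :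
    ∀ B : Finset V, B.Nonempty → rho G (J + 1) B ≤ rho G J B := by
  induction J with
  | zero =>
    intro B hB
    rw [rho, rho]
    simp only [rho, mul_one]
    exact le_trans le_self_add (tsum_pE_add_le G hb hB)
  | succ J ih =>
    intro B hB
    rw [rho, rho.eq_def G (J + 1) B]
    refine ENNReal.tsum_le_tsum fun D => ?_
    by_cases h : B ⊂ D
    · exact mul_le_mul_right (ih D (hB.mono h.1)) _
    · rw [pE, if_neg h]
      simp

theorem rho_antitone (hb : ∀ C : Finset V, C.Nonempty → (bd G C).card ≠ 0) {B : Finset V}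
    (hB : B.Nonempty) : Antitone fun J => rho G J B :=
  antitone_nat_of_succ_le fun J => rho_succ_le G hb J B hB

/-- the probability of infinitely many returns -/
def rhoI (B : Finset V) : ℝ≥0∞ := ⨅ J, rho G J B

theorem rhoI_le_half (hb : ∀ C : Finset V, C.Nonempty → (bd G C).card ≠ 0) {B : Finset V}
    (hB : B.Nonempty) (hc : 0 < cc G B) : rhoI G B ≤ 1 / 2 := by
  have hle1 : rhoI G B ≤ 1 := iInf_le_of_le 0 (by simp [rho])
  have hfin : rhoI G B ≠ ∞ := ne_top_of_le_ne_top ENNReal.one_ne_top hle1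
  -- the bound for each domain
  have key : ∀ A : Finset V, (rhoI G B).toReal + cc G B / (2 * capA G (A ∪ B) B) ≤ 1 := by
    intro A
    have hBA : B ⊆ A ∪ B := Finset.subset_union_right
    have hcap : 0 < capA G (A ∪ B) B := hc.trans_le (cc_le G hBA)
    set J := ((A ∪ B) \ B).card + 1 with hJ
    have h1 := uA_ge G hb (A ∪ B) J B hB hBA (by omega) (1 / capA G (A ∪ B) B) (by positivity)
    have h2 : 1 / capA G (A ∪ B) B - capA G (A ∪ B) B * (1 / capA G (A ∪ B) B) ^ 2 / 2 =
        1 / (2 * capA G (A ∪ B) B) := by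
      field_simp
      norm_num
    rw [h2] at h1
    have h3 := rho_add_le G hb J B hB
    have h4 : rhoI G B + ENNReal.ofReal (cc G B / (2 * capA G (A ∪ B) B)) ≤ 1 := by
      refine le_trans (add_le_add (iInf_le _ J) ?_) h3
      rw [show cc G B / (2 * capA G (A ∪ B) B) = cc G B * (1 / (2 * capA G (A ∪ B) B)) by ring,
        ENNReal.ofReal_mul hc.le]
      exact mul_le_mul_right ((ENNReal.ofReal_le_ofReal h1).trans (ofReal_uA_le G _ J B)) _
    have h5 := ENNReal.toReal_mono ENNReal.one_ne_top h4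
    rwa [ENNReal.toReal_add hfin ENNReal.ofReal_ne_top, ENNReal.toReal_ofReal (by positivity),
      ENNReal.toReal_one] at h5
  have hreal : (rhoI G B).toReal ≤ 1 / 2 := by
    by_contra hcon
    rw [not_le] at hcon
    set r := (rhoI G B).toReal with hr
    have h0 := key ∅
    have hcap0 : 0 < capA G (∅ ∪ B) B := hc.trans_le (cc_le G Finset.subset_union_right)
    have hr1 : r < 1 := by
      have : 0 < cc G B / (2 * capA G (∅ ∪ B) B) := by positivity
      linarith
    have h1 : cc G B / (2 * (1 - r)) ≤ cc G B := by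
      refine le_ciInf fun A => ?_
      have hcap : 0 < capA G (A ∪ B) B := hc.trans_le (cc_le G Finset.subset_union_right)
      have h2 := key A
      have h3 : cc G B / (2 * capA G (A ∪ B) B) ≤ 1 - r := by linarith
      rw [div_le_iff₀ (by positivity)] at h3
      rw [div_le_iff₀ (by linarith)]
      linarith
    rw [div_le_iff₀ (by linarith)] at h1
    nlinarith
  rw [← ENNReal.ofReal_toReal hfin]
  refine (ENNReal.ofReal_le_ofReal hreal).trans ?_
  rw [ENNReal.ofReal_div_of_pos (by norm_num)]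
  simp

theorem rhoI_le_tsum (hb : ∀ C : Finset V, C.Nonempty → (bd G C).card ≠ 0) {B : Finset V}
    (hB : B.Nonempty) : rhoI G B ≤ ∑' D, pE G B D * rhoI G D := by
  let _ : MeasurableSpace (Finset V) := ⊤
  have hsing : MeasurableSingletonClass (Finset V) := ⟨fun _ => trivial⟩
  have h1 : rhoI G B ≤ ⨅ J, rho G (J + 1) B := le_iInf fun J => iInf_le _ _
  refine h1.trans (le_of_eq ?_)
  simp only [rho]
  have h2 : ∀ J, ∑' D, pE G B D * rho G J D =
      ∫⁻ D, pE G B D * rho G J D ∂(Measure.count : Measure (Finset V)) := fun J =>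
    (lintegral_count _).symm
  simp only [h2]
  rw [← lintegral_iInf (fun _ => measurable_from_top)]
  · rw [lintegral_count]
    refine tsum_congr fun D => ?_
    have hp : pE G B D ≠ ∞ := by
      rw [pE]
      split_ifs
      · exact ENNReal.ofReal_ne_top
      · simp
    rw [rhoI, ENNReal.mul_iInf (fun h => absurd h hp)]
  · intro J J' hJ D
    by_cases h : B ⊂ D
    · exact mul_le_mul_right (rho_antitone G hb (hB.mono h.1) hJ) _
    · simp [pE, if_neg h]
  · rw [lintegral_count]
    refine ne_top_of_le_ne_top ENNReal.one_ne_top ?_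
    simp only [rho, mul_one]
    exact le_trans le_self_add (tsum_pE_add_le G hb hB)

/-- almost surely there are only finitely many returns -/
theorem rhoI_eq_zero (hb : ∀ C : Finset V, C.Nonempty → (bd G C).card ≠ 0)
    (hc : ∀ B : Finset V, B.Nonempty → 0 < cc G B) {B : Finset V} (hB : B.Nonempty) :
    rhoI G B = 0 := by
  have h : ∀ J, ∀ B : Finset V, B.Nonempty → rhoI G B ≤ 1 / 2 * rho G J B := by
    intro J
    induction J with
    | zero =>
      intro B hB
      simpa [rho] using rhoI_le_half G hb hB (hc B hB)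
    | succ J ih =>
      intro B hB
      refine (rhoI_le_tsum G hb hB).trans ?_
      rw [rho, ← ENNReal.tsum_mul_left]
      refine ENNReal.tsum_le_tsum fun D => ?_
      by_cases h : B ⊂ D
      · calc pE G B D * rhoI G D ≤ pE G B D * (1 / 2 * rho G J D) :=
            mul_le_mul_right (ih D (hB.mono h.1)) _
          _ = 1 / 2 * (pE G B D * rho G J D) := by ring
      · rw [pE, if_neg h]
        simp
  have h2 : rhoI G B ≤ 1 / 2 * rhoI G B := by
    conv_rhs => rw [rhoI]
    rw [ENNReal.mul_iInf (fun h => absurd h (by simp))]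
    exact le_iInf fun J => h J B hB
  have hle1 : rhoI G B ≤ 1 := iInf_le_of_le 0 (by simp [rho])
  have hfin : rhoI G B ≠ ∞ := ne_top_of_le_ne_top ENNReal.one_ne_top hle1
  have h3 := ENNReal.toReal_mono (ENNReal.mul_ne_top (by simp) hfin) h2
  rw [ENNReal.toReal_mul] at h3
  simp only [one_div, ENNReal.toReal_inv, ENNReal.toReal_ofNat] at h3
  have h4 : (rhoI G B).toReal ≤ 0 := by linarith
  have h5 : (rhoI G B).toReal = 0 := le_antisymm h4 ENNReal.toReal_nonneg
  rcases (ENNReal.toReal_eq_zero_iff _).1 h5 with h | h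
  · exact h
  · exact absurd h hfin

end

end Pool.Agent.Lib.MP_3b7186_pr
end
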