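import Pool.Agent.Lib.MP_3b7186_pr.Defs

section

/-!
# Trails: the combinatorics of chains of clusters
-/

namespace Pool.Agent.Lib.MP_3b7186_pr

open scoped Classical

noncomputable section

variable {V E : Type*} (G : MGraph V E)

theorem MGraph.head_rev (e : E) : G.head (G.rev e) = G.tail e := by
  rw [← G.tail_rev, G.rev_rev]

theorem MGraph.rev_injective : Function.Injective G.rev := fun a b h => by
  rw [← G.rev_rev a, h, G.rev_rev]

/-- edges with tail `v` -/
def star (v : V) : Finset E := (G.finite_out v).toFinset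

@[simp] theorem mem_star {v : V} {e : E} : e ∈ star G v ↔ G.tail e = v := by
  simp [star]

/-- edges with tail in `U` -/
def starS (U : Finset V) : Finset E := U.biUnion (star G)

@[simp] theorem mem_starS {U : Finset V} {e : E} : e ∈ starS G U ↔ G.tail e ∈ U := by
  simp [starS]

/-- edges from `C` to its complement -/
def bd (C : Finset V) : Finset E := (starS G C).filter (fun e => G.head e ∉ C)

@[simp] theorem mem_bd {C : Finset V} {e : E} : e ∈ bd G C ↔ G.tail e ∈ C ∧ G.head e ∉ C := by
  simp [bd]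

/-- the union of the clusters of a trail -/
def vs : List (Finset V × E) → Finset V
  | [] => ∅
  | r :: L => r.1 ∪ vs L

/-- the vertex at which a trail started at `v` arrives -/
def endR (v : V) : List (Finset V × E) → V
  | [] => v
  | r :: _ => G.head r.2

/-- `L` (most recent link first) is a trail from `v` -/
def Good (v : V) : List (Finset V × E) → Prop
  | [] => True
  | r :: L => Good v L ∧ endR G v L ∈ r.1 ∧ G.tail r.2 ∈ r.1 ∧ G.head r.2 ∉ r.1 ∧
      Disjoint r.1 (vs L)

/-- the oldest cluster of a trail -/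
def old : List (Finset V × E) → Finset V
  | [] => ∅
  | r :: L => if L = [] then r.1 else old L

/-- the weight of a trail -/
def wt (m : Finset V → ℝ) : List (Finset V × E) → ℝ
  | [] => 1
  | r :: L => m r.1 * wt m L

/-- the sum of `θ` over the edges of a trail -/
def ysum (θ : E → ℝ) : List (Finset V × E) → ℝ
  | [] => 0
  | r :: L => θ r.2 + ysum θ L

@[simp] theorem vs_nil : vs ([] : List (Finset V × E)) = ∅ := rfl
@[simp] theorem vs_cons (r : Finset V × E) (L : List (Finset V × E)) :
    vs (r :: L) = r.1 ∪ vs L := rfl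
@[simp] theorem endR_nil (v : V) : endR G v [] = v := rfl
@[simp] theorem endR_cons (v : V) (r : Finset V × E) (L : List (Finset V × E)) :
    endR G v (r :: L) = G.head r.2 := rfl
@[simp] theorem good_nil (v : V) : Good G v [] := trivial
theorem good_cons (v : V) (r : Finset V × E) (L : List (Finset V × E)) :
    Good G v (r :: L) ↔ Good G v L ∧ endR G v L ∈ r.1 ∧ G.tail r.2 ∈ r.1 ∧ G.head r.2 ∉ r.1 ∧
      Disjoint r.1 (vs L) := Iff.rfl
@[simp] theorem old_nil : old ([] : List (Finset V × E)) = ∅ := rfl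
@[simp] theorem wt_nil (m : Finset V → ℝ) : wt m ([] : List (Finset V × E)) = 1 := rfl
@[simp] theorem wt_cons (m : Finset V → ℝ) (r : Finset V × E) (L : List (Finset V × E)) :
    wt m (r :: L) = m r.1 * wt m L := rfl
@[simp] theorem ysum_nil (θ : E → ℝ) : ysum θ ([] : List (Finset V × E)) = 0 := rfl
@[simp] theorem ysum_cons (θ : E → ℝ) (r : Finset V × E) (L : List (Finset V × E)) :
    ysum θ (r :: L) = θ r.2 + ysum θ L := rfl

@[simp] theorem vs_append (X Y : List (Finset V × E)) : vs (X ++ Y) = vs X ∪ vs Y := by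
  induction X with
  | nil => simp
  | cons r X ih => simp [ih, Finset.union_assoc]

@[simp] theorem wt_append (m : Finset V → ℝ) (X Y : List (Finset V × E)) :
    wt m (X ++ Y) = wt m X * wt m Y := by
  induction X with
  | nil => simp
  | cons r X ih => simp [ih, mul_assoc]

@[simp] theorem ysum_append (θ : E → ℝ) (X Y : List (Finset V × E)) :
    ysum θ (X ++ Y) = ysum θ X + ysum θ Y := by
  induction X with
  | nil => simp
  | cons r X ih => simp [ih, add_assoc]

@[simp] theorem endR_append (v : V) (X Y : List (Finset V × E)) :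
    endR G v (X ++ Y) = endR G (endR G v Y) X := by
  cases X with
  | nil => rfl
  | cons r X => rfl

theorem endR_of_ne_nil (u v : V) {X : List (Finset V × E)} (h : X ≠ []) :
    endR G u X = endR G v X := by
  cases X with
  | nil => exact absurd rfl h
  | cons r X => rfl

theorem old_append (X Y : List (Finset V × E)) :
    old (X ++ Y) = if Y = [] then old X else old Y := by
  induction X with
  | nil => by_cases h : Y = [] <;> simp [h]
  | cons r X ih =>
    rw [List.cons_append, old, old, ih]
    by_cases hY : Y = []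
    · simp [hY]
    · simp [hY]

theorem old_append_of_ne_nil (X : List (Finset V × E)) {Y : List (Finset V × E)} (h : Y ≠ []) :
    old (X ++ Y) = old Y := by
  rw [old_append, if_neg h]

theorem old_singleton (r : Finset V × E) : old [r] = r.1 := by simp [old]

theorem old_append_singleton (X : List (Finset V × E)) (r : Finset V × E) :
    old (X ++ [r]) = r.1 := by
  rw [old_append_of_ne_nil _ (by simp), old_singleton]

theorem ne_nil_of_mem_old {L : List (Finset V × E)} {z : V} (h : z ∈ old L) : L ≠ [] := by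
  rintro rfl
  simp at h

theorem old_subset_vs (L : List (Finset V × E)) : old L ⊆ vs L := by
  induction L with
  | nil => simp
  | cons r L ih =>
    rw [old]
    split_ifs with h
    · subst h; simp
    · exact ih.trans (by simp)

theorem good_append (v : V) (X Y : List (Finset V × E)) :
    Good G v (X ++ Y) ↔ Good G v Y ∧ Good G (endR G v Y) X ∧ Disjoint (vs X) (vs Y) := by
  induction X with
  | nil => simp
  | cons r X ih =>
    rw [List.cons_append, good_cons, ih, good_cons, endR_append, vs_append, vs_cons,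
      Finset.disjoint_union_right, Finset.disjoint_union_left]
    tauto

theorem good_mem_old {v : V} {X : List (Finset V × E)} (h : Good G v X) (hX : X ≠ []) :
    v ∈ old X := by
  induction X with
  | nil => exact absurd rfl hX
  | cons r X ih =>
    rw [old]
    split_ifs with h1
    · subst h1; exact h.2.1
    · exact ih h.1 h1

theorem good_of_mem_old {u v : V} {X : List (Finset V × E)} (h : Good G v X) (hu : u ∈ old X) :
    Good G u X := by
  induction X with
  | nil => trivial
  | cons r X ih =>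
    rw [good_cons] at h ⊢
    rw [old] at hu
    split_ifs at hu with h1
    · subst h1
      exact ⟨trivial, hu, h.2.2.1, h.2.2.2.1, by simp⟩
    · refine ⟨ih h.1 hu, ?_, h.2.2.1, h.2.2.2.1, h.2.2.2.2⟩
      rw [endR_of_ne_nil G u v h1]
      exact h.2.1

theorem good_singleton (v : V) (r : Finset V × E) :
    Good G v [r] ↔ v ∈ r.1 ∧ G.tail r.2 ∈ r.1 ∧ G.head r.2 ∉ r.1 := by
  simp [good_cons]

/-- in a nonempty trail all clusters are nonempty, so the length is at most the number of
vertices -/
theorem length_le_card {v : V} {L : List (Finset V × E)} (h : Good G v L) :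
    L.length ≤ (vs L).card := by
  induction L with
  | nil => simp
  | cons r L ih =>
    rw [good_cons] at h
    rw [List.length_cons, vs_cons, Finset.card_union_of_disjoint h.2.2.2.2]
    have h1 : 0 < r.1.card := Finset.card_pos.2 ⟨_, h.2.1⟩
    have := ih h.1
    omega

/-- the most recent cluster does not contain the end of the trail -/
theorem tail_mem_vs {v : V} {L : List (Finset V × E)} (h : Good G v L) {r : Finset V × E}
    (hr : r ∈ L) : G.tail r.2 ∈ r.1 ∧ G.head r.2 ∉ r.1 ∧ r.1 ⊆ vs L := by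
  induction L with
  | nil => simp at hr
  | cons s L ih =>
    rw [List.mem_cons] at hr
    rcases hr with rfl | hr
    · exact ⟨h.2.2.1, h.2.2.2.1, by simp⟩
    · have := ih h.1 hr
      exact ⟨this.1, this.2.1, this.2.2.trans (by simp)⟩

/-! ### Cutting at a vertex -/

/-- the part of the trail more recent than the cluster of `z` -/
def tk (z : V) (L : List (Finset V × E)) : List (Finset V × E) :=
  L.takeWhile (fun r => decide (z ∉ r.1))

/-- the part of the trail from the cluster of `z` to the oldest -/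
def dw (z : V) (L : List (Finset V × E)) : List (Finset V × E) :=
  L.dropWhile (fun r => decide (z ∉ r.1))

theorem mem_vs {z : V} {L : List (Finset V × E)} : z ∈ vs L ↔ ∃ r ∈ L, z ∈ r.1 := by
  induction L with
  | nil => simp
  | cons r L ih => simp [ih]

theorem tk_dw_of_split {z : V} {X Y : List (Finset V × E)} {r : Finset V × E}
    (hX : z ∉ vs X) (hr : z ∈ r.1) : tk z (X ++ r :: Y) = X ∧ dw z (X ++ r :: Y) = r :: Y := by
  induction X with
  | nil => simp [tk, dw, hr]
  | cons s X ih =>
    rw [vs_cons, Finset.mem_union, not_or] at hX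
    have := ih hX.2
    simp only [tk, dw] at this ⊢
    rw [List.cons_append, List.takeWhile_cons, List.dropWhile_cons, this.1, this.2]
    simp [hX.1]

theorem exists_split {z : V} {L : List (Finset V × E)} (h : z ∈ vs L) :
    ∃ X r Y, L = X ++ r :: Y ∧ z ∈ r.1 ∧ z ∉ vs X := by
  induction L with
  | nil => simp at h
  | cons s L ih =>
    by_cases hs : z ∈ s.1
    · exact ⟨[], s, L, rfl, hs, by simp⟩
    · rw [vs_cons, Finset.mem_union] at h
      obtain ⟨X, r, Y, rfl, hr, hX⟩ := ih (h.resolve_left hs)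
      exact ⟨s :: X, r, Y, rfl, hr, by simp [hs, hX]⟩

theorem not_mem_vs_of_good {v z : V} {X Y : List (Finset V × E)} {r : Finset V × E}
    (h : Good G v (X ++ r :: Y)) (hr : z ∈ r.1) : z ∉ vs X := by
  rw [good_append] at h
  exact fun hz => Finset.disjoint_left.1 h.2.2 hz (by simp [hr])

/-! ### Finite sets of trails -/

/-- lists of links of length at most `n` in a finite alphabet -/
def listsUpTo {α : Type*} (S : Finset α) : ℕ → Finset (List α)
  | 0 => {[]}
  | n + 1 => {[]} ∪ (S ×ˢ listsUpTo S n).image (fun p => p.1 :: p.2)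

theorem mem_listsUpTo {α : Type*} {S : Finset α} {n : ℕ} {l : List α} :
    l ∈ listsUpTo S n ↔ l.length ≤ n ∧ ∀ a ∈ l, a ∈ S := by
  induction n generalizing l with
  | zero =>
    simp only [listsUpTo, Finset.mem_singleton, Nat.le_zero, List.length_eq_zero_iff]
    constructor
    · rintro rfl; simp
    · exact fun h => h.1
  | succ n ih =>
    simp only [listsUpTo, Finset.mem_union, Finset.mem_singleton, Finset.mem_image,
      Finset.mem_product, Prod.exists]
    cases l with
    | nil => simp
    | cons a l =>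
      simp only [reduceCtorEq, false_or, List.length_cons, List.mem_cons]
      constructor
      · rintro ⟨b, l', ⟨hb, hl'⟩, h⟩
        rw [ih] at hl'
        simp only [List.cons.injEq] at h
        obtain ⟨rfl, rfl⟩ := h
        refine ⟨by omega, ?_⟩
        rintro c (rfl | hc)
        · exact hb
        · exact hl'.2 c hc
      · rintro ⟨h1, h2⟩
        exact ⟨a, l, ⟨h2 a (Or.inl rfl), ih.2 ⟨by omega, fun c hc => h2 c (Or.inr hc)⟩⟩, rfl⟩

/-- The finite set of trails from `v` whose clusters lie in `U`. -/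
def Tr (U : Finset V) (v : V) : Finset (List (Finset V × E)) :=
  (listsUpTo (U.powerset ×ˢ starS G U) U.card).filter (fun L => Good G v L ∧ vs L ⊆ U)

theorem mem_Tr {U : Finset V} {v : V} {L : List (Finset V × E)} :
    L ∈ Tr G U v ↔ Good G v L ∧ vs L ⊆ U := by
  rw [Tr, Finset.mem_filter, mem_listsUpTo]
  constructor
  · exact fun h => h.2
  · rintro ⟨h1, h2⟩
    refine ⟨⟨(length_le_card G h1).trans (Finset.card_le_card h2), ?_⟩, h1, h2⟩
    intro r hr
    have := tail_mem_vs G h1 hr
    rw [Finset.mem_product, Finset.mem_powerset, mem_starS]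
    exact ⟨this.2.2.trans h2, h2 (this.2.2 this.1)⟩

theorem nil_mem_Tr (U : Finset V) (v : V) : ([] : List (Finset V × E)) ∈ Tr G U v := by
  simp [mem_Tr]

theorem Tr_mono {U U' : Finset V} (h : U ⊆ U') (v : V) : Tr G U v ⊆ Tr G U' v := by
  intro L hL
  rw [mem_Tr] at hL ⊢
  exact ⟨hL.1, hL.2.trans h⟩

/-! ### Cyclic trails -/

/-- cyclic trails covering `C`, with `a` in the oldest cluster -/
def Cyc (C : Finset V) (a : V) : Finset (List (Finset V × E)) :=
  (Tr G C a).filter (fun R => vs R = C ∧ endR G a R ∈ old R)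

theorem mem_Cyc {C : Finset V} {a : V} {R : List (Finset V × E)} :
    R ∈ Cyc G C a ↔ Good G a R ∧ vs R = C ∧ endR G a R ∈ old R := by
  rw [Cyc, Finset.mem_filter, mem_Tr]
  constructor
  · exact fun h => ⟨h.1.1, h.2⟩
  · exact fun h => ⟨⟨h.1, h.2.1.le⟩, h.2⟩

/-- rotation of a cyclic trail so that the oldest cluster contains `b` -/
def rot (b : V) (R : List (Finset V × E)) : List (Finset V × E) :=
  match dw b R with
  | [] => R
  | r :: Y => Y ++ (tk b R ++ [r])

theorem rot_of_split {b : V} {X Y : List (Finset V × E)} {r : Finset V × E}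
    (hX : b ∉ vs X) (hr : b ∈ r.1) : rot b (X ++ r :: Y) = Y ++ (X ++ [r]) := by
  have := tk_dw_of_split (Y := Y) hX hr
  rw [rot, this.1, this.2]

theorem rot_mem_Cyc {C : Finset V} {a b : V} (hb : b ∈ C) {R : List (Finset V × E)}
    (hR : R ∈ Cyc G C a) : rot b R ∈ Cyc G C b := by
  rw [mem_Cyc] at hR ⊢
  obtain ⟨hg, hv, he⟩ := hR
  obtain ⟨X, r, Y, rfl, hr, hX⟩ := exists_split (hv ▸ hb : b ∈ vs R)
  rw [rot_of_split hX hr]
  have hsplit : X ++ r :: Y = (X ++ [r]) ++ Y := by simp
  rw [hsplit] at hg hv he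
  have hne : X ++ [r] ≠ [] := by simp
  rw [good_append] at hg
  obtain ⟨hgY, hgX, hd⟩ := hg
  have hold : old (X ++ [r]) = r.1 := old_append_singleton X r
  have hgXb : Good G b (X ++ [r]) := good_of_mem_old G hgX (by rw [hold]; exact hr)
  have hend : endR G b (X ++ [r]) = endR G a ((X ++ [r]) ++ Y) := by
    rw [endR_append G a, endR_of_ne_nil G b _ hne]
  refine ⟨?_, ?_, ?_⟩
  · rw [good_append]
    refine ⟨hgXb, ?_, hd.symm⟩
    by_cases hY : Y = []
    · subst hY; trivial
    · refine good_of_mem_old G hgY ?_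
      rw [hend]
      rwa [old_append_of_ne_nil _ hY] at he
  · rw [vs_append, Finset.union_comm, ← vs_append]; exact hv
  · rw [old_append_of_ne_nil _ hne]
    by_cases hY : Y = []
    · subst hY
      rw [List.nil_append, hend]
      simpa using he
    · rw [endR_append, endR_of_ne_nil G _ a hY]
      exact good_mem_old G hgX hne

theorem rot_rot {C : Finset V} {a b : V} (hb : b ∈ C) {R : List (Finset V × E)}
    (hR : R ∈ Cyc G C a) : rot a (rot b R) = R := by
  have hR' := rot_mem_Cyc G hb hR
  rw [mem_Cyc] at hR hR'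
  obtain ⟨hg, hv, he⟩ := hR
  obtain ⟨X, r, Y, rfl, hr, hX⟩ := exists_split (hv ▸ hb : b ∈ vs R)
  rw [rot_of_split hX hr] at hR' ⊢
  have hsplit : X ++ r :: Y = (X ++ [r]) ++ Y := by simp
  by_cases hY : Y = []
  · subst hY
    have ha : a ∈ old (X ++ [r]) := good_mem_old G hg (by simp)
    rw [old_append_singleton] at ha
    rw [List.nil_append, rot_of_split (not_mem_vs_of_good G hg ha) ha, List.nil_append]
  · rw [hsplit, good_append] at hg
    have ha : a ∈ old Y := good_mem_old G hg.1 hY
    obtain ⟨Y', s, rfl⟩ : ∃ Y' s, Y = Y' ++ [s] :=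
      ⟨Y.dropLast, Y.getLast hY, (List.dropLast_append_getLast hY).symm⟩
    rw [old_append_singleton] at ha
    have h1 : (Y' ++ [s]) ++ (X ++ [r]) = Y' ++ s :: (X ++ [r]) := by simp
    rw [h1] at hR' ⊢
    rw [rot_of_split (not_mem_vs_of_good G hR'.1 ha) ha]
    simp

theorem wt_rot (m : Finset V → ℝ) (b : V) {R : List (Finset V × E)} (hb : b ∈ vs R) :
    wt m (rot b R) = wt m R := by
  obtain ⟨X, r, Y, rfl, hr, hX⟩ := exists_split hb
  rw [rot_of_split hX hr]
  simp only [wt_append, wt_cons, wt_nil]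
  ring

/-- the cyclic weight does not depend on the base point -/
theorem sum_Cyc_eq (m : Finset V → ℝ) {C : Finset V} {a b : V} (ha : a ∈ C) (hb : b ∈ C) :
    ∑ R ∈ Cyc G C a, wt m R = ∑ R ∈ Cyc G C b, wt m R := by
  refine Finset.sum_nbij' (rot b) (rot a) ?_ ?_ ?_ ?_ ?_
  · exact fun R hR => rot_mem_Cyc G hb hR
  · exact fun R hR => rot_mem_Cyc G ha hR
  · exact fun R hR => rot_rot G hb hR
  · exact fun R hR => rot_rot G ha hR
  · intro R hR
    rw [wt_rot]
    rw [mem_Cyc] at hR
    rw [hR.2.1]
    exact hb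

end

end Pool.Agent.Lib.MP_3b7186_pr
end

section

/-!
# Reversal of trails
-/

namespace Pool.Agent.Lib.MP_3b7186_pr

open scoped Classical

noncomputable section

variable {V E : Type*} (G : MGraph V E)

/-- reversal of the arc with incoming edge `f` and links `L` -/
def rv (f : E) : List (Finset V × E) → E × List (Finset V × E)
  | [] => (G.rev f, [])
  | r :: L => (G.rev r.2, (rv f L).2 ++ [(r.1, (rv f L).1)])

@[simp] theorem rv_nil (f : E) : rv G f ([] : List (Finset V × E)) = (G.rev f, []) := rfl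
theorem rv_cons (f : E) (r : Finset V × E) (L : List (Finset V × E)) :
    rv G f (r :: L) = (G.rev r.2, (rv G f L).2 ++ [(r.1, (rv G f L).1)]) := rfl

theorem rv_append (f : E) (X Y : List (Finset V × E)) :
    rv G f (X ++ Y) = ((rv G (G.rev (rv G f Y).1) X).1,
      (rv G f Y).2 ++ (rv G (G.rev (rv G f Y).1) X).2) := by
  induction X with
  | nil => simp [G.rev_rev]
  | cons r X ih =>
    rw [List.cons_append, rv_cons, ih, rv_cons]
    simp

theorem rv_rv (f : E) (L : List (Finset V × E)) :
    rv G (rv G f L).1 (rv G f L).2 = (f, L) := by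
  induction L with
  | nil => simp [G.rev_rev]
  | cons r L ih =>
    rw [rv_cons]
    simp only
    rw [rv_append]
    have h1 : rv G (G.rev r.2) [(r.1, (rv G f L).1)] = (G.rev (rv G f L).1, [r]) := by
      simp [rv_cons, G.rev_rev]
    rw [h1]
    simp only [G.rev_rev]
    rw [ih]
    simp

@[simp] theorem vs_rv (f : E) (L : List (Finset V × E)) : vs (rv G f L).2 = vs L := by
  induction L with
  | nil => simp
  | cons r L ih => simp [rv_cons, ih, Finset.union_comm]

@[simp] theorem wt_rv (m : Finset V → ℝ) (f : E) (L : List (Finset V × E)) :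
    wt m (rv G f L).2 = wt m L := by
  induction L with
  | nil => simp
  | cons r L ih => simp [rv_cons, ih, mul_comm]

theorem ysum_rv (θ : E → ℝ) (hθ : ∀ e, θ (G.rev e) = - θ e) (f : E)
    (L : List (Finset V × E)) :
    θ (rv G f L).1 + ysum θ (rv G f L).2 = -(θ f + ysum θ L) := by
  induction L with
  | nil => simp [hθ]
  | cons r L ih =>
    simp only [rv_cons, ysum_append, ysum_cons, ysum_nil, hθ]
    linarith

/-- if `L` is nonempty the head of the incoming edge of the reversed arc is a vertex of `L` -/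
theorem head_rv_mem {f : E} {L : List (Finset V × E)} (hg : Good G (G.head f) L) (hL : L ≠ []) :
    G.head (rv G f L).1 ∈ vs L := by
  cases L with
  | nil => exact absurd rfl hL
  | cons r L =>
    rw [rv_cons]
    simp only [G.head_rev]
    exact Finset.mem_union_left _ hg.2.2.1

theorem tail_rv {f : E} {L : List (Finset V × E)} :
    G.tail (rv G f L).1 = endR G (G.head f) L := by
  cases L with
  | nil => simp [G.tail_rev]
  | cons r L => simp [rv_cons, G.tail_rev]

theorem good_rv {f : E} {L : List (Finset V × E)} (hg : Good G (G.head f) L)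
    (hf : G.tail f ∉ vs L) :
    Good G (G.head (rv G f L).1) (rv G f L).2 ∧
      endR G (G.head (rv G f L).1) (rv G f L).2 = G.tail f := by
  induction L with
  | nil => simp [G.head_rev]
  | cons r L ih =>
    rw [vs_cons, Finset.mem_union, not_or] at hf
    obtain ⟨ih1, ih2⟩ := ih hg.1 hf.2
    rw [rv_cons]
    simp only [G.head_rev]
    rw [good_append, endR_append]
    simp only [endR_cons, endR_nil]
    refine ⟨⟨?_, ih1, ?_⟩, ih2⟩
    · rw [good_singleton]
      refine ⟨hg.2.2.1, ?_, ?_⟩
      · simp only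
        rw [tail_rv]
        exact hg.2.1
      · simp only
        by_cases hL : L = []
        · subst hL
          simp only [rv_nil, G.head_rev]
          exact hf.1
        · intro h
          exact Finset.disjoint_left.1 hg.2.2.2.2 h (head_rv_mem G hg.1 hL)
    · simp only [vs_rv, vs_cons, vs_nil, Finset.union_empty]
      exact hg.2.2.2.2.symm

/-- reversal of a cyclic trail -/
def crev (X : List (Finset V × E)) : List (Finset V × E) :=
  if h : X = [] then [] else
    (rv G (X.getLast h).2 X.dropLast).2 ++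
      [((X.getLast h).1, (rv G (X.getLast h).2 X.dropLast).1)]

theorem crev_append_singleton (Z : List (Finset V × E)) (r : Finset V × E) :
    crev G (Z ++ [r]) = (rv G r.2 Z).2 ++ [(r.1, (rv G r.2 Z).1)] := by
  simp [crev]

theorem exists_append_singleton {α : Type*} {l : List α} (h : l ≠ []) :
    ∃ l' a, l = l' ++ [a] :=
  ⟨l.dropLast, l.getLast h, (List.dropLast_append_getLast h).symm⟩

theorem crev_crev (X : List (Finset V × E)) : crev G (crev G X) = X := by
  by_cases h : X = []
  · subst h; simp [crev]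
  · obtain ⟨Z, r, rfl⟩ := exists_append_singleton h
    rw [crev_append_singleton, crev_append_singleton]
    simp only
    rw [rv_rv]

theorem crev_mem_Cyc {C : Finset V} {a : V} {X : List (Finset V × E)} (hX : X ∈ Cyc G C a) :
    crev G X ∈ Cyc G C a := by
  rw [mem_Cyc] at hX ⊢
  obtain ⟨hg, hv, he⟩ := hX
  obtain ⟨Z, r, rfl⟩ := exists_append_singleton (ne_nil_of_mem_old he)
  rw [old_append_singleton] at he
  rw [good_append, good_singleton] at hg
  rw [endR_append] at he
  simp only [endR_cons, endR_nil, vs_cons, vs_nil, Finset.union_empty] at hg he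
  obtain ⟨⟨ha, ht, hh⟩, hZ, hd⟩ := hg
  have hf : G.tail r.2 ∉ vs Z := fun h => Finset.disjoint_left.1 hd h ht
  obtain ⟨h1, h2⟩ := good_rv G hZ hf
  have hZne : Z ≠ [] := by
    rintro rfl
    exact hh he
  rw [crev_append_singleton, old_append_singleton, good_append, good_singleton, endR_append]
  simp only [endR_cons, endR_nil, vs_append, vs_rv, vs_cons, vs_nil, Finset.union_empty]
  refine ⟨⟨⟨ha, ?_, ?_⟩, h1, hd⟩, ?_, ?_⟩
  · rw [tail_rv]; exact he
  · exact fun h => Finset.disjoint_left.1 hd (head_rv_mem G hZ hZne) h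
  · simpa using hv
  · rw [h2]; exact ht

@[simp] theorem vs_crev (X : List (Finset V × E)) : vs (crev G X) = vs X := by
  by_cases h : X = []
  · subst h; simp [crev]
  · obtain ⟨Z, r, rfl⟩ := exists_append_singleton h
    rw [crev_append_singleton]
    simp

@[simp] theorem wt_crev (m : Finset V → ℝ) (X : List (Finset V × E)) :
    wt m (crev G X) = wt m X := by
  by_cases h : X = []
  · subst h; simp [crev]
  · obtain ⟨Z, r, rfl⟩ := exists_append_singleton h
    rw [crev_append_singleton]
    simp

theorem ysum_crev (θ : E → ℝ) (hθ : ∀ e, θ (G.rev e) = - θ e) (X : List (Finset V × E)) :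
    ysum θ (crev G X) = - ysum θ X := by
  by_cases h : X = []
  · subst h; simp [crev]
  · obtain ⟨Z, r, rfl⟩ := exists_append_singleton h
    rw [crev_append_singleton]
    have := ysum_rv G θ hθ r.2 Z
    simp only [ysum_append, ysum_cons, ysum_nil]
    linarith

/-- on cyclic trails the sum of an antisymmetric function averages to zero -/
theorem sum_Cyc_ysum (m : Finset V → ℝ) (θ : E → ℝ) (hθ : ∀ e, θ (G.rev e) = - θ e)
    (C : Finset V) (a : V) : ∑ R ∈ Cyc G C a, wt m R * ysum θ R = 0 := by
  have h : ∑ R ∈ Cyc G C a, wt m R * ysum θ R = ∑ R ∈ Cyc G C a, -(wt m R * ysum θ R) := by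
    refine Finset.sum_nbij' (crev G) (crev G) ?_ ?_ ?_ ?_ ?_
    · exact fun R hR => crev_mem_Cyc G hR
    · exact fun R hR => crev_mem_Cyc G hR
    · exact fun R _ => crev_crev G R
    · exact fun R _ => crev_crev G R
    · intro R _
      rw [wt_crev, ysum_crev G θ hθ]
      ring
  rw [Finset.sum_neg_distrib] at h
  linarith

end

end Pool.Agent.Lib.MP_3b7186_pr
end

section

/-!
# Weights of clusters and the balance equation
-/

namespace Pool.Agent.Lib.MP_3b7186_pr

open scoped Classical

noncomputable section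

variable {V E : Type*} (G : MGraph V E)

/-- auxiliary (fuel) version of the cluster weight -/
def mAux : ℕ → Finset V → ℝ
  | 0, _ => 0
  | n + 1, C => ((bd G C).card : ℝ)⁻¹ * ((if C.card = 1 then 1 else 0) +
      if h : C.Nonempty then ∑ R ∈ Cyc G C h.choose, wt (mAux n) R else 0)

/-- the cluster weight -/
def mm (C : Finset V) : ℝ := mAux G C.card C

theorem wt_congr {m m' : Finset V → ℝ} {L : List (Finset V × E)}
    (h : ∀ r ∈ L, m r.1 = m' r.1) : wt m L = wt m' L := by
  induction L with
  | nil => rfl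
  | cons r L ih =>
    rw [wt_cons, wt_cons, h r (by simp), ih (fun s hs => h s (by simp [hs]))]

theorem wt_nonneg {m : Finset V → ℝ} (hm : ∀ C, 0 ≤ m C) (L : List (Finset V × E)) :
    0 ≤ wt m L := by
  induction L with
  | nil => simp
  | cons r L ih => exact mul_nonneg (hm _) ih

theorem head_mem_or {v : V} {L : List (Finset V × E)} (hg : Good G v L) {r : Finset V × E}
    (hr : r ∈ L) : G.head r.2 ∈ vs L ∨ G.head r.2 = endR G v L := by
  induction L with
  | nil => simp at hr
  | cons s L ih =>
    rw [List.mem_cons] at hr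
    rcases hr with rfl | hr
    · exact Or.inr rfl
    · rcases ih hg.1 hr with h | h
      · exact Or.inl (by simp [h])
      · exact Or.inl (by rw [h]; exact Finset.mem_union_left _ hg.2.1)

theorem card_lt_of_mem_Cyc {C : Finset V} {a : V} {R : List (Finset V × E)}
    (hR : R ∈ Cyc G C a) {r : Finset V × E} (hr : r ∈ R) : r.1.card < C.card := by
  rw [mem_Cyc] at hR
  have h1 := tail_mem_vs G hR.1 hr
  have h2 : G.head r.2 ∈ C := by
    rcases head_mem_or G hR.1 hr with h | h
    · rw [← hR.2.1]; exact h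
    · rw [h, ← hR.2.1]; exact old_subset_vs _ hR.2.2
  refine Finset.card_lt_card ⟨?_, fun h => h1.2.1 (h h2)⟩
  rw [← hR.2.1]
  exact h1.2.2

theorem mAux_eq (k : ℕ) : ∀ C : Finset V, C.card = k → ∀ n, k ≤ n → mAux G n C = mAux G k C := by
  induction k using Nat.strong_induction_on with
  | _ k ih =>
    intro C hC n hn
    cases k with
    | zero =>
      cases n with
      | zero => rfl
      | succ n =>
        rw [Finset.card_eq_zero] at hC
        subst hC
        simp [mAux]
    | succ k =>
      cases n with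
      | zero => omega
      | succ n =>
        rw [mAux, mAux]
        congr 1
        congr 1
        split_ifs with h
        · refine Finset.sum_congr rfl fun R hR => wt_congr fun r hr => ?_
          have hlt := card_lt_of_mem_Cyc G hR hr
          rw [ih _ (by omega) r.1 rfl n (by omega), ih _ (by omega) r.1 rfl k (by omega)]
        · rfl

theorem mAux_eq_mm {n : ℕ} {C : Finset V} (h : C.card ≤ n) : mAux G n C = mm G C :=
  mAux_eq G _ C rfl n h

theorem mm_nonneg (C : Finset V) : 0 ≤ mm G C := by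
  have : ∀ n, ∀ C : Finset V, 0 ≤ mAux G n C := by
    intro n
    induction n with
    | zero => intro C; simp [mAux]
    | succ n ih =>
      intro C
      rw [mAux]
      refine mul_nonneg (by positivity) (add_nonneg (by split_ifs <;> norm_num) ?_)
      split_ifs
      · exact Finset.sum_nonneg fun R _ => wt_nonneg ih R
      · rfl
  exact this _ C

theorem mm_eq {C : Finset V} {a : V} (ha : a ∈ C) (hb : (bd G C).card ≠ 0) :
    mm G C * (bd G C).card = (if C.card = 1 then 1 else 0) + ∑ R ∈ Cyc G C a, wt (mm G) R := by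
  have hne : C.Nonempty := ⟨a, ha⟩
  obtain ⟨n, hn⟩ : ∃ n, C.card = n + 1 := Nat.exists_eq_succ_of_ne_zero (by
    rw [Finset.card_ne_zero]; exact hne)
  have hb' : ((bd G C).card : ℝ) ≠ 0 := by exact_mod_cast hb
  rw [mm, hn, mAux, dif_pos hne, mul_comm, ← mul_assoc, mul_inv_cancel₀ hb', one_mul, hn]
  congr 1
  rw [← sum_Cyc_eq G (mm G) hne.choose_spec ha]
  refine Finset.sum_congr rfl fun R hR => wt_congr fun r hr => ?_
  have hlt := card_lt_of_mem_Cyc G hR hr
  rw [mAux_eq_mm G (by omega)]

theorem mm_singleton (v : V) (hb : (bd G {v}).card ≠ 0) :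
    mm G {v} * (bd G {v}).card = 1 := by
  rw [mm_eq G (Finset.mem_singleton_self v) hb, if_pos (by simp)]
  have : Cyc G {v} v = ∅ := by
    rw [Finset.eq_empty_iff_forall_notMem]
    intro R hR
    have hR' := hR
    rw [mem_Cyc] at hR'
    obtain ⟨Z, r, rfl⟩ := exists_append_singleton (ne_nil_of_mem_old hR'.2.2)
    have := card_lt_of_mem_Cyc G hR (r := r) (by simp)
    rw [Finset.card_singleton] at this
    have h0 : r.1 = ∅ := by
      rw [← Finset.card_eq_zero]; omega
    have h1 := (tail_mem_vs G hR'.1 (r := r) (by simp)).1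
    rw [h0] at h1
    simp at h1
  rw [this, Finset.sum_empty, add_zero]

/-! ### The state reached by a trail -/

/-- the state (older links, current cluster) reached by the trail `L` from `v` -/
def nxt (v : V) (L : List (Finset V × E)) : List (Finset V × E) × Finset V :=
  if endR G v L ∈ vs L then
    match dw (endR G v L) L with
    | [] => ([], ∅)
    | r :: Y => (Y, vs (tk (endR G v L) L) ∪ r.1)
  else (L, {endR G v L})

theorem nxt_of_split {v : V} {X Y : List (Finset V × E)} {r : Finset V × E}
    (hg : Good G v (X ++ r :: Y)) (he : endR G v (X ++ r :: Y) ∈ r.1) :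
    nxt G v (X ++ r :: Y) = (Y, vs X ∪ r.1) := by
  have h := tk_dw_of_split (X := X) (Y := Y) (not_mem_vs_of_good G hg he) he
  rw [nxt, if_pos, h.1, h.2]
  simp only [vs_append, vs_cons, Finset.mem_union]
  exact Or.inr (Or.inl he)

theorem nxt_of_not_mem {v : V} {L : List (Finset V × E)} (h : endR G v L ∉ vs L) :
    nxt G v L = (L, {endR G v L}) := by
  rw [nxt, if_neg h]

/-- a state above `v` -/
def GoodSt (v : V) (s : List (Finset V × E) × Finset V) : Prop :=
  Good G v s.1 ∧ endR G v s.1 ∈ s.2 ∧ Disjoint s.2 (vs s.1)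

/-- the clusters of `nxt` -/
theorem nxt_spec {v : V} {L : List (Finset V × E)} (hg : Good G v L) :
    GoodSt G v (nxt G v L) ∧ endR G v L ∈ (nxt G v L).2 ∧
      (nxt G v L).2 ∪ vs (nxt G v L).1 = insert (endR G v L) (vs L) := by
  by_cases h : endR G v L ∈ vs L
  · obtain ⟨X, r, Y, hL, hr, hX⟩ := exists_split h
    rw [hL] at hg hr
    have hn := nxt_of_split G hg hr
    rw [← hL] at hn hr
    rw [hn]
    rw [good_append, good_cons] at hg
    obtain ⟨⟨hY, ha, ht, hh, hd⟩, hgX, hdX⟩ := hg
    rw [vs_cons, Finset.disjoint_union_right] at hdX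
    refine ⟨⟨hY, ?_, ?_⟩, ?_, ?_⟩
    · exact Finset.mem_union_right _ ha
    · simp only
      rw [Finset.disjoint_union_left]
      exact ⟨hdX.2, hd⟩
    · exact Finset.mem_union_right _ hr
    · simp only
      rw [Finset.insert_eq_of_mem h, hL, vs_append, vs_cons, Finset.union_assoc]
  · rw [nxt_of_not_mem G h]
    refine ⟨⟨hg, by simp, ?_⟩, by simp, ?_⟩
    · simp only
      rw [Finset.disjoint_singleton_left]
      exact h
    · simp only
      rw [Finset.insert_eq]

/-- summation over the trails that reach a given state -/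
theorem sum_fiber {U : Finset V} {v : V} {Y : List (Finset V × E)} {C : Finset V}
    (hs : GoodSt G v (Y, C)) (hY : vs Y ⊆ U) (hC : C ⊆ U) (F : List (Finset V × E) → ℝ) :
    ∑ L ∈ (Tr G U v).filter (fun L => nxt G v L = (Y, C)), F L =
      (if C.card = 1 then F Y else 0) + ∑ X ∈ Cyc G C (endR G v Y), F (X ++ Y) := by
  obtain ⟨hgY, ha, hd⟩ := hs
  simp only at hgY ha hd
  rw [← Finset.sum_filter_add_sum_filter_not _ (fun L => endR G v L ∉ vs L)]
  congr 1
  · -- the new vertex case
    rw [Finset.filter_filter]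
    by_cases hc : C.card = 1
    · rw [if_pos hc]
      have hC1 : C = {endR G v Y} := by
        rw [Finset.card_eq_one] at hc
        obtain ⟨c, rfl⟩ := hc
        rw [Finset.mem_singleton] at ha
        rw [ha]
      have : (Tr G U v).filter (fun L => nxt G v L = (Y, C) ∧ endR G v L ∉ vs L) = {Y} := by
        ext L
        rw [Finset.mem_filter, Finset.mem_singleton, mem_Tr]
        constructor
        · rintro ⟨_, h1, h2⟩
          rw [nxt_of_not_mem G h2] at h1
          exact (Prod.ext_iff.1 h1).1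
        · rintro rfl
          have : endR G v L ∉ vs L := Finset.disjoint_left.1 hd ha
          refine ⟨⟨hgY, hY⟩, ?_, this⟩
          rw [nxt_of_not_mem G this, hC1]
      rw [this, Finset.sum_singleton]
    · rw [if_neg hc]
      apply Finset.sum_eq_zero
      intro L hL
      exfalso
      rw [Finset.mem_filter] at hL
      obtain ⟨_, h1, h2⟩ := hL
      rw [nxt_of_not_mem G h2] at h1
      apply hc
      have h5 : {endR G v L} = C := (Prod.ext_iff.1 h1).2
      rw [← h5]
      simp
  · -- the closing case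
    rw [Finset.filter_filter]
    symm
    refine Finset.sum_nbij (fun X => X ++ Y) ?_ ?_ ?_ ?_
    · intro X hX
      simp only [Finset.mem_filter, not_not]
      rw [mem_Cyc] at hX
      obtain ⟨hg, hv, he⟩ := hX
      obtain ⟨X', r, rfl⟩ := exists_append_singleton (ne_nil_of_mem_old he)
      have hgood : Good G v ((X' ++ [r]) ++ Y) := by
        rw [good_append]
        refine ⟨hgY, hg, ?_⟩
        rw [hv]; exact hd
      have hend : endR G v ((X' ++ [r]) ++ Y) = endR G (endR G v Y) (X' ++ [r]) :=
        endR_append G _ _ _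
      rw [old_append_singleton] at he
      have hsp : (X' ++ [r]) ++ Y = X' ++ r :: Y := by simp
      rw [← hend] at he
      refine ⟨?_, ?_, ?_⟩
      · rw [mem_Tr]
        refine ⟨hgood, ?_⟩
        rw [vs_append, hv]
        exact Finset.union_subset hC hY
      · rw [hsp] at hgood he ⊢
        rw [nxt_of_split G hgood he, ← hv]
        simp
      · rw [vs_append]
        refine Finset.mem_union_left _ ?_
        rw [vs_append]
        exact Finset.mem_union_right _ (by simpa using he)
    · intro X _ X' _ h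
      exact List.append_cancel_right h
    · intro L hL
      simp only [Finset.mem_coe, Finset.mem_filter, not_not] at hL
      obtain ⟨h1, h2, h3⟩ := hL
      rw [mem_Tr] at h1
      obtain ⟨X, r, Y', rfl, hr, hX⟩ := exists_split h3
      rw [nxt_of_split G h1.1 hr] at h2
      obtain ⟨h4, h5⟩ := Prod.ext_iff.1 h2
      simp only at h4 h5
      subst h4
      refine ⟨X ++ [r], ?_, by simp⟩
      rw [Finset.mem_coe, mem_Cyc]
      have hsp : X ++ r :: Y' = (X ++ [r]) ++ Y' := by simp
      have hg := h1.1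
      rw [hsp, good_append] at hg
      rw [hsp, endR_append] at hr
      refine ⟨hg.2.1, ?_, ?_⟩
      · rw [← h5]; simp
      · rw [old_append_singleton]; exact hr
    · intro X _
      rfl

/-- The balance equation. -/
theorem balance {U : Finset V} {v : V} {Y : List (Finset V × E)} {C : Finset V}
    (hs : GoodSt G v (Y, C)) (hY : vs Y ⊆ U) (hC : C ⊆ U) (hb : (bd G C).card ≠ 0) :
    ∑ L ∈ (Tr G U v).filter (fun L => nxt G v L = (Y, C)), wt (mm G) L =
      wt (mm G) Y * (mm G C * (bd G C).card) := by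
  rw [mm_eq G hs.2.1 hb, mul_add, sum_fiber G hs hY hC, Finset.mul_sum]
  congr 1
  · split_ifs <;> simp
  · refine Finset.sum_congr rfl fun X _ => ?_
    rw [wt_append, mul_comm]

/-- the finite set of states above `v` inside `U` -/
def St (U : Finset V) (v : V) : Finset (List (Finset V × E) × Finset V) :=
  ((Tr G U v) ×ˢ U.powerset).filter (fun s => GoodSt G v s)

theorem mem_St {U : Finset V} {v : V} {s : List (Finset V × E) × Finset V} :
    s ∈ St G U v ↔ GoodSt G v s ∧ vs s.1 ⊆ U ∧ s.2 ⊆ U := by
  rw [St, Finset.mem_filter, Finset.mem_product, mem_Tr, Finset.mem_powerset]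
  constructor
  · rintro ⟨⟨⟨_, h1⟩, h2⟩, h3⟩
    exact ⟨h3, h1, h2⟩
  · rintro ⟨h1, h2, h3⟩
    exact ⟨⟨⟨h1.1, h2⟩, h3⟩, h1⟩

theorem nxt_mem_St {U : Finset V} {v : V} {L : List (Finset V × E)} (hL : L ∈ Tr G U v)
    (he : endR G v L ∈ U) : nxt G v L ∈ St G U v := by
  rw [mem_Tr] at hL
  obtain ⟨h1, h2, h3⟩ := nxt_spec G hL.1
  rw [mem_St]
  have h4 : (nxt G v L).2 ∪ vs (nxt G v L).1 ⊆ U := by
    rw [h3]
    exact Finset.insert_subset he hL.2
  rw [Finset.union_subset_iff] at h4
  exact ⟨h1, h4.2, h4.1⟩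

/-- fiberwise summation over the reached states -/
theorem sum_in (U : Finset V) (v : V) (F : List (Finset V × E) → ℝ) :
    ∑ L ∈ (Tr G U v).filter (fun L => endR G v L ∈ U), F L =
    ∑ s ∈ St G U v, ∑ L ∈ (Tr G U v).filter (fun L => nxt G v L = s), F L := by
  rw [← Finset.sum_fiberwise_of_maps_to (g := nxt G v) (t := St G U v)]
  · refine Finset.sum_congr rfl fun s hs => ?_
    rw [mem_St] at hs
    rw [Finset.filter_filter]
    refine Finset.sum_congr ?_ (fun _ _ => rfl)
    ext L
    simp only [Finset.mem_filter]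
    constructor
    · rintro ⟨h1, _, h2⟩
      exact ⟨h1, h2⟩
    · rintro ⟨h1, h2⟩
      refine ⟨h1, ?_, h2⟩
      rw [mem_Tr] at h1
      have := (nxt_spec G h1.1).2.1
      rw [h2] at this
      exact hs.2.2 this
  · intro L hL
    rw [Finset.mem_filter] at hL
    exact nxt_mem_St G hL.1 hL.2

/-- decomposition of nonempty trails by their last step -/
theorem sum_trails (U : Finset V) (v : V) (F : List (Finset V × E) → ℝ) :
    ∑ L ∈ (Tr G U v).filter (fun L => L ≠ []), F L =
      ∑ s ∈ St G U v, ∑ e ∈ bd G s.2, F ((s.2, e) :: s.1) := by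
  rw [Finset.sum_sigma']
  symm
  refine Finset.sum_nbij (fun p => (p.1.2, p.2) :: p.1.1) ?_ ?_ ?_ ?_
  · rintro ⟨s, e⟩ h
    rw [Finset.mem_sigma, mem_St, mem_bd] at h
    obtain ⟨⟨⟨h1, h2, h3⟩, h4, h5⟩, h6, h7⟩ := h
    rw [Finset.mem_filter, mem_Tr]
    refine ⟨⟨⟨h1, h2, h6, h7, h3⟩, ?_⟩, by simp⟩
    rw [vs_cons]
    exact Finset.union_subset h5 h4
  · rintro ⟨s, e⟩ _ ⟨s', e'⟩ _ h
    simp only [List.cons.injEq, Prod.mk.injEq] at h
    obtain ⟨⟨h1, h2⟩, h3⟩ := h
    have : s = s' := Prod.ext h3 h1
    subst this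
    subst h2
    rfl
  · intro L hL
    rw [Finset.mem_coe, Finset.mem_filter, mem_Tr] at hL
    obtain ⟨⟨hg, hv⟩, hne⟩ := hL
    cases L with
    | nil => exact absurd rfl hne
    | cons r L =>
      rw [vs_cons, Finset.union_subset_iff] at hv
      refine ⟨⟨(L, r.1), r.2⟩, ?_, rfl⟩
      rw [Finset.mem_coe, Finset.mem_sigma, mem_St, mem_bd]
      exact ⟨⟨⟨hg.1, hg.2.1, hg.2.2.2.2⟩, hv.2, hv.1⟩, hg.2.2.1, hg.2.2.2.1⟩
  · rintro ⟨s, e⟩ _
    rfl

/-- the value of `θ` at the last edge -/
def lth (θ : E → ℝ) : List (Finset V × E) → ℝ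
  | [] => 0
  | r :: _ => θ r.2

@[simp] theorem lth_nil (θ : E → ℝ) : lth θ ([] : List (Finset V × E)) = 0 := rfl
@[simp] theorem lth_cons (θ : E → ℝ) (r : Finset V × E) (L : List (Finset V × E)) :
    lth θ (r :: L) = θ r.2 := rfl

theorem sum_all (U : Finset V) (v : V) (F : List (Finset V × E) → ℝ) :
    ∑ L ∈ Tr G U v, F L = F [] + ∑ L ∈ (Tr G U v).filter (fun L => L ≠ []), F L := by
  rw [← Finset.sum_filter_add_sum_filter_not (Tr G U v) (fun L => L ≠ []) F, add_comm]
  congr 1
  have h6 : (Tr G U v).filter (fun L => ¬ L ≠ []) = {[]} := by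
    ext L
    simp only [Finset.mem_filter, not_not, Finset.mem_singleton]
    constructor
    · exact fun h => h.2
    · rintro rfl
      exact ⟨nil_mem_Tr G U v, rfl⟩
  rw [h6, Finset.sum_singleton]

/-- (P1) the total weight of the trails leaving `U` is one -/
theorem sum_out (hb : ∀ C : Finset V, C.Nonempty → (bd G C).card ≠ 0) (U : Finset V) (v : V) :
    ∑ L ∈ (Tr G U v).filter (fun L => endR G v L ∉ U), wt (mm G) L = 1 := by
  have h1 := sum_trails G U v (wt (mm G))
  have h2 := sum_in G U v (wt (mm G))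
  have h3 : ∑ s ∈ St G U v, ∑ e ∈ bd G s.2, wt (mm G) ((s.2, e) :: s.1) =
      ∑ s ∈ St G U v, ∑ L ∈ (Tr G U v).filter (fun L => nxt G v L = s), wt (mm G) L := by
    refine Finset.sum_congr rfl fun s hs => ?_
    rw [mem_St] at hs
    rw [balance G (U := U) (Y := s.1) (C := s.2) hs.1 hs.2.1 hs.2.2 (hb _ ⟨_, hs.1.2.1⟩)]
    simp only [wt_cons, Finset.sum_const, nsmul_eq_mul]
    ring
  have h4 := Finset.sum_filter_add_sum_filter_not (Tr G U v) (fun L => endR G v L ∈ U)
    (wt (mm G))
  have h5 := sum_all G U v (wt (mm G))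
  rw [wt_nil] at h5
  linarith

/-- the flux out of a finite set is the total divergence inside -/
theorem sum_bd (θ : E → ℝ) (hθ : ∀ e, θ (G.rev e) = - θ e) (C : Finset V) :
    ∑ e ∈ bd G C, θ e = ∑ u ∈ C, ∑ e ∈ star G u, θ e := by
  have h1 : ∑ e ∈ starS G C, θ e = ∑ u ∈ C, ∑ e ∈ star G u, θ e := by
    rw [starS, Finset.sum_biUnion]
    intro u _ u' _ huu'
    rw [Function.onFun, Finset.disjoint_left]
    intro e he he'
    rw [mem_star] at he he'
    exact huu' (he.symm.trans he')
  have h2 := Finset.sum_filter_add_sum_filter_not (starS G C) (fun e => G.head e ∉ C) θ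
  have h3 : ∑ e ∈ (starS G C).filter (fun e => ¬ G.head e ∉ C), θ e =
      ∑ e ∈ (starS G C).filter (fun e => ¬ G.head e ∉ C), - θ e := by
    refine Finset.sum_nbij' G.rev G.rev ?_ ?_ ?_ ?_ ?_
    · intro e he
      simp only [Finset.mem_filter, mem_starS, not_not, G.tail_rev, G.head_rev] at he ⊢
      exact ⟨he.2, he.1⟩
    · intro e he
      simp only [Finset.mem_filter, mem_starS, not_not, G.tail_rev, G.head_rev] at he ⊢
      exact ⟨he.2, he.1⟩
    · exact fun e _ => G.rev_rev e
    · exact fun e _ => G.rev_rev e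
    · intro e _
      rw [hθ, neg_neg]
  rw [Finset.sum_neg_distrib] at h3
  rw [bd]
  linarith

/-- (E1) -/
theorem sum_out_ysum (hb : ∀ C : Finset V, C.Nonempty → (bd G C).card ≠ 0) (θ : E → ℝ)
    (hθ : ∀ e, θ (G.rev e) = - θ e) (U : Finset V) (hdiv : ∀ u ∈ U, ∑ e ∈ star G u, θ e = 0)
    (v : V) :
    ∑ L ∈ (Tr G U v).filter (fun L => endR G v L ∉ U), wt (mm G) L * ysum θ L = 0 := by
  have h1 := sum_trails G U v (fun L => wt (mm G) L * ysum θ L)
  have h2 := sum_in G U v (fun L => wt (mm G) L * ysum θ L)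
  have h3 : ∑ s ∈ St G U v, ∑ e ∈ bd G s.2, wt (mm G) ((s.2, e) :: s.1) *
        ysum θ ((s.2, e) :: s.1) =
      ∑ s ∈ St G U v, ∑ L ∈ (Tr G U v).filter (fun L => nxt G v L = s),
        wt (mm G) L * ysum θ L := by
    refine Finset.sum_congr rfl fun s hs => ?_
    rw [mem_St] at hs
    obtain ⟨Y, C⟩ := s
    simp only at hs
    have hbd : ∑ e ∈ bd G C, θ e = 0 := by
      rw [sum_bd G θ hθ]
      exact Finset.sum_eq_zero fun u hu => hdiv u (hs.2.2 hu)
    rw [sum_fiber G hs.1 hs.2.1 hs.2.2]
    have h6 : ∑ X ∈ Cyc G C (endR G v Y), wt (mm G) (X ++ Y) * ysum θ (X ++ Y) =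
        wt (mm G) Y * ysum θ Y * ∑ X ∈ Cyc G C (endR G v Y), wt (mm G) X := by
      have h7 := sum_Cyc_ysum G (mm G) θ hθ C (endR G v Y)
      rw [Finset.mul_sum]
      have h8 : ∑ X ∈ Cyc G C (endR G v Y), wt (mm G) (X ++ Y) * ysum θ (X ++ Y) =
          ∑ X ∈ Cyc G C (endR G v Y), (wt (mm G) Y * ysum θ Y * wt (mm G) X +
            wt (mm G) Y * (wt (mm G) X * ysum θ X)) := by
        refine Finset.sum_congr rfl fun X _ => ?_
        rw [wt_append, ysum_append]
        ring
      rw [h8, Finset.sum_add_distrib, ← Finset.mul_sum _ _ (wt (mm G) Y), h7]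
      ring
    rw [h6]
    have h9 := mm_eq G hs.1.2.1 (hb C ⟨_, hs.1.2.1⟩)
    simp only at h9
    have h10 : ∑ e ∈ bd G C, wt (mm G) ((C, e) :: Y) * ysum θ ((C, e) :: Y) =
        wt (mm G) Y * ysum θ Y * (mm G C * (bd G C).card) := by
      have : ∀ e ∈ bd G C, wt (mm G) ((C, e) :: Y) * ysum θ ((C, e) :: Y) =
          mm G C * wt (mm G) Y * ysum θ Y + mm G C * wt (mm G) Y * θ e := by
        intro e _
        simp only [wt_cons, ysum_cons]
        ring
      rw [Finset.sum_congr rfl this, Finset.sum_add_distrib,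
        ← Finset.mul_sum (bd G C) θ (mm G C * wt (mm G) Y), hbd,
        Finset.sum_const, nsmul_eq_mul]
      ring
    simp only
    rw [h10, h9, mul_add]
    congr 1
    split_ifs <;> ring
  have h4 := Finset.sum_filter_add_sum_filter_not (Tr G U v) (fun L => endR G v L ∈ U)
    (fun L => wt (mm G) L * ysum θ L)
  have h5 := sum_all G U v (fun L => wt (mm G) L * ysum θ L)
  simp only [ysum_nil, mul_zero, zero_add] at h5
  linarith

/-- (E2) -/
theorem sum_out_ysum_sq (hb : ∀ C : Finset V, C.Nonempty → (bd G C).card ≠ 0) (θ : E → ℝ)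
    (hθ : ∀ e, θ (G.rev e) = - θ e) (U : Finset V) (hdiv : ∀ u ∈ U, ∑ e ∈ star G u, θ e = 0)
    (v : V) :
    ∑ L ∈ (Tr G U v).filter (fun L => endR G v L ∉ U), wt (mm G) L * ysum θ L ^ 2 ≤
      ∑ L ∈ Tr G U v, wt (mm G) L * lth θ L ^ 2 := by
  have h1 := sum_trails G U v (fun L => wt (mm G) L * ysum θ L ^ 2)
  have h1' := sum_trails G U v (fun L => wt (mm G) L * lth θ L ^ 2)
  have h2 := sum_in G U v (fun L => wt (mm G) L * ysum θ L ^ 2)
  have h3 : ∑ s ∈ St G U v, ∑ e ∈ bd G s.2, wt (mm G) ((s.2, e) :: s.1) *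
        ysum θ ((s.2, e) :: s.1) ^ 2 ≤
      ∑ s ∈ St G U v, ∑ e ∈ bd G s.2, wt (mm G) ((s.2, e) :: s.1) *
        lth θ ((s.2, e) :: s.1) ^ 2 +
      ∑ s ∈ St G U v, ∑ L ∈ (Tr G U v).filter (fun L => nxt G v L = s),
        wt (mm G) L * ysum θ L ^ 2 := by
    rw [← Finset.sum_add_distrib]
    refine Finset.sum_le_sum fun s hs => ?_
    rw [mem_St] at hs
    obtain ⟨Y, C⟩ := s
    simp only at hs
    have hbd : ∑ e ∈ bd G C, θ e = 0 := by
      rw [sum_bd G θ hθ]
      exact Finset.sum_eq_zero fun u hu => hdiv u (hs.2.2 hu)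
    rw [sum_fiber G hs.1 hs.2.1 hs.2.2]
    have h6 : wt (mm G) Y * ysum θ Y ^ 2 * ∑ X ∈ Cyc G C (endR G v Y), wt (mm G) X ≤
        ∑ X ∈ Cyc G C (endR G v Y), wt (mm G) (X ++ Y) * ysum θ (X ++ Y) ^ 2 := by
      have h7 := sum_Cyc_ysum G (mm G) θ hθ C (endR G v Y)
      rw [Finset.mul_sum]
      have h8 : ∑ X ∈ Cyc G C (endR G v Y), wt (mm G) (X ++ Y) * ysum θ (X ++ Y) ^ 2 =
          ∑ X ∈ Cyc G C (endR G v Y), (wt (mm G) Y * ysum θ Y ^ 2 * wt (mm G) X +
            2 * wt (mm G) Y * ysum θ Y * (wt (mm G) X * ysum θ X) +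
            wt (mm G) X * wt (mm G) Y * ysum θ X ^ 2) := by
        refine Finset.sum_congr rfl fun X _ => ?_
        rw [wt_append, ysum_append]
        ring
      rw [h8, Finset.sum_add_distrib, Finset.sum_add_distrib, ← Finset.mul_sum _ _
        (2 * wt (mm G) Y * ysum θ Y), h7, mul_zero, add_zero, le_add_iff_nonneg_right]
      exact Finset.sum_nonneg fun X _ => mul_nonneg (mul_nonneg (wt_nonneg (mm_nonneg G) _)
        (wt_nonneg (mm_nonneg G) _)) (sq_nonneg _)
    have h9 := mm_eq G hs.1.2.1 (hb C ⟨_, hs.1.2.1⟩)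
    simp only at h9
    have h10 : ∑ e ∈ bd G C, wt (mm G) ((C, e) :: Y) * ysum θ ((C, e) :: Y) ^ 2 =
        wt (mm G) Y * ysum θ Y ^ 2 * (mm G C * (bd G C).card) +
        ∑ e ∈ bd G C, wt (mm G) ((C, e) :: Y) * lth θ ((C, e) :: Y) ^ 2 := by
      have : ∀ e ∈ bd G C, wt (mm G) ((C, e) :: Y) * ysum θ ((C, e) :: Y) ^ 2 =
          mm G C * wt (mm G) Y * ysum θ Y ^ 2 + 2 * mm G C * wt (mm G) Y * ysum θ Y * θ e +
          wt (mm G) ((C, e) :: Y) * lth θ ((C, e) :: Y) ^ 2 := by
        intro e _
        simp only [wt_cons, ysum_cons, lth_cons]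
        ring
      rw [Finset.sum_congr rfl this, Finset.sum_add_distrib, Finset.sum_add_distrib,
        ← Finset.mul_sum (bd G C) θ (2 * mm G C * wt (mm G) Y * ysum θ Y), hbd,
        Finset.sum_const, nsmul_eq_mul]
      ring
    simp only
    rw [h10, h9, mul_add]
    have h11 : wt (mm G) Y * ysum θ Y ^ 2 * (if C.card = 1 then (1 : ℝ) else 0) =
        if C.card = 1 then wt (mm G) Y * ysum θ Y ^ 2 else 0 := by
      split_ifs <;> ring
    rw [h11]
    linarith
  have h4 := Finset.sum_filter_add_sum_filter_not (Tr G U v) (fun L => endR G v L ∈ U)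
    (fun L => wt (mm G) L * ysum θ L ^ 2)
  have h5 := sum_all G U v (fun L => wt (mm G) L * ysum θ L ^ 2)
  have h5' := sum_all G U v (fun L => wt (mm G) L * lth θ L ^ 2)
  simp only [ysum_nil, lth_nil, ne_eq, OfNat.ofNat_ne_zero, not_false_eq_true, zero_pow,
    mul_zero, zero_add] at h5 h5'
  linarith

end

end Pool.Agent.Lib.MP_3b7186_pr
end
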